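import Mathlib

/-!
# Task G6: a congruence

Proof. `Q = ∏ j ∈ (range (J+1)).erase k, P j` is coprime to `P k` (distinct primes), so
`Nat.chineseRemainder` gives `m ≡ m0 mod P k`, `m ≡ 0 mod Q`.
-/

namespace Pool.Agent.W_MP_d1cfb0_an

theorem exists_crt (P : ℕ → ℕ) (hP : ∀ k, (P k).Prime) (hinj : Function.Injective P)
    (k J m0 : ℕ) : ∃ m : ℕ, m ≡ m0 [MOD P k] ∧ ∀ l ≤ J, l ≠ k → P l ∣ m := by
  classical
  have hco : Nat.Coprime (P k) (∏ j ∈ (Finset.range (J + 1)).erase k, P j) := by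
    refine Nat.Coprime.prod_right fun j hj => ?_
    refine (Nat.coprime_primes (hP k) (hP j)).2 fun h => ?_
    exact Finset.ne_of_mem_erase hj (hinj h).symm
  refine ⟨(Nat.chineseRemainder hco m0 0 : ℕ), (Nat.chineseRemainder hco m0 0).2.1, ?_⟩
  intro l hl hlk
  have h1 : (∏ j ∈ (Finset.range (J + 1)).erase k, P j) ∣
      (Nat.chineseRemainder hco m0 0 : ℕ) :=
    (Nat.modEq_zero_iff_dvd).1 (Nat.chineseRemainder hco m0 0).2.2
  refine dvd_trans (Finset.dvd_prod_of_mem P ?_) h1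
  exact Finset.mem_erase.2 ⟨hlk, Finset.mem_range.2 (by omega)⟩

end Pool.Agent.W_MP_d1cfb0_an
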