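import Pool.Agent.W_MP_d1cfb0_an.Twist

/-!
# Task F1: the closure of a finitely generated group is a closed group

Proof. Every element of `Subgroup.closure F` is the identity off `O n`. If `h` is the identity off
`O n` then `h` is uniformly continuous: `h - id` is continuous with compact support (contained in
the closed cube), `HasCompactSupport.uniformContinuous_of_continuous`... `mul_mem`: for `g ≈ h`,
`g' ≈ h'`: `dist (g (g' x)) (h (h' x)) ≤ dist (g (g' x)) (h (g' x)) + dist (h (g' x)) (h (h' x))`;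
the inverses are `g'⁻¹ (g⁻¹ x)`. `closed`: a limit of limits.
-/

namespace Pool.Agent.W_MP_d1cfb0_an

/-- A homeomorphism which is the identity off the open cube is uniformly continuous. -/
theorem SuppIn.uniformContinuous_of_cube {n : ℕ} {h : E n ≃ₜ E n} (hs : SuppIn h (O n)) :
    UniformContinuous h := by
  have hK : IsCompact ((WithLp.toLp 2) '' (Set.univ.pi fun _ : Fin n => Set.Icc (-(1 / 2) : ℝ)
      (1 / 2)) : Set (E n)) :=
    (isCompact_univ_pi fun _ => isCompact_Icc).image (PiLp.continuous_toLp 2 _)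
  have hc : HasCompactSupport fun x : E n => h x - x := by
    refine HasCompactSupport.intro hK fun x hx => ?_
    have hx' : x ∉ O n := by
      intro hxO
      apply hx
      refine ⟨WithLp.ofLp x, ?_, rfl⟩
      intro i _
      have := abs_lt.1 (hxO i)
      exact ⟨this.1.le, this.2.le⟩
    rw [hs x hx', sub_self]
  have hu : UniformContinuous fun x : E n => h x - x :=
    hc.uniformContinuous_of_continuous (h.continuous.sub continuous_id)
  have h2 : (h : E n → E n) = fun x => (h x - x) + x := by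
    funext x
    rw [sub_add_cancel]
  rw [h2]
  exact hu.add uniformContinuous_id

theorem closedGroup_closure {n : ℕ} (F : Set (E n ≃ₜ E n)) (hF : ∀ g ∈ F, SuppIn g (O n)) :
    ClosedGroup n {h | SuppIn h (O n) ∧ ∀ ε : ℝ, 0 < ε → ∃ g ∈ Subgroup.closure F,
      ∀ x, dist (g x) (h x) < ε ∧ dist (g⁻¹ x) (h⁻¹ x) < ε} := by
  constructor
  · refine ⟨suppIn_one _, fun ε hε => ⟨1, one_mem _, fun x => ?_⟩⟩
    rw [dist_self, dist_self]
    exact ⟨hε, hε⟩
  · rintro h ⟨hs, hh⟩ h' ⟨hs', hh'⟩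
    refine ⟨hs.mul hs', fun ε hε => ?_⟩
    obtain ⟨δ₁, hδ₁, h1⟩ := Metric.uniformContinuous_iff.1 hs.uniformContinuous_of_cube
      (ε / 2) (half_pos hε)
    obtain ⟨δ₂, hδ₂, h2⟩ := Metric.uniformContinuous_iff.1 hs'.inv.uniformContinuous_of_cube
      (ε / 2) (half_pos hε)
    obtain ⟨g, hg, hgx⟩ := hh (min (ε / 2) δ₂) (lt_min (half_pos hε) hδ₂)
    obtain ⟨g', hg', hgx'⟩ := hh' (min (ε / 2) δ₁) (lt_min (half_pos hε) hδ₁)
    refine ⟨g * g', mul_mem hg hg', fun x => ⟨?_, ?_⟩⟩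
    · rw [mul_apply', mul_apply']
      have h3 : dist (g (g' x)) (h (g' x)) < ε / 2 :=
        (hgx (g' x)).1.trans_le (min_le_left _ _)
      have h4 : dist (h (g' x)) (h (h' x)) < ε / 2 :=
        h1 ((hgx' x).1.trans_le (min_le_right _ _))
      have h5 := dist_triangle (g (g' x)) (h (g' x)) (h (h' x))
      linarith
    · rw [mul_inv_rev, mul_inv_rev, mul_apply', mul_apply']
      have h3 : dist (g'⁻¹ (g⁻¹ x)) (h'⁻¹ (g⁻¹ x)) < ε / 2 :=
        (hgx' (g⁻¹ x)).2.trans_le (min_le_left _ _)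
      have h4 : dist (h'⁻¹ (g⁻¹ x)) (h'⁻¹ (h⁻¹ x)) < ε / 2 :=
        h2 ((hgx x).2.trans_le (min_le_right _ _))
      have h5 := dist_triangle (g'⁻¹ (g⁻¹ x)) (h'⁻¹ (g⁻¹ x)) (h'⁻¹ (h⁻¹ x))
      linarith
  · rintro h ⟨hs, hh⟩
    refine ⟨hs.inv, fun ε hε => ?_⟩
    obtain ⟨g, hg, hgx⟩ := hh ε hε
    refine ⟨g⁻¹, inv_mem hg, fun x => ?_⟩
    rw [inv_inv, inv_inv]
    exact ⟨(hgx x).2, (hgx x).1⟩
  · exact fun g hg => hg.1
  · intro h hs hh
    refine ⟨hs, fun ε hε => ?_⟩
    obtain ⟨g, ⟨_, hg⟩, hgx⟩ := hh (ε / 2) (half_pos hε)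
    obtain ⟨k, hk, hkx⟩ := hg (ε / 2) (half_pos hε)
    refine ⟨k, hk, fun x => ⟨?_, ?_⟩⟩
    · have := dist_triangle (k x) (g x) (h x)
      have h1 := (hgx x).1
      have h2 := (hkx x).1
      linarith
    · have := dist_triangle (k⁻¹ x) (g⁻¹ x) (h⁻¹ x)
      have h1 := (hgx x).2
      have h2 := (hkx x).2
      linarith

end Pool.Agent.W_MP_d1cfb0_an
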