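import Pool.Agent.W_MP_d1cfb0_an.Twist
import Pool.Agent.W_MP_d1cfb0_an.CRT

/-!
# Task G7: isolating one factor of an infinite product by commutators

Setting: disjoint sets `R l` (rings) invariant under `S`, on which `S` is isometric and periodic
with period `P l` (distinct primes); `T` is the infinite product of the `t l`, supported in
`B l ⊆ R l`. Then `t k * (S^m0 * (t k)⁻¹ * S^(-m0))` is in the closed group.

Proof. Let `J ≥ k`; take `m` from `exists_crt P hP hinj k J m0` and let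
`g = T * (S^m * T⁻¹ * (S^m)⁻¹) ∈ H`, `d = t k * (S^m0 * (t k)⁻¹ * (S^m0)⁻¹)`.
All maps involved preserve each `R l` and the complement of the union of the `R l`. Let `x ∈ R l`.
* `l = k`: on `R k` we have `S^m = S^m0` and `(S^m)⁻¹ = (S^m0)⁻¹` (as `m ≡ m0 mod P k` and
  `S^(P k) = id` on `R k`) and `T = t k`; so `g x = d x`.
* `l ≤ J`, `l ≠ k`: `S^m = id` on `R l`, so `g x = x`; and `d x = x` as `t k = id` on `R l`.
* `l > J`: `d x = x`; `g x = t l (S^m ((t l)⁻¹ ((S^m)⁻¹ x)))` is at distance `≤ 2 e l` from `x`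
  (`S^m` is isometric on `R l`).
Off the union of the `R l`: `g x = x = d x`. The same for the inverses
`g⁻¹ = S^m * T * (S^m)⁻¹ * T⁻¹`, `d⁻¹ = S^m0 * t k * (S^m0)⁻¹ * (t k)⁻¹`. As `e l → 0`, `d ∈ H` by
`hH.closed` (`J → ∞`). `SuppIn d (O n)`: `t k` and `S` are the identity off `O n`.
-/

namespace Pool.Agent.W_MP_d1cfb0_an

open Filter Topology

section CmAux

variable {X : Type*} [PseudoMetricSpace X] {S : X ≃ₜ X} {R : Set X}

theorem cm_pow_mem (hSR : ∀ x, S x ∈ R ↔ x ∈ R) (m : ℕ) :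
    ∀ x, (S ^ m) x ∈ R ↔ x ∈ R := by
  induction m with
  | zero => intro x; rw [pow_zero]; rfl
  | succ m ih => intro x; rw [pow_succ, mul_apply', ih, hSR]

theorem cm_inv_mem (hSR : ∀ x, S x ∈ R ↔ x ∈ R) (m : ℕ) (x : X) :
    (S ^ m)⁻¹ x ∈ R ↔ x ∈ R := by
  rw [← cm_pow_mem hSR m, apply_inv_self']

theorem cm_pow_iso (hSR : ∀ x, S x ∈ R ↔ x ∈ R)
    (hSiso : ∀ x ∈ R, ∀ y ∈ R, dist (S x) (S y) = dist x y) (m : ℕ) :
    ∀ x ∈ R, ∀ y ∈ R, dist ((S ^ m) x) ((S ^ m) y) = dist x y := by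
  induction m with
  | zero => intro x _ y _; rw [pow_zero]; rfl
  | succ m ih =>
    intro x hx y hy
    rw [pow_succ, mul_apply', mul_apply', ih _ ((hSR x).2 hx) _ ((hSR y).2 hy), hSiso x hx y hy]

theorem cm_pow_mul {p : ℕ} (hSP : ∀ x ∈ R, (S ^ p) x = x) (q : ℕ) :
    ∀ x ∈ R, (S ^ (p * q)) x = x := by
  induction q with
  | zero => intro x _; rw [mul_zero, pow_zero]; rfl
  | succ q ih => intro x hx; rw [mul_add, mul_one, pow_add, mul_apply', hSP x hx, ih x hx]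

theorem cm_pow_dvd {p m : ℕ} (hSP : ∀ x ∈ R, (S ^ p) x = x) (hm : p ∣ m) :
    ∀ x ∈ R, (S ^ m) x = x := by
  obtain ⟨q, rfl⟩ := hm
  exact cm_pow_mul hSP q

theorem cm_inv_dvd {p m : ℕ} (hSP : ∀ x ∈ R, (S ^ p) x = x) (hm : p ∣ m) :
    ∀ x ∈ R, (S ^ m)⁻¹ x = x := by
  intro x hx
  nth_rewrite 1 [← cm_pow_dvd hSP hm x hx]
  rw [inv_apply_self']

theorem cm_pow_mod {p m : ℕ} (hSP : ∀ x ∈ R, (S ^ p) x = x) :
    ∀ x ∈ R, (S ^ m) x = (S ^ (m % p)) x := by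
  intro x hx
  conv_lhs => rw [← Nat.mod_add_div m p, pow_add, mul_apply', cm_pow_mul hSP _ x hx]

theorem cm_pow_modEq {p m m0 : ℕ} (hSP : ∀ x ∈ R, (S ^ p) x = x) (hm : m ≡ m0 [MOD p]) :
    ∀ x ∈ R, (S ^ m) x = (S ^ m0) x := by
  intro x hx
  rw [cm_pow_mod hSP x hx, cm_pow_mod (m := m0) hSP x hx, hm]

theorem cm_inv_modEq {p m m0 : ℕ} (hSR : ∀ x, S x ∈ R ↔ x ∈ R)
    (hSP : ∀ x ∈ R, (S ^ p) x = x) (hm : m ≡ m0 [MOD p]) :
    ∀ x ∈ R, (S ^ m)⁻¹ x = (S ^ m0)⁻¹ x := by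
  intro x hx
  have h1 : (S ^ m0)⁻¹ x ∈ R := (cm_inv_mem hSR m0 x).2 hx
  have h2 : x = (S ^ m) ((S ^ m0)⁻¹ x) := by
    rw [cm_pow_modEq hSP hm _ h1, apply_inv_self']
  nth_rewrite 1 [h2]
  rw [inv_apply_self']

end CmAux

theorem comm_mem {n : ℕ} {H : Set (E n ≃ₜ E n)} (hH : ClosedGroup n H) (S T : E n ≃ₜ E n)
    (hS : S ∈ H) (hT : T ∈ H) (t : ℕ → (E n ≃ₜ E n)) (R B : ℕ → Set (E n)) (P : ℕ → ℕ)
    (e : ℕ → ℝ) (hP : ∀ k, (P k).Prime) (hinj : Function.Injective P)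
    (hBR : ∀ l, B l ⊆ R l) (hR : ∀ k l, k ≠ l → Disjoint (R k) (R l))
    (hSR : ∀ l x, S x ∈ R l ↔ x ∈ R l)
    (hSiso : ∀ l, ∀ x ∈ R l, ∀ y ∈ R l, dist (S x) (S y) = dist x y)
    (hSP : ∀ l, ∀ x ∈ R l, (S ^ P l) x = x)
    (ht : ∀ l, SuppIn (t l) (B l)) (htO : ∀ l, SuppIn (t l) (O n))
    (hTin : ∀ l, ∀ x ∈ B l, T x = t l x) (hTout : ∀ x, (∀ l, x ∉ B l) → T x = x)
    (he : ∀ l x, dist (t l x) x ≤ e l) (he0 : Tendsto e atTop (𝓝 0)) (k m0 : ℕ) :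
    t k * (S ^ m0 * (t k)⁻¹ * (S ^ m0)⁻¹) ∈ H := by
  -- `T` on the rings
  have hTR : ∀ l, ∀ x ∈ R l, T x = t l x := by
    intro l x hx
    by_cases hxB : x ∈ B l
    · exact hTin l x hxB
    · rw [ht l x hxB]
      refine hTout x fun l' hl' => ?_
      by_cases h : l' = l
      · rw [h] at hl'
        exact hxB hl'
      · exact Set.disjoint_left.1 (hR l' l h) (hBR l' hl') hx
  have htR : ∀ l, SuppIn (t l) (R l) := fun l => (ht l).mono (hBR l)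
  have hTR' : ∀ l, ∀ x ∈ R l, T⁻¹ x = (t l)⁻¹ x := by
    intro l x hx
    have h1 : (t l)⁻¹ x ∈ R l := (htR l).inv.mem_of_mem hx
    have h2 : x = T ((t l)⁻¹ x) := by rw [hTR l _ h1, apply_inv_self']
    nth_rewrite 1 [h2]
    rw [inv_apply_self']
  have hTo : ∀ x, (∀ l, x ∉ R l) → T x = x := fun x hx => hTout x fun l hl => hx l (hBR l hl)
  have hTo' : ∀ x, (∀ l, x ∉ R l) → T⁻¹ x = x := by
    intro x hx
    nth_rewrite 1 [← hTo x hx]
    rw [inv_apply_self']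
  -- `t k` off the ring `R k`
  have hto : ∀ x, x ∉ R k → t k x = x := fun x hx => htR k x hx
  have hto' : ∀ x, x ∉ R k → (t k)⁻¹ x = x := fun x hx => (htR k).inv x hx
  have hSm : ∀ m : ℕ, S ^ m ∈ H := by
    intro m
    induction m with
    | zero => rw [pow_zero]; exact hH.one_mem
    | succ m ih => rw [pow_succ]; exact hH.mul_mem _ ih _ hS
  have hSpt : ∀ m : ℕ, ∀ l x, (S ^ m) x ∈ R l ↔ x ∈ R l := fun m l => cm_pow_mem (hSR l) m
  have hSpt' : ∀ m : ℕ, ∀ l x, (S ^ m)⁻¹ x ∈ R l ↔ x ∈ R l := fun m l => cm_inv_mem (hSR l) m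
  -- the displacement of the inverse
  have he' : ∀ l x, dist ((t l)⁻¹ x) x ≤ e l := by
    intro l x
    have h := he l ((t l)⁻¹ x)
    rwa [apply_inv_self', dist_comm] at h
  refine hH.closed _ ?_ ?_
  · have h1 : SuppIn (S ^ m0) (O n) := hH.supp _ (hSm m0)
    exact (htO k).mul ((h1.mul (htO k).inv).mul h1.inv)
  · intro ε hε
    obtain ⟨J, hJ⟩ := (Metric.tendsto_atTop.1 he0) (ε / 2) (by positivity)
    have hJ' : ∀ l, J ≤ l → 2 * e l < ε := by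
      intro l hl
      have h1 := hJ l hl
      rw [Real.dist_eq, sub_zero] at h1
      have h2 := le_abs_self (e l)
      linarith
    obtain ⟨m, hm1, hm2⟩ := exists_crt P hP hinj k J m0
    refine ⟨T * (S ^ m * T⁻¹ * (S ^ m)⁻¹), hH.mul_mem _ hT _ (hH.mul_mem _
      (hH.mul_mem _ (hSm m) _ (hH.inv_mem _ hT)) _ (hH.inv_mem _ (hSm m))), fun x => ?_⟩
    have hg : ∀ x, (T * (S ^ m * T⁻¹ * (S ^ m)⁻¹)) x = T ((S ^ m) (T⁻¹ ((S ^ m)⁻¹ x))) :=
      fun x => rfl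
    have hd : ∀ x, (t k * (S ^ m0 * (t k)⁻¹ * (S ^ m0)⁻¹)) x =
        t k ((S ^ m0) ((t k)⁻¹ ((S ^ m0)⁻¹ x))) := fun x => rfl
    have hg' : ∀ x, (T * (S ^ m * T⁻¹ * (S ^ m)⁻¹))⁻¹ x = (S ^ m) (T ((S ^ m)⁻¹ (T⁻¹ x))) := by
      intro x
      have h : (T * (S ^ m * T⁻¹ * (S ^ m)⁻¹))⁻¹ = S ^ m * (T * ((S ^ m)⁻¹ * T⁻¹)) := by group
      rw [h]
      rfl
    have hd' : ∀ x, (t k * (S ^ m0 * (t k)⁻¹ * (S ^ m0)⁻¹))⁻¹ x =
        (S ^ m0) (t k ((S ^ m0)⁻¹ ((t k)⁻¹ x))) := by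
      intro x
      have h : (t k * (S ^ m0 * (t k)⁻¹ * (S ^ m0)⁻¹))⁻¹ =
        S ^ m0 * (t k * ((S ^ m0)⁻¹ * (t k)⁻¹)) := by group
      rw [h]
      rfl
    rw [hg, hd, hg', hd']
    -- `d` is trivial off `R k`
    have hdk : x ∉ R k → t k ((S ^ m0) ((t k)⁻¹ ((S ^ m0)⁻¹ x))) = x ∧
        (S ^ m0) (t k ((S ^ m0)⁻¹ ((t k)⁻¹ x))) = x := by
      intro hx
      have h1 : (S ^ m0)⁻¹ x ∉ R k := fun h => hx ((hSpt' m0 k x).1 h)
      constructor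
      · rw [hto' _ h1, apply_inv_self', hto _ hx]
      · rw [hto' _ hx, hto _ h1, apply_inv_self']
    by_cases hxl : ∃ l, x ∈ R l
    · obtain ⟨l, hl⟩ := hxl
      by_cases hlk : l = k
      · rw [hlk] at hl
        have a1 : (S ^ m0)⁻¹ x ∈ R k := (hSpt' m0 k x).2 hl
        have a2 : (t k)⁻¹ ((S ^ m0)⁻¹ x) ∈ R k := (htR k).inv.mem_of_mem a1
        have a3 : (S ^ m0) ((t k)⁻¹ ((S ^ m0)⁻¹ x)) ∈ R k := (hSpt m0 k _).2 a2
        have b1 : (t k)⁻¹ x ∈ R k := (htR k).inv.mem_of_mem hl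
        have b2 : (S ^ m0)⁻¹ ((t k)⁻¹ x) ∈ R k := (hSpt' m0 k _).2 b1
        have b3 : t k ((S ^ m0)⁻¹ ((t k)⁻¹ x)) ∈ R k := (htR k).mem_of_mem b2
        rw [cm_inv_modEq (hSR k) (hSP k) hm1 x hl, hTR' k _ a1, cm_pow_modEq (hSP k) hm1 _ a2,
          hTR k _ a3, hTR' k _ hl, cm_inv_modEq (hSR k) (hSP k) hm1 _ b1, hTR k _ b2,
          cm_pow_modEq (hSP k) hm1 _ b3, dist_self, dist_self]
        exact ⟨hε, hε⟩
      · have hxk : x ∉ R k := fun h => Set.disjoint_left.1 (hR l k hlk) hl h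
        rw [(hdk hxk).1, (hdk hxk).2]
        by_cases hlJ : l ≤ J
        · have hdv := hm2 l hlJ hlk
          have a1 : T⁻¹ x ∈ R l := by
            rw [hTR' l x hl]
            exact (htR l).inv.mem_of_mem hl
          rw [cm_inv_dvd (hSP l) hdv x hl, cm_pow_dvd (hSP l) hdv _ a1, apply_inv_self',
            cm_inv_dvd (hSP l) hdv _ a1, apply_inv_self', cm_pow_dvd (hSP l) hdv _ hl,
            dist_self]
          exact ⟨hε, hε⟩
        · have hlJ' := hJ' l (not_le.1 hlJ).le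
          have a1 : (S ^ m)⁻¹ x ∈ R l := (hSpt' m l x).2 hl
          have a2 : (t l)⁻¹ ((S ^ m)⁻¹ x) ∈ R l := (htR l).inv.mem_of_mem a1
          have a3 : (S ^ m) ((t l)⁻¹ ((S ^ m)⁻¹ x)) ∈ R l := (hSpt m l _).2 a2
          have b1 : (t l)⁻¹ x ∈ R l := (htR l).inv.mem_of_mem hl
          have b2 : (S ^ m)⁻¹ ((t l)⁻¹ x) ∈ R l := (hSpt' m l _).2 b1
          have b3 : t l ((S ^ m)⁻¹ ((t l)⁻¹ x)) ∈ R l := (htR l).mem_of_mem b2
          rw [hTR' l _ a1, hTR l _ a3, hTR' l _ hl, hTR l _ b2]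
          have iso := cm_pow_iso (hSR l) (hSiso l) m
          constructor
          · have h1 := he l ((S ^ m) ((t l)⁻¹ ((S ^ m)⁻¹ x)))
            have h2 : dist ((S ^ m) ((t l)⁻¹ ((S ^ m)⁻¹ x))) x ≤ e l := by
              have h3 := iso _ a2 _ a1
              rw [apply_inv_self'] at h3
              rw [h3]
              exact he' l _
            have h4 := dist_triangle (t l ((S ^ m) ((t l)⁻¹ ((S ^ m)⁻¹ x))))
              ((S ^ m) ((t l)⁻¹ ((S ^ m)⁻¹ x))) x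
            linarith
          · have h1 := he' l x
            have h2 : dist ((S ^ m) (t l ((S ^ m)⁻¹ ((t l)⁻¹ x)))) ((t l)⁻¹ x) ≤ e l := by
              have h3 := iso _ b3 _ b2
              rw [apply_inv_self' (S ^ m) ((t l)⁻¹ x)] at h3
              rw [h3]
              exact he l _
            have h4 := dist_triangle ((S ^ m) (t l ((S ^ m)⁻¹ ((t l)⁻¹ x)))) ((t l)⁻¹ x) x
            linarith
    · push Not at hxl
      have a1 : ∀ l, (S ^ m)⁻¹ x ∉ R l := fun l h => hxl l ((hSpt' m l x).1 h)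
      rw [(hdk (hxl k)).1, (hdk (hxl k)).2, hTo' _ a1, apply_inv_self', hTo _ hxl, hTo' _ hxl,
        hTo _ a1, apply_inv_self', dist_self]
      exact ⟨hε, hε⟩

end Pool.Agent.W_MP_d1cfb0_an
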