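import Pool.Agent.W_MP_d1cfb0_an.Words

/-!
# Task A1: the cone formula

Proof. Let `Φ λ = ∫ z, U z i * φ (λ • z)`. `U` has compact support, so all integrals are over a fixed
compact set and `Φ` is differentiable with
`Φ' λ = ∫ z, U z i * fderiv ℝ φ (λ • z) z` (continuous in `λ`;
`hasDerivAt_integral_of_dominated_loc_of_deriv_le`). For each `λ` the function
`g z = z i * φ (λ • z)` is `C^1` and
`fderiv ℝ g z w = w i * φ (λ • z) + λ * z i * fderiv ℝ φ (λ • z) w`; so `hdiv g` says
`Φ λ + λ * ∫ z, z i * fderiv ℝ φ (λ • z) (U z) = 0`. Hence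
`(λ Φ λ)' = Φ λ + λ Φ' λ = λ * ∫ z, (U z i * fderiv ℝ φ (λ • z) z - z i * fderiv ℝ φ (λ • z) (U z))`,
and integrating over `[0, 1]` (`intervalIntegral.integral_eq_sub_of_hasDerivAt`) gives `Φ 1`.
-/

namespace Pool.Agent.W_MP_d1cfb0_an

open MeasureTheory

theorem cone_formula {n : ℕ} (U : E n → E n) (hU : Continuous U) (hc : HasCompactSupport U)
    (hdiv : WDiv U) (φ : E n → ℝ) (hφ : ContDiff ℝ 1 φ) (i : Fin n) :
    ∫ x, U x i * φ x = ∫ t in (0 : ℝ)..1, t * ∫ z, (U z i * fderiv ℝ φ (t • z) z -
      z i * fderiv ℝ φ (t • z) (U z)) := by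
  have hK : IsCompact (tsupport U) := hc
  have hU0 : ∀ z, z ∉ tsupport U → U z = 0 := fun z hz => image_eq_zero_of_notMem_tsupport hz
  have hφc : Continuous φ := hφ.continuous
  have hφ' : Continuous (fderiv ℝ φ) := hφ.continuous_fderiv one_ne_zero
  have hproj : Continuous fun z : E n => z i := (EuclideanSpace.proj (𝕜 := ℝ) i).continuous
  have hUi : Continuous fun z => U z i := hproj.comp hU
  have hint : ∀ f : E n → ℝ, Continuous f → (∀ z, z ∉ tsupport U → f z = 0) → Integrable f :=
    fun f hf h => hf.integrable_of_hasCompactSupport (HasCompactSupport.intro hK h)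
  -- the two integrands
  have hA : Continuous fun p : ℝ × E n => U p.2 i * fderiv ℝ φ (p.1 • p.2) p.2 :=
    (hUi.comp continuous_snd).mul
      ((hφ'.comp (continuous_fst.smul continuous_snd)).clm_apply continuous_snd)
  have hB : Continuous fun p : ℝ × E n => p.2 i * fderiv ℝ φ (p.1 • p.2) (U p.2) :=
    (hproj.comp continuous_snd).mul
      ((hφ'.comp (continuous_fst.smul continuous_snd)).clm_apply (hU.comp continuous_snd))
  have hAt : ∀ t : ℝ, Continuous fun z : E n => U z i * fderiv ℝ φ (t • z) z := fun t =>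
    hA.comp (Continuous.prodMk_right t)
  have hBt : ∀ t : ℝ, Continuous fun z : E n => z i * fderiv ℝ φ (t • z) (U z) := fun t =>
    hB.comp (Continuous.prodMk_right t)
  have hA0 : ∀ t : ℝ, ∀ z, z ∉ tsupport U → U z i * fderiv ℝ φ (t • z) z = 0 := by
    intro t z hz
    rw [hU0 z hz]
    simp
  have hB0 : ∀ t : ℝ, ∀ z, z ∉ tsupport U → z i * fderiv ℝ φ (t • z) (U z) = 0 := by
    intro t z hz
    rw [hU0 z hz]
    simp
  have hAi : ∀ t : ℝ, Integrable fun z : E n => U z i * fderiv ℝ φ (t • z) z := fun t =>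
    hint _ (hAt t) (hA0 t)
  have hBi : ∀ t : ℝ, Integrable fun z : E n => z i * fderiv ℝ φ (t • z) (U z) := fun t =>
    hint _ (hBt t) (hB0 t)
  have hCt : ∀ t : ℝ, Continuous fun z : E n => U z i * φ (t • z) := fun t =>
    hUi.mul (hφc.comp (continuous_const_smul t))
  have hCi : ∀ t : ℝ, Integrable fun z : E n => U z i * φ (t • z) := fun t =>
    hint _ (hCt t) (fun z hz => by rw [hU0 z hz]; simp)
  -- derivative under the integral sign
  have hder : ∀ t : ℝ, HasDerivAt (fun s : ℝ => ∫ z, U z i * φ (s • z))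
      (∫ z, U z i * fderiv ℝ φ (t • z) z) t := by
    intro t
    obtain ⟨C, hC⟩ := ((isCompact_closedBall t 1).prod hK).exists_bound_of_continuousOn
      hA.continuousOn
    have hbi : Integrable (Set.indicator (tsupport U) fun _ : E n => C) := by
      rw [integrable_indicator_iff (isClosed_tsupport U).measurableSet]
      exact integrableOn_const hK.measure_lt_top.ne
    refine (hasDerivAt_integral_of_dominated_loc_of_deriv_le (μ := volume)
      (F := fun (s : ℝ) (z : E n) => U z i * φ (s • z))
      (F' := fun (s : ℝ) (z : E n) => U z i * fderiv ℝ φ (s • z) z)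
      (bound := Set.indicator (tsupport U) fun _ : E n => C)
      (Metric.closedBall_mem_nhds t one_pos) ?_ (hCi t) (hAi t).aestronglyMeasurable ?_ hbi ?_).2
    · exact Filter.Eventually.of_forall fun s => (hCt s).aestronglyMeasurable
    · refine Filter.Eventually.of_forall fun z s hs => ?_
      by_cases hz : z ∈ tsupport U
      · rw [Set.indicator_of_mem hz]
        exact hC (s, z) ⟨hs, hz⟩
      · rw [Set.indicator_of_notMem hz]
        simp only
        rw [hA0 s z hz, norm_zero]
    · refine Filter.Eventually.of_forall fun z s _ => ?_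
      have h1 : HasDerivAt (fun r : ℝ => r • z) z s := by
        simpa using (hasDerivAt_id s).smul_const z
      have h2 : HasFDerivAt φ (fderiv ℝ φ (s • z)) (s • z) :=
        (hφ.differentiable one_ne_zero (s • z)).hasFDerivAt
      exact (h2.comp_hasDerivAt s h1).const_mul (U z i)
  -- the divergence identity
  have hdv : ∀ t : ℝ, (∫ z, U z i * φ (t • z)) + t * ∫ z, z i * fderiv ℝ φ (t • z) (U z) = 0 := by
    intro t
    have hlin : ContDiff ℝ 1 fun z : E n => t • z := contDiff_const_smul t
    have hg : ContDiff ℝ 1 fun z : E n => z i * φ (t • z) :=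
      ((EuclideanSpace.proj (𝕜 := ℝ) i).contDiff).mul (hφ.comp hlin)
    have h0 := hdiv _ hg
    have h1 : ∀ z : E n, fderiv ℝ (fun z : E n => z i * φ (t • z)) z (U z) =
        U z i * φ (t • z) + t * (z i * fderiv ℝ φ (t • z) (U z)) := by
      intro z
      have h2 : HasFDerivAt φ (fderiv ℝ φ (t • z)) (t • z) :=
        (hφ.differentiable one_ne_zero (t • z)).hasFDerivAt
      have h3 : HasFDerivAt (fun z : E n => t • z) (t • ContinuousLinearMap.id ℝ (E n)) z :=
        (hasFDerivAt_id z).const_smul t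
      have h4 : HasFDerivAt (fun z : E n => z i) (EuclideanSpace.proj (𝕜 := ℝ) i : E n →L[ℝ] ℝ) z :=
        (EuclideanSpace.proj (𝕜 := ℝ) i : E n →L[ℝ] ℝ).hasFDerivAt
      have h5 : HasFDerivAt (fun z : E n => z i * φ (t • z))
          (z i • (fderiv ℝ φ (t • z) ∘SL (t • ContinuousLinearMap.id ℝ (E n))) +
            φ (t • z) • (EuclideanSpace.proj (𝕜 := ℝ) i : E n →L[ℝ] ℝ)) z :=
        h4.mul (h2.comp z h3)
      have h6 : (EuclideanSpace.proj (𝕜 := ℝ) i : E n →L[ℝ] ℝ) (U z) = U z i := rfl
      rw [h5.fderiv]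
      simp only [add_apply, smul_apply,
        ContinuousLinearMap.comp_apply, ContinuousLinearMap.id_apply, smul_eq_mul, map_smul, h6]
      ring
    rw [integral_congr_ae (Filter.Eventually.of_forall h1), integral_add (hCi t)
      ((hBi t).const_mul t), integral_const_mul] at h0
    exact h0
  -- the derivative of `t ↦ t * Φ t`
  have hD : ∀ t : ℝ, HasDerivAt (fun s : ℝ => s * ∫ z, U z i * φ (s • z))
      (t * ∫ z, (U z i * fderiv ℝ φ (t • z) z - z i * fderiv ℝ φ (t • z) (U z))) t := by
    intro t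
    have h1 := (hasDerivAt_id t).mul (hder t)
    have h2 : t * ∫ z, (U z i * fderiv ℝ φ (t • z) z - z i * fderiv ℝ φ (t • z) (U z)) =
        1 * (∫ z, U z i * φ (t • z)) + id t * ∫ z, U z i * fderiv ℝ φ (t • z) z := by
      rw [integral_sub (hAi t) (hBi t)]
      have h3 := hdv t
      simp only [id]
      linear_combination -h3
    rw [h2]
    exact h1
  have hcont : Continuous fun t : ℝ =>
      t * ∫ z, (U z i * fderiv ℝ φ (t • z) z - z i * fderiv ℝ φ (t • z) (U z)) := by
    refine continuous_id.mul ?_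
    have h1 : (fun t : ℝ => ∫ z, (U z i * fderiv ℝ φ (t • z) z - z i * fderiv ℝ φ (t • z) (U z))) =
        fun t : ℝ => ∫ z in tsupport U, (U z i * fderiv ℝ φ (t • z) z -
          z i * fderiv ℝ φ (t • z) (U z)) := by
      funext t
      rw [setIntegral_eq_integral_of_forall_compl_eq_zero]
      intro z hz
      rw [hA0 t z hz, hB0 t z hz, sub_zero]
    rw [h1]
    exact continuous_parametric_integral_of_continuous (hA.sub hB) hK
  rw [intervalIntegral.integral_eq_sub_of_hasDerivAt (fun t _ => hD t)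
    (hcont.intervalIntegrable 0 1)]
  simp

end Pool.Agent.W_MP_d1cfb0_an
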