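import Mathlib

/-!
# Measure preserving homeomorphisms of the cube: basic definitions

Everything takes place in `E n = EuclideanSpace ℝ (Fin n)`; the open cube is centred at `0` and
has side `1`.
-/

namespace Pool.Agent.W_MP_d1cfb0_an

open MeasureTheory

/-- Euclidean space. -/
abbrev E (n : ℕ) : Type := EuclideanSpace ℝ (Fin n)

/-- The open cube `(-1/2, 1/2)^n`. -/
def O (n : ℕ) : Set (E n) := {x | ∀ i, |x i| < 1 / 2}

/-- The closed cube `[-ρ, ρ]^n`. -/
def Q (n : ℕ) (ρ : ℝ) : Set (E n) := {x | ∀ i, |x i| ≤ ρ}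

/-- The map `g` is the identity off `B`. -/
def SuppIn {X : Type*} [TopologicalSpace X] (g : X ≃ₜ X) (B : Set X) : Prop :=
  ∀ x, x ∉ B → g x = x

/-- A group of homeomorphisms of `E n` which are the identity off the open cube, closed for uniform
convergence of maps and their inverses. -/
structure ClosedGroup (n : ℕ) (H : Set (E n ≃ₜ E n)) : Prop where
  one_mem : 1 ∈ H
  mul_mem : ∀ g ∈ H, ∀ g' ∈ H, g * g' ∈ H
  inv_mem : ∀ g ∈ H, g⁻¹ ∈ H
  supp : ∀ g ∈ H, SuppIn g (O n)
  closed : ∀ h : E n ≃ₜ E n, SuppIn h (O n) →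
    (∀ ε : ℝ, 0 < ε → ∃ g ∈ H, ∀ x, dist (g x) (h x) < ε ∧ dist (g⁻¹ x) (h⁻¹ x) < ε) → h ∈ H

/-- Rotation by the angle `θ` in the coordinate plane `(i, j)`. -/
noncomputable def rot {n : ℕ} (i j : Fin n) (θ : ℝ) (x : E n) : E n :=
  WithLp.toLp 2 (fun k => if k = i then Real.cos θ * x i - Real.sin θ * x j
    else if k = j then Real.sin θ * x i + Real.cos θ * x j else x k)

/-- The infinitesimal rotation. -/
noncomputable def jrot {n : ℕ} (i j : Fin n) (x : E n) : E n :=
  WithLp.toLp 2 (fun k => if k = i then - x j else if k = j then x i else 0)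

section Rot

variable {n : ℕ} {i j : Fin n}

theorem rot_apply_i (i j : Fin n) (θ : ℝ) (x : E n) :
    rot i j θ x i = Real.cos θ * x i - Real.sin θ * x j := by
  simp [rot]

theorem rot_apply_j (hij : i ≠ j) (θ : ℝ) (x : E n) :
    rot i j θ x j = Real.sin θ * x i + Real.cos θ * x j := by
  simp [rot, hij.symm]

theorem rot_apply_of_ne {k : Fin n} (hi : k ≠ i) (hj : k ≠ j) (θ : ℝ) (x : E n) :
    rot i j θ x k = x k := by
  simp [rot, hi, hj]

theorem jrot_apply_i (i j : Fin n) (x : E n) : jrot i j x i = - x j := by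
  simp [jrot]

theorem jrot_apply_j (hij : i ≠ j) (x : E n) : jrot i j x j = x i := by
  simp [jrot, hij.symm]

theorem jrot_apply_of_ne {k : Fin n} (hi : k ≠ i) (hj : k ≠ j) (x : E n) :
    jrot i j x k = 0 := by
  simp [jrot, hi, hj]

theorem rot_zero (i j : Fin n) (x : E n) : rot i j 0 x = x := by
  ext k
  by_cases hi : k = i
  · subst hi
    simp [rot_apply_i]
  · by_cases hj : k = j
    · subst hj
      simp [rot, hi]
    · simp [rot, hi, hj]

theorem rot_rot (hij : i ≠ j) (θ θ' : ℝ) (x : E n) :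
    rot i j θ (rot i j θ' x) = rot i j (θ + θ') x := by
  ext k
  by_cases hi : k = i
  · subst hi
    rw [rot_apply_i, rot_apply_i, rot_apply_i, rot_apply_j hij, Real.cos_add, Real.sin_add]
    ring
  · by_cases hj : k = j
    · subst hj
      rw [rot_apply_j hij, rot_apply_j hij, rot_apply_i, rot_apply_j hij, Real.cos_add,
        Real.sin_add]
      ring
    · rw [rot_apply_of_ne hi hj, rot_apply_of_ne hi hj, rot_apply_of_ne hi hj]

theorem rot_add (i j : Fin n) (θ : ℝ) (x y : E n) :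
    rot i j θ (x + y) = rot i j θ x + rot i j θ y := by
  ext k
  simp only [rot, PiLp.add_apply]
  split_ifs <;> ring

theorem rot_sub (i j : Fin n) (θ : ℝ) (x y : E n) :
    rot i j θ (x - y) = rot i j θ x - rot i j θ y := by
  ext k
  simp only [rot, PiLp.sub_apply]
  split_ifs <;> ring

theorem rot_smul (i j : Fin n) (θ t : ℝ) (x : E n) :
    rot i j θ (t • x) = t • rot i j θ x := by
  ext k
  simp only [rot, PiLp.smul_apply, smul_eq_mul]
  split_ifs <;> ring

theorem jrot_add (i j : Fin n) (x y : E n) : jrot i j (x + y) = jrot i j x + jrot i j y := by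
  ext k
  simp only [jrot, PiLp.add_apply]
  split_ifs <;> ring

theorem jrot_sub (i j : Fin n) (x y : E n) : jrot i j (x - y) = jrot i j x - jrot i j y := by
  ext k
  simp only [jrot, PiLp.sub_apply]
  split_ifs <;> ring

theorem jrot_smul (i j : Fin n) (t : ℝ) (x : E n) : jrot i j (t • x) = t • jrot i j x := by
  ext k
  simp only [jrot, PiLp.smul_apply, smul_eq_mul]
  split_ifs <;> ring

/-- The sum of squares splits into the two coordinates `i`, `j` and the rest. -/
theorem norm_sq_split (hij : i ≠ j) (x : E n) :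
    ‖x‖ ^ 2 = x i ^ 2 + x j ^ 2 + ∑ k ∈ (Finset.univ.erase i).erase j, x k ^ 2 := by
  rw [EuclideanSpace.real_norm_sq_eq,
    ← Finset.add_sum_erase Finset.univ (fun k => x k ^ 2) (Finset.mem_univ i),
    ← Finset.add_sum_erase (Finset.univ.erase i) (fun k => x k ^ 2)
      (Finset.mem_erase.2 ⟨hij.symm, Finset.mem_univ j⟩)]
  ring

theorem norm_rot (hij : i ≠ j) (θ : ℝ) (x : E n) : ‖rot i j θ x‖ = ‖x‖ := by
  have h : ‖rot i j θ x‖ ^ 2 = ‖x‖ ^ 2 := by
    rw [norm_sq_split hij, norm_sq_split hij, rot_apply_i, rot_apply_j hij]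
    have h1 : ∑ k ∈ (Finset.univ.erase i).erase j, rot i j θ x k ^ 2 =
        ∑ k ∈ (Finset.univ.erase i).erase j, x k ^ 2 := by
      refine Finset.sum_congr rfl fun k hk => ?_
      rw [Finset.mem_erase, Finset.mem_erase] at hk
      rw [rot_apply_of_ne hk.2.1 hk.1]
    rw [h1]
    have h2 := Real.sin_sq_add_cos_sq θ
    linear_combination (x i ^ 2 + x j ^ 2) * h2
  exact (sq_eq_sq₀ (norm_nonneg _) (norm_nonneg _)).1 h

theorem norm_jrot_le (hij : i ≠ j) (x : E n) : ‖jrot i j x‖ ≤ ‖x‖ := by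
  have h : ‖jrot i j x‖ ^ 2 ≤ ‖x‖ ^ 2 := by
    rw [norm_sq_split hij, norm_sq_split hij, jrot_apply_i, jrot_apply_j hij]
    have h1 : ∑ k ∈ (Finset.univ.erase i).erase j, jrot i j x k ^ 2 = 0 := by
      refine Finset.sum_eq_zero fun k hk => ?_
      rw [Finset.mem_erase, Finset.mem_erase] at hk
      rw [jrot_apply_of_ne hk.2.1 hk.1]
      ring
    have h2 : 0 ≤ ∑ k ∈ (Finset.univ.erase i).erase j, x k ^ 2 :=
      Finset.sum_nonneg fun k _ => sq_nonneg _
    rw [h1]
    nlinarith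
  exact (sq_le_sq₀ (norm_nonneg _) (norm_nonneg _)).1 h

theorem continuous_rot (i j : Fin n) : Continuous fun p : ℝ × E n => rot i j p.1 p.2 := by
  unfold rot
  refine (PiLp.continuous_toLp 2 _).comp ?_
  refine continuous_pi fun k => ?_
  by_cases hi : k = i
  · simp only [if_pos hi]
    fun_prop
  · simp only [if_neg hi]
    by_cases hj : k = j
    · simp only [if_pos hj]
      fun_prop
    · simp only [if_neg hj]
      fun_prop

/-- `‖R_θ x - x‖ ≤ |θ| ‖x‖`. -/
theorem norm_rot_sub_le (hij : i ≠ j) (θ : ℝ) (x : E n) :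
    ‖rot i j θ x - x‖ ≤ |θ| * ‖x‖ := by
  have h : ‖rot i j θ x - x‖ ^ 2 ≤ (|θ| * ‖x‖) ^ 2 := by
    rw [mul_pow, sq_abs, norm_sq_split hij x, norm_sq_split hij]
    simp only [PiLp.sub_apply]
    rw [rot_apply_i, rot_apply_j hij]
    have h1 : ∑ k ∈ (Finset.univ.erase i).erase j, (rot i j θ x k - x k) ^ 2 = 0 := by
      refine Finset.sum_eq_zero fun k hk => ?_
      rw [Finset.mem_erase, Finset.mem_erase] at hk
      rw [rot_apply_of_ne hk.2.1 hk.1]
      ring
    have h2 : 0 ≤ ∑ k ∈ (Finset.univ.erase i).erase j, x k ^ 2 :=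
      Finset.sum_nonneg fun k _ => sq_nonneg _
    rw [h1]
    have h3 := Real.sin_sq_add_cos_sq θ
    have h4 : (Real.cos θ * x i - Real.sin θ * x j - x i) ^ 2 +
        (Real.sin θ * x i + Real.cos θ * x j - x j) ^ 2 =
        (2 - 2 * Real.cos θ) * (x i ^ 2 + x j ^ 2) := by
      linear_combination (x i ^ 2 + x j ^ 2) * h3
    have h5 : 2 - 2 * Real.cos θ ≤ θ ^ 2 := by
      have := Real.one_sub_sq_div_two_le_cos (x := θ)
      linarith
    have h6 : 0 ≤ x i ^ 2 + x j ^ 2 := by positivity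
    nlinarith [mul_le_mul_of_nonneg_right h5 h6, mul_nonneg (sq_nonneg θ) h2]
  exact (sq_le_sq₀ (norm_nonneg _) (by positivity)).1 h

theorem abs_sub_sin_le (θ : ℝ) : |θ - Real.sin θ| ≤ 2 * θ ^ 2 := by
  have key : ∀ t : ℝ, 0 ≤ t → |t - Real.sin t| ≤ 2 * t ^ 2 := by
    intro t ht
    rcases ht.eq_or_lt with h0 | h0
    · rw [← h0]
      simp
    · rcases le_or_gt t 1 with h1 | h1
      · have h2 := Real.sin_gt_sub_cube h0
        have h3 := Real.sin_lt h0
        rw [abs_le]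
        constructor
        · nlinarith [sq_nonneg t]
        · nlinarith [sq_nonneg t, mul_nonneg (sq_nonneg t) (sub_nonneg.2 h1)]
      · have h2 := Real.neg_one_le_sin t
        have h3 := Real.sin_le_one t
        rw [abs_le]
        constructor <;> nlinarith
  rcases le_total 0 θ with h | h
  · exact key θ h
  · have h1 := key (-θ) (by linarith)
    rw [Real.sin_neg] at h1
    rw [← abs_neg]
    have h2 : -(θ - Real.sin θ) = -θ - -Real.sin θ := by ring
    rw [h2]
    calc _ ≤ _ := h1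
      _ = _ := by ring

/-- `‖R_θ x - x - θ J x‖ ≤ 3 θ² ‖x‖`. -/
theorem norm_rot_sub_jrot_le (hij : i ≠ j) (θ : ℝ) (x : E n) :
    ‖rot i j θ x - x - θ • jrot i j x‖ ≤ 3 * θ ^ 2 * ‖x‖ := by
  have h : ‖rot i j θ x - x - θ • jrot i j x‖ ^ 2 ≤ (3 * θ ^ 2 * ‖x‖) ^ 2 := by
    rw [mul_pow, norm_sq_split hij x, norm_sq_split hij]
    simp only [PiLp.sub_apply, PiLp.smul_apply, smul_eq_mul]
    rw [rot_apply_i, rot_apply_j hij, jrot_apply_i, jrot_apply_j hij]
    have h1 : ∑ k ∈ (Finset.univ.erase i).erase j,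
        (rot i j θ x k - x k - θ * jrot i j x k) ^ 2 = 0 := by
      refine Finset.sum_eq_zero fun k hk => ?_
      rw [Finset.mem_erase, Finset.mem_erase] at hk
      rw [rot_apply_of_ne hk.2.1 hk.1, jrot_apply_of_ne hk.2.1 hk.1]
      ring
    have h2 : 0 ≤ ∑ k ∈ (Finset.univ.erase i).erase j, x k ^ 2 :=
      Finset.sum_nonneg fun k _ => sq_nonneg _
    rw [h1]
    have h4 : (Real.cos θ * x i - Real.sin θ * x j - x i - θ * -x j) ^ 2 +
        (Real.sin θ * x i + Real.cos θ * x j - x j - θ * x i) ^ 2 =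
        ((1 - Real.cos θ) ^ 2 + (θ - Real.sin θ) ^ 2) * (x i ^ 2 + x j ^ 2) := by
      ring
    have h5 : (1 - Real.cos θ) ^ 2 + (θ - Real.sin θ) ^ 2 ≤ (3 * θ ^ 2) ^ 2 := by
      have h7 := Real.one_sub_sq_div_two_le_cos (x := θ)
      have h8 := Real.cos_le_one θ
      have h9 : (1 - Real.cos θ) ^ 2 ≤ (θ ^ 2 / 2) ^ 2 :=
        pow_le_pow_left₀ (by linarith) (by linarith) 2
      have h10 : (θ - Real.sin θ) ^ 2 ≤ (2 * θ ^ 2) ^ 2 := by
        rw [← sq_abs (θ - Real.sin θ)]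
        exact pow_le_pow_left₀ (abs_nonneg _) (abs_sub_sin_le θ) 2
      nlinarith [sq_nonneg (θ ^ 2)]
    have h6 : 0 ≤ x i ^ 2 + x j ^ 2 := by positivity
    nlinarith [mul_le_mul_of_nonneg_right h5 h6, mul_nonneg (sq_nonneg (3 * θ ^ 2)) h2]
  exact (sq_le_sq₀ (norm_nonneg _) (by positivity)).1 h

end Rot

end Pool.Agent.W_MP_d1cfb0_an
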