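import Pool.Agent.W_MP_d1cfb0_an.Twist

/-!
# Task G5: a profile which is `2 π / P k` on rings accumulating at radius `1/2`

Proof. Choose distinct primes `P k ≥ 2 ^ (k + 3)` (recursively, or `P k = ` a prime between
`2 ^ (k+3)` and `2 ^ (k+4)`, `Nat.exists_prime_lt_and_le_two_mul`). Let `s k = 1/2 - 2 ^ (-(k+3))`,
`w k = 2 ^ (-(k+6))`. Let `a u = ∑' k, (2 π / P k) * max 0 (min 1 (2 - |u - s k| / w k))`. The `k`-th
term is continuous, bounded by `2 π / 2 ^ (k+3)` (so `a` is continuous: `continuous_tsum`), equal to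
`2 π / P k` on `[s k - w k, s k + w k]` and `0` off `(s k - 2 w k, s k + 2 w k)`; these intervals are
pairwise disjoint and contained in `(1/4, 1/2)`.
-/

namespace Pool.Agent.W_MP_d1cfb0_an

open Filter Topology

theorem exists_rings : ∃ (a : C(ℝ, ℝ)) (P : ℕ → ℕ) (s w : ℕ → ℝ),
    (∀ k, (P k).Prime) ∧ Function.Injective P ∧ (∀ k, 8 ≤ P k) ∧ Tendsto P atTop atTop ∧
    (∀ k, 0 < w k) ∧ (∀ k, 1 / 4 ≤ s k - w k) ∧ (∀ k, s k + w k < 1 / 2) ∧
    (∀ k l, k ≠ l → Disjoint (Set.Icc (s k - w k) (s k + w k)) (Set.Icc (s l - w l) (s l + w l))) ∧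
    Tendsto s atTop (𝓝 (1 / 2)) ∧ Tendsto w atTop (𝓝 0) ∧
    (∀ k, ∀ u ∈ Set.Icc (s k - w k) (s k + w k), a u = 2 * Real.pi / P k) ∧
    ∀ u, 1 / 2 ≤ u → a u = 0 := by
  have hP : ∀ k : ℕ, ∃ p, Nat.Prime p ∧ 2 ^ (k + 3) < p ∧ p ≤ 2 * 2 ^ (k + 3) := fun k =>
    Nat.exists_prime_lt_and_le_two_mul _ (by positivity)
  choose P hPp hPl hPu using hP
  have hmono : StrictMono P := by
    refine strictMono_nat_of_lt_succ fun k => ?_
    have h1 := hPu k
    have h2 := hPl (k + 1)
    have h3 : 2 ^ (k + 1 + 3) = 2 * 2 ^ (k + 3) := by ring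
    omega
  have hP8 : ∀ k, 8 ≤ P k := by
    intro k
    have h1 : (2 : ℕ) ^ 3 ≤ 2 ^ (k + 3) := Nat.pow_le_pow_right (by norm_num) (by omega)
    have h2 := hPl k
    omega
  set r : ℕ → ℝ := fun k => (1 / 2 : ℝ) ^ k with hr
  have hr0 : ∀ k, 0 < r k := fun k => by simp only [hr]; positivity
  have hr1 : ∀ k, r k ≤ 1 := fun k => pow_le_one₀ (by norm_num) (by norm_num)
  have hrlt : ∀ k l, k < l → r l ≤ r k / 2 := by
    intro k l h
    have : r l ≤ r (k + 1) := pow_le_pow_of_le_one (by norm_num) (by norm_num) h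
    have h2 : r (k + 1) = r k / 2 := by simp only [hr]; ring
    linarith
  have hrt : Tendsto r atTop (𝓝 0) :=
    tendsto_pow_atTop_nhds_zero_of_lt_one (by norm_num) (by norm_num)
  -- distances between the centres and the doubled rings
  have hfar : ∀ k l, k ≠ l → ∀ u, |u - (1 / 2 - r k / 8)| ≤ r k / 64 →
      2 * (r l / 64) < |u - (1 / 2 - r l / 8)| := by
    intro k l hkl u hu
    rw [abs_le] at hu
    have hk := hr0 k
    have hl := hr0 l
    rcases Nat.lt_or_gt_of_ne hkl with h | h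
    · have := hrlt k l h
      rw [lt_abs]
      right
      linarith [hu.2]
    · have := hrlt l k h
      rw [lt_abs]
      left
      linarith [hu.1]
  let f : ℕ → ℝ → ℝ := fun k u =>
    (2 * Real.pi / P k) * max 0 (min 1 (2 - |u - (1 / 2 - r k / 8)| / (r k / 64)))
  have hfc : ∀ k, Continuous (f k) := by
    intro k
    have : (r k / 64) ≠ 0 := by have := hr0 k; positivity
    fun_prop
  have hPr : ∀ k, 2 * Real.pi / P k ≤ 2 * Real.pi * r k := by
    intro k
    have h0 : (2 : ℝ) ^ k ≤ P k := by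
      have h1 : 2 ^ k ≤ P k :=
        (Nat.pow_le_pow_right (by norm_num) (by omega : k ≤ k + 3)).trans (hPl k).le
      exact_mod_cast h1
    have h2 : r k = 1 / 2 ^ k := by simp [hr]
    rw [h2, mul_one_div]
    exact div_le_div_of_nonneg_left (by positivity) (by positivity) h0
  have hfb : ∀ k u, ‖f k u‖ ≤ 2 * Real.pi * r k := by
    intro k u
    have h0 : (0 : ℝ) ≤ max 0 (min 1 (2 - |u - (1 / 2 - r k / 8)| / (r k / 64))) := le_max_left _ _
    have h1 : max 0 (min 1 (2 - |u - (1 / 2 - r k / 8)| / (r k / 64))) ≤ (1 : ℝ) :=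
      max_le zero_le_one (min_le_left _ _)
    have h2 : 0 ≤ 2 * Real.pi / P k := by positivity
    rw [Real.norm_eq_abs, abs_of_nonneg (mul_nonneg h2 h0)]
    calc _ ≤ 2 * Real.pi / P k * 1 := by gcongr
      _ ≤ _ := by rw [mul_one]; exact hPr k
  have hsum : Summable fun k => 2 * Real.pi * r k :=
    (summable_geometric_of_lt_one (by norm_num) (by norm_num)).mul_left _
  have hcont : Continuous fun u => ∑' k, f k u := continuous_tsum hfc hsum hfb
  have hf0 : ∀ k u, 2 * (r k / 64) ≤ |u - (1 / 2 - r k / 8)| → f k u = 0 := by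
    intro k u h
    have hk := hr0 k
    have h1 : 2 ≤ |u - (1 / 2 - r k / 8)| / (r k / 64) := by
      rw [le_div_iff₀ (by positivity)]; exact h
    have h2 : min 1 (2 - |u - (1 / 2 - r k / 8)| / (r k / 64)) ≤ 0 :=
      (min_le_right _ _).trans (by linarith)
    simp only [f]
    rw [max_eq_left h2, mul_zero]
  refine ⟨⟨fun u => ∑' k, f k u, hcont⟩, P, fun k => 1 / 2 - r k / 8, fun k => r k / 64, hPp,
    hmono.injective, hP8, hmono.tendsto_atTop, ?_, ?_, ?_, ?_, ?_, ?_, ?_, ?_⟩
  · intro k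
    have := hr0 k
    positivity
  · intro k
    have := hr1 k
    simp only
    linarith
  · intro k
    have := hr0 k
    simp only
    linarith
  · intro k l hkl
    rw [Set.disjoint_left]
    intro u hu hu'
    have h1 : |u - (1 / 2 - r k / 8)| ≤ r k / 64 := by
      rw [abs_le]; constructor <;> linarith [hu.1, hu.2]
    have h2 : |u - (1 / 2 - r l / 8)| ≤ r l / 64 := by
      rw [abs_le]; constructor <;> linarith [hu'.1, hu'.2]
    have h3 := hfar k l hkl u h1
    have := hr0 l
    linarith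
  · have := (hrt.div_const 8).const_sub (1 / 2)
    simpa using this
  · have := hrt.div_const 64
    simpa using this
  · intro k u hu
    have h1 : |u - (1 / 2 - r k / 8)| ≤ r k / 64 := by
      rw [abs_le]; constructor <;> linarith [hu.1, hu.2]
    have hk := hr0 k
    show ∑' k, f k u = _
    rw [tsum_eq_single k]
    · have h2 : |u - (1 / 2 - r k / 8)| / (r k / 64) ≤ 1 := by
        rw [div_le_one (by positivity)]; exact h1
      simp only [f]
      rw [min_eq_left (by linarith), max_eq_right zero_le_one, mul_one]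
    · intro l hl
      exact hf0 l u (hfar k l (Ne.symm hl) u h1).le
  · intro u hu
    show ∑' k, f k u = 0
    have : ∀ k, f k u = 0 := by
      intro k
      have hk := hr0 k
      refine hf0 k u ?_
      rw [abs_of_nonneg (by linarith)]
      linarith
    simp [this]

end Pool.Agent.W_MP_d1cfb0_an
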