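import Pool.Agent.W_MP_d1cfb0_an.TwistMP
import Pool.Agent.W_MP_d1cfb0_an.Rings
import Pool.Agent.W_MP_d1cfb0_an.CommMem

/-!
# Task G8: small twists at all scales from finitely many homeomorphisms

Let `a, P, s, w` be as in `exists_rings` and `S = twist h01 0 a` (plane of the coordinates `0, 1`,
centre `0`); `S` is the identity off the open ball of radius `1/2`, hence off `O n`
(if `x ∉ O n` then `‖x‖ ≥ 1/2`). Let `R k = {x | s k - w k ≤ ‖x‖ ≤ s k + w k}`; on `R k`, `S` is
`rot 0 1 (2 π / P k)`, so `S ^ m` is `rot 0 1 (m * (2 π / P k))` (`rot_rot`, the norm is preserved);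
`S ^ P k = id` on `R k`. Let `m k = P k / 8` (natural division, `≥ 1`), `p' k = s k • e_0`
(`→ zst n`) and `p k = rot 0 1 (-(m k) * (2 π / P k)) (p' k)`, so `S ^ m k (p k) = p' k` and
`p k → rot 0 1 (-π/4) (zst n) =: pinf` (as `(P k / 8 : ℕ) / P k → 1/8`), with coordinates
`(1/(2√2), -1/(2√2), 0, …)`, in `O n`. Let `ε k = w k`. The ball `closedBall (p k) (ε k)` is
contained in `R k` (as `‖p k‖ = s k`), the same for `p' k`. `IsFam p ε`: the rings are pairwise
disjoint and contained in the ball of radius `1/2`, `w k → 0`.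
Given `H`, `Φ`: `comm_mem` with `T = Φ τ`, `t l = twist hij (p l) (prof bump (ε l) τ)`,
`B l = closedBall (p l) (ε l)`, `e l = |τ| ε l` (`dist_twist_prof_le`), `k`, `m0 = m k` gives
`t k * y ∈ H`, `y = S ^ m k * (t k)⁻¹ * (S ^ m k)⁻¹`, and `y` is supported in the image of
`closedBall (p k) (ε k)` under `S ^ m k` (`SuppIn.conj`), which is contained in
`closedBall (p' k) (ε k)` since `S ^ m k` is isometric on `R k`.
-/

namespace Pool.Agent.W_MP_d1cfb0_an

open MeasureTheory Filter Topology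

section EncodeAux

variable {n : ℕ}

/-- the first basis vector -/
noncomputable def e0 (n : ℕ) : E n :=
  WithLp.toLp 2 (fun k => if (k : ℕ) = 0 then 1 else 0)

theorem e0_apply (k : Fin n) : e0 n k = if (k : ℕ) = 0 then 1 else 0 := rfl

theorem zst_apply (k : Fin n) : zst n k = if (k : ℕ) = 0 then 1 / 2 else 0 := rfl

theorem zst_eq (n : ℕ) : zst n = (1 / 2 : ℝ) • e0 n := by
  ext k
  rw [PiLp.smul_apply, zst_apply, e0_apply]
  split_ifs <;> simp

theorem norm_e0 (hn : 2 ≤ n) : ‖e0 n‖ = 1 := by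
  have h : ‖e0 n‖ ^ 2 = 1 := by
    rw [EuclideanSpace.real_norm_sq_eq, Finset.sum_eq_single (⟨0, by omega⟩ : Fin n)]
    · rw [e0_apply]; simp
    · intro b _ hb
      rw [e0_apply, if_neg]
      · ring
      · intro h0
        exact hb (Fin.ext h0)
    · intro h0
      exact absurd (Finset.mem_univ _) h0
  nlinarith [norm_nonneg (e0 n)]

theorem abs_apply_le_norm (x : E n) (i : Fin n) : |x i| ≤ ‖x‖ := by
  have := PiLp.norm_apply_le x i
  rwa [Real.norm_eq_abs] at this

theorem mem_O_of_norm_lt {x : E n} (hx : ‖x‖ < 1 / 2) : x ∈ O n :=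
  fun i => (abs_apply_le_norm x i).trans_lt hx

theorem rot_two_pi {i j : Fin n} (x : E n) : rot i j (2 * Real.pi) x = x := by
  ext k
  simp only [rot, Real.cos_two_pi, Real.sin_two_pi]
  split_ifs with h1 h2
  · rw [h1]; ring
  · rw [h2]; ring
  · rfl

/-- powers of a twist about `0` on a ring where the profile is constant -/
theorem twist_pow_apply {i j : Fin n} (hij : i ≠ j) (a : C(ℝ, ℝ)) {l u θ : ℝ}
    (ha : ∀ v ∈ Set.Icc l u, a v = θ) (m : ℕ) (x : E n) (hx : ‖x‖ ∈ Set.Icc l u) :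
    (twist hij 0 a ^ m) x = rot i j (m * θ) x := by
  induction m with
  | zero =>
    rw [pow_zero, one_apply', Nat.cast_zero, zero_mul, rot_zero]
  | succ m ih =>
    rw [pow_succ', mul_apply', ih, twist_apply, sub_zero, zero_add, norm_rot hij, ha _ hx,
      rot_rot hij]
    congr 1
    push_cast
    ring

end EncodeAux

theorem tendsto_div_eight {P : ℕ → ℕ} (hP : Tendsto P atTop atTop) :
    Tendsto (fun k => -((P k / 8 : ℕ) : ℝ) * (2 * Real.pi / P k)) atTop (𝓝 (-(Real.pi / 4))) := by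
  have h1 : Tendsto (fun k => (P k : ℝ)) atTop atTop := tendsto_natCast_atTop_atTop.comp hP
  have h2 : Tendsto (fun k => ((P k % 8 : ℕ) : ℝ) / P k) atTop (𝓝 0) := by
    have h3 : Tendsto (fun k => (8 : ℝ) / P k) atTop (𝓝 0) := h1.const_div_atTop 8
    refine squeeze_zero (fun k => by positivity) (fun k => ?_) h3
    have h4 : ((P k % 8 : ℕ) : ℝ) ≤ 8 := by
      exact_mod_cast (Nat.mod_lt _ (by norm_num)).le
    exact div_le_div_of_nonneg_right h4 (by positivity)
  have h5 : Tendsto (fun k => -(Real.pi / 4) * (1 - ((P k % 8 : ℕ) : ℝ) / P k)) atTop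
      (𝓝 (-(Real.pi / 4) * (1 - 0))) := (tendsto_const_nhds.sub h2).const_mul _
  rw [sub_zero, mul_one] at h5
  refine h5.congr' ?_
  filter_upwards [hP.eventually_ge_atTop 1] with k hk
  have hk' : (P k : ℝ) ≠ 0 := by
    have : 0 < P k := hk
    positivity
  have h6 : (P k : ℝ) = 8 * ((P k / 8 : ℕ) : ℝ) + ((P k % 8 : ℕ) : ℝ) := by
    exact_mod_cast (Nat.div_add_mod (P k) 8).symm
  have h7 : ((P k % 8 : ℕ) : ℝ) = (P k : ℝ) - 8 * ((P k / 8 : ℕ) : ℝ) := by linarith
  rw [h7]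
  field_simp
  ring

theorem exists_encode {n : ℕ} (hn : 2 ≤ n) :
    ∃ (S : E n ≃ₜ E n) (p p' : ℕ → E n) (ε : ℕ → ℝ) (pinf : E n),
      MeasurePreserving S volume volume ∧ SuppIn S (O n) ∧ pinf ∈ O n ∧
      Tendsto p atTop (𝓝 pinf) ∧ Tendsto p' atTop (𝓝 (zst n)) ∧ Tendsto ε atTop (𝓝 0) ∧
      IsFam p ε ∧
      ∀ H : Set (E n ≃ₜ E n), ClosedGroup n H → S ∈ H →
        ∀ (i j : Fin n) (hij : i ≠ j) (Φ : ℝ → (E n ≃ₜ E n)), TwistFlow hij bump p ε Φ →
          (∀ τ, Φ τ ∈ H) → ∀ k τ, ∃ y : E n ≃ₜ E n,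
            SuppIn y (Metric.closedBall (p' k) (ε k)) ∧
            twist hij (p k) (prof bump (ε k) τ) * y ∈ H := by
  obtain ⟨a, P, s, w, hP, hinj, hP8, hPt, hw, hs1, hs2, hdisj, hst, hwt, ha, ha0⟩ := exists_rings
  let i0 : Fin n := ⟨0, by omega⟩
  let i1 : Fin n := ⟨1, by omega⟩
  have h01 : i0 ≠ i1 := by
    intro h
    have := congrArg Fin.val h
    simp [i0, i1] at this
  let S : E n ≃ₜ E n := twist h01 0 a
  have hS : ∀ x, S x = rot i0 i1 (a ‖x‖) x := by
    intro x
    change twist h01 0 a x = _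
    rw [twist_apply, sub_zero, zero_add]
  have hSn : ∀ x, ‖S x‖ = ‖x‖ := by
    intro x
    rw [hS, norm_rot h01]
  let R : ℕ → Set (E n) := fun k => {x | ‖x‖ ∈ Set.Icc (s k - w k) (s k + w k)}
  have hSR : ∀ l x, S x ∈ R l ↔ x ∈ R l := by
    intro l x
    change ‖S x‖ ∈ Set.Icc (s l - w l) (s l + w l) ↔ ‖x‖ ∈ Set.Icc (s l - w l) (s l + w l)
    rw [hSn]
  have hSrot : ∀ l, ∀ x ∈ R l, ∀ m : ℕ, (S ^ m) x = rot i0 i1 (m * (2 * Real.pi / P l)) x :=
    fun l x hx m => twist_pow_apply h01 a (ha l) m x hx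
  have hSrot1 : ∀ l, ∀ x ∈ R l, S x = rot i0 i1 (2 * Real.pi / P l) x := by
    intro l x hx
    rw [hS, ha l _ hx]
  have hPpos : ∀ k, (P k : ℝ) ≠ 0 := by
    intro k
    have := hP8 k
    positivity
  let p' : ℕ → E n := fun k => s k • e0 n
  let p : ℕ → E n := fun k => rot i0 i1 (-((P k / 8 : ℕ) : ℝ) * (2 * Real.pi / P k)) (p' k)
  have hpdef : ∀ k, p k = rot i0 i1 (-((P k / 8 : ℕ) : ℝ) * (2 * Real.pi / P k)) (p' k) :=
    fun k => rfl
  have hspos : ∀ k, 0 < s k := by
    intro k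
    have h1 := hs1 k
    have h2 := hw k
    linarith
  have hp' : ∀ k, ‖p' k‖ = s k := by
    intro k
    change ‖s k • e0 n‖ = s k
    rw [norm_smul, norm_e0 hn, mul_one, Real.norm_of_nonneg (hspos k).le]
  have hp : ∀ k, ‖p k‖ = s k := by
    intro k
    change ‖rot i0 i1 _ (p' k)‖ = s k
    rw [norm_rot h01, hp']
  have hBR : ∀ l, Metric.closedBall (p l) (w l) ⊆ R l := by
    intro l x hx
    rw [Metric.mem_closedBall, dist_eq_norm] at hx
    have h1 := abs_norm_sub_norm_le x (p l)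
    rw [hp] at h1
    have h2 := abs_le.1 (h1.trans hx)
    exact ⟨by linarith [h2.1], by linarith [h2.2]⟩
  have hRR : ∀ k l, k ≠ l → Disjoint (R k) (R l) := by
    intro k l hkl
    rw [Set.disjoint_left]
    intro x hx hx'
    exact Set.disjoint_left.1 (hdisj k l hkl) hx hx'
  have hRO : ∀ l, R l ⊆ O n := by
    intro l x hx
    exact mem_O_of_norm_lt (hx.2.trans_lt (hs2 l))
  have hfam : IsFam p w := by
    refine ⟨hw, fun q q' hqq => (hRR q q' hqq).mono (hBR q) (hBR q'),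
      fun q => (hBR q).trans (hRO q), fun ε hε => ?_⟩
    have h1 : ∀ᶠ q in atTop, w q < ε := hwt.eventually (gt_mem_nhds hε)
    rw [eventually_atTop] at h1
    obtain ⟨N, hN⟩ := h1
    refine (Set.finite_lt_nat N).subset fun q hq => ?_
    by_contra hc
    exact absurd (hN q (not_lt.1 hc)) (not_lt.2 hq)
  have hp't : Tendsto p' atTop (𝓝 (zst n)) := by
    rw [zst_eq]
    exact hst.smul_const _
  refine ⟨S, p, p', w, rot i0 i1 (-(Real.pi / 4)) (zst n), measurePreserving_twist h01 0 a, ?_, ?_,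
    ?_, hp't, hwt, hfam, ?_⟩
  · intro x hx
    have h1 : ∃ i, ¬ |x i| < 1 / 2 := by
      by_contra hc
      push Not at hc
      exact hx hc
    obtain ⟨i, hi⟩ := h1
    have h2 : 1 / 2 ≤ ‖x‖ := (not_lt.1 hi).trans (abs_apply_le_norm x i)
    rw [hS, ha0 _ h2, rot_zero]
  · intro k
    by_cases h0 : k = i0
    · rw [h0, rot_apply_i, zst_apply, zst_apply, Real.cos_neg, Real.sin_neg, Real.cos_pi_div_four,
        if_pos rfl, if_neg (by simp [i1]), mul_zero, sub_zero]
      have h2 : Real.sqrt 2 < 2 := by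
        rw [Real.sqrt_lt' (by norm_num)]; norm_num
      have h3 := Real.sqrt_nonneg 2
      rw [abs_of_nonneg (by positivity)]
      linarith
    · by_cases h1 : k = i1
      · rw [h1, rot_apply_j h01, zst_apply, zst_apply, Real.cos_neg, Real.sin_neg,
          Real.sin_pi_div_four, if_pos rfl, if_neg (by simp [i1]), mul_zero, add_zero]
        have h2 : Real.sqrt 2 < 2 := by
          rw [Real.sqrt_lt' (by norm_num)]; norm_num
        have h3 := Real.sqrt_nonneg 2
        rw [neg_mul, abs_neg, abs_of_nonneg (by positivity)]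
        linarith
      · rw [rot_apply_of_ne h0 h1, zst_apply, if_neg]
        · norm_num
        · intro h2
          exact h0 (Fin.ext h2)
  · have h1 : Tendsto (fun k => (-((P k / 8 : ℕ) : ℝ) * (2 * Real.pi / P k), p' k)) atTop
        (𝓝 (-(Real.pi / 4), zst n)) := (tendsto_div_eight hPt).prodMk_nhds hp't
    have h2 := ((continuous_rot i0 i1).tendsto (-(Real.pi / 4), zst n)).comp h1
    exact h2.congr (fun k => (hpdef k).symm)
  · intro H hH hSH i j hij Φ hΦ hΦH k τ
    let t : ℕ → (E n ≃ₜ E n) := fun l => twist hij (p l) (prof bump (w l) τ)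
    have ht : ∀ l, SuppIn (t l) (Metric.closedBall (p l) (w l)) :=
      fun l => suppIn_twist_prof hij (p l) isShape_bump (hw l) τ
    have key := comm_mem hH S (Φ τ) hSH (hΦH τ) t R (fun l => Metric.closedBall (p l) (w l)) P
      (fun l => |τ| * w l) hP hinj hBR hRR hSR
      (by
        intro l x hx y hy
        rw [hSrot1 l x hx, hSrot1 l y hy, dist_eq_norm, ← rot_sub, norm_rot h01, dist_eq_norm])
      (by
        intro l x hx
        rw [hSrot l x hx (P l), mul_div_cancel₀ _ (hPpos l), rot_two_pi])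
      ht (fun l => (ht l).mono (hfam.sub l)) (fun l x hx => hΦ.inside τ l x hx)
      (fun x hx => hΦ.outside τ x hx)
      (fun l x => dist_twist_prof_le hij (p l) isShape_bump (hw l) τ x)
      (by simpa using hwt.const_mul |τ|) k (P k / 8)
    refine ⟨S ^ (P k / 8) * (t k)⁻¹ * (S ^ (P k / 8))⁻¹, ?_, key⟩
    refine ((ht k).inv.conj (S ^ (P k / 8))).mono ?_
    rintro _ ⟨x, hx, rfl⟩
    have hxR := hBR k hx
    rw [Metric.mem_closedBall, dist_eq_norm] at hx ⊢
    rw [hSrot k x hxR]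
    have h1 : p' k = rot i0 i1 (((P k / 8 : ℕ) : ℝ) * (2 * Real.pi / P k)) (p k) := by
      rw [hpdef k, rot_rot h01, neg_mul, add_neg_cancel, rot_zero]
    rw [h1, ← rot_sub, norm_rot h01]
    exact hx

end Pool.Agent.W_MP_d1cfb0_an
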