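import Pool.Agent.W_MP_d1cfb0_an.Twist

/-!
# Task G2: infinite products of homeomorphisms with disjoint supports

Proof. `P x = t q x` if `x ∈ B q` (at most one `q`), `P x = x` otherwise. Let `P'` be the same
construction for the inverses `(t q)⁻¹`; as `t q` maps `B q` onto itself (`SuppIn.mem_iff`), `P` and
`P'` are inverse to each other. `P` is continuous: for a finite set `F` of indices let `P_F` be the
same construction with `q ∈ F` only; `P_F` is continuous by induction on `F`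
(`P_{insert q F} = P_F ∘ t q`, as the supports are disjoint), and for `ε > 0` and the finite set
`F = {q | ∃ x, ε ≤ dist (t q x) x}` we have `dist (P x) (P_F x) < ε` for all `x`; so `P` is a uniform
limit of continuous maps (`Metric.tendstoUniformly...`, or an `ε/3` argument). The same for `P'`
(`dist ((t q)⁻¹ x) x = dist y (t q y)` with `y = (t q)⁻¹ x`).
Measure: for measurable `A`, `P ⁻¹' A` is the disjoint union of `A \ ⋃ B q` and of the sets
`(t q) ⁻¹' (A ∩ B q)`, so `volume (P ⁻¹' A) = volume (A \ ⋃ B q) + ∑ volume (A ∩ B q) = volume A`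
(countable additivity, `measure_iUnion`).
-/

namespace Pool.Agent.W_MP_d1cfb0_an

open MeasureTheory

open Classical in
/-- the glued map -/
noncomputable def iprodFun {n : ℕ} {ι : Type} (t : ι → (E n ≃ₜ E n)) (B : ι → Set (E n))
    (x : E n) : E n :=
  if h : ∃ q, x ∈ B q then t h.choose x else x

theorem iprodFun_of_mem {n : ℕ} {ι : Type} {t : ι → (E n ≃ₜ E n)} {B : ι → Set (E n)}
    (hd : ∀ q q', q ≠ q' → Disjoint (B q) (B q')) {q : ι} {x : E n} (hx : x ∈ B q) :
    iprodFun t B x = t q x := by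
  have h : ∃ q, x ∈ B q := ⟨q, hx⟩
  have h1 : h.choose = q := by
    by_contra hne
    exact Set.disjoint_left.1 (hd _ _ hne) h.choose_spec hx
  rw [iprodFun, dif_pos h, h1]

theorem iprodFun_of_notMem {n : ℕ} {ι : Type} {t : ι → (E n ≃ₜ E n)} {B : ι → Set (E n)}
    {x : E n} (hx : ∀ q, x ∉ B q) : iprodFun t B x = x := by
  have h : ¬ ∃ q, x ∈ B q := fun ⟨q, hq⟩ => hx q hq
  rw [iprodFun, dif_neg h]

theorem iprod_finite {n : ℕ} {ι : Type} {t : ι → (E n ≃ₜ E n)} {B : ι → Set (E n)}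
    (hd : ∀ q q', q ≠ q' → Disjoint (B q) (B q'))
    (ht : ∀ q, SuppIn (t q) (B q)) (F : Finset ι) :
    ∃ g : E n → E n, Continuous g ∧ (∀ q ∈ F, ∀ x ∈ B q, g x = t q x) ∧
      ∀ x, (∀ q ∈ F, x ∉ B q) → g x = x := by
  classical
  induction F using Finset.induction_on with
  | empty => exact ⟨id, continuous_id, by simp, fun x _ => rfl⟩
  | insert q F hq ih =>
    obtain ⟨g, hg, hg1, hg2⟩ := ih
    refine ⟨fun x => g (t q x), hg.comp (t q).continuous, ?_, ?_⟩
    · intro q' hq' x hx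
      rcases Finset.mem_insert.1 hq' with h | h
      · subst h
        refine hg2 _ fun q'' hq'' hmem => ?_
        have hne : q'' ≠ q' := fun h => hq (h ▸ hq'')
        exact Set.disjoint_left.1 (hd _ _ hne) hmem ((ht q').mem_of_mem hx)
      · have hne : q' ≠ q := fun h' => hq (h' ▸ h)
        have hxq : x ∉ B q := fun h' => Set.disjoint_left.1 (hd _ _ hne) hx h'
        show g (t q x) = t q' x
        rw [ht q x hxq]
        exact hg1 q' h x hx
    · intro x hx
      have h1 : x ∉ B q := hx q (Finset.mem_insert_self _ _)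
      show g (t q x) = x
      rw [ht q x h1]
      exact hg2 x fun q' hq' => hx q' (Finset.mem_insert_of_mem hq')

theorem iprod_continuous {n : ℕ} {ι : Type} {t : ι → (E n ≃ₜ E n)} {B : ι → Set (E n)}
    (hd : ∀ q q', q ≠ q' → Disjoint (B q) (B q'))
    (ht : ∀ q, SuppIn (t q) (B q))
    (hs : ∀ ε : ℝ, 0 < ε → {q | ∃ x, ε ≤ dist (t q x) x}.Finite) :
    Continuous (iprodFun t B) := by
  refine continuous_of_uniform_approx_of_continuous fun u hu => ?_
  obtain ⟨ε, hε, hεu⟩ := Metric.mem_uniformity_dist.1 hu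
  obtain ⟨g, hg, hg1, hg2⟩ := iprod_finite hd ht (hs ε hε).toFinset
  refine ⟨g, hg, fun x => hεu ?_⟩
  by_cases h : ∃ q, x ∈ B q
  · obtain ⟨q, hq⟩ := h
    rw [iprodFun_of_mem hd hq]
    by_cases hqF : q ∈ (hs ε hε).toFinset
    · rw [hg1 q hqF x hq, dist_self]
      exact hε
    · rw [hg2 x ?_]
      · by_contra hc
        refine hqF ?_
        rw [Set.Finite.mem_toFinset]
        exact ⟨x, not_lt.1 hc⟩
      · intro q' hq' hmem
        have hne : q' ≠ q := fun h' => hqF (h' ▸ hq')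
        exact Set.disjoint_left.1 (hd _ _ hne) hmem hq
  · have h' : ∀ q, x ∉ B q := fun q hq => h ⟨q, hq⟩
    rw [iprodFun_of_notMem h', hg2 x fun q _ => h' q, dist_self]
    exact hε

theorem iprod_inv_small {n : ℕ} {ι : Type} {t : ι → (E n ≃ₜ E n)}
    (hs : ∀ ε : ℝ, 0 < ε → {q | ∃ x, ε ≤ dist (t q x) x}.Finite) :
    ∀ ε : ℝ, 0 < ε → {q | ∃ x, ε ≤ dist ((t q)⁻¹ x) x}.Finite := by
  intro ε hε
  refine (hs ε hε).subset ?_
  rintro q ⟨x, hx⟩
  refine ⟨(t q)⁻¹ x, ?_⟩
  rw [apply_inv_self', dist_comm]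
  exact hx

theorem iprod_left_inv {n : ℕ} {ι : Type} {t : ι → (E n ≃ₜ E n)} {B : ι → Set (E n)}
    (hd : ∀ q q', q ≠ q' → Disjoint (B q) (B q'))
    (ht : ∀ q, SuppIn (t q) (B q)) (x : E n) :
    iprodFun (fun q => (t q)⁻¹) B (iprodFun t B x) = x := by
  by_cases h : ∃ q, x ∈ B q
  · obtain ⟨q, hq⟩ := h
    rw [iprodFun_of_mem hd hq, iprodFun_of_mem hd ((ht q).mem_of_mem hq)]
    exact inv_apply_self' _ _
  · have h' : ∀ q, x ∉ B q := fun q hq => h ⟨q, hq⟩
    rw [iprodFun_of_notMem h', iprodFun_of_notMem h']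

theorem iprod_right_inv {n : ℕ} {ι : Type} {t : ι → (E n ≃ₜ E n)} {B : ι → Set (E n)}
    (hd : ∀ q q', q ≠ q' → Disjoint (B q) (B q'))
    (ht : ∀ q, SuppIn (t q) (B q)) (x : E n) :
    iprodFun t B (iprodFun (fun q => (t q)⁻¹) B x) = x := by
  by_cases h : ∃ q, x ∈ B q
  · obtain ⟨q, hq⟩ := h
    rw [iprodFun_of_mem hd hq]
    show iprodFun t B ((t q)⁻¹ x) = x
    rw [iprodFun_of_mem hd ((ht q).inv.mem_of_mem hq)]
    exact apply_inv_self' _ _
  · have h' : ∀ q, x ∉ B q := fun q hq => h ⟨q, hq⟩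
    rw [iprodFun_of_notMem (t := fun q => (t q)⁻¹) h', iprodFun_of_notMem h']

theorem exists_iprod {n : ℕ} {ι : Type} [Countable ι] (t : ι → (E n ≃ₜ E n)) (B : ι → Set (E n))
    (hm : ∀ q, MeasurableSet (B q)) (hd : ∀ q q', q ≠ q' → Disjoint (B q) (B q'))
    (ht : ∀ q, SuppIn (t q) (B q))
    (hs : ∀ ε : ℝ, 0 < ε → {q | ∃ x, ε ≤ dist (t q x) x}.Finite)
    (hmp : ∀ q, MeasurePreserving (t q) volume volume) :
    ∃ P : E n ≃ₜ E n, (∀ q, ∀ x ∈ B q, P x = t q x) ∧ (∀ x, (∀ q, x ∉ B q) → P x = x) ∧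
      MeasurePreserving P volume volume := by
  have hc := iprod_continuous hd ht hs
  have hc' := iprod_continuous (t := fun q => (t q)⁻¹) hd (fun q => (ht q).inv)
    (iprod_inv_small hs)
  let P : E n ≃ₜ E n :=
    { toFun := iprodFun t B
      invFun := iprodFun (fun q => (t q)⁻¹) B
      left_inv := iprod_left_inv hd ht
      right_inv := iprod_right_inv hd ht
      continuous_toFun := hc
      continuous_invFun := hc' }
  have hP1 : ∀ q, ∀ x ∈ B q, P x = t q x := fun q x hx => iprodFun_of_mem hd hx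
  have hP2 : ∀ x, (∀ q, x ∉ B q) → P x = x := fun x hx => iprodFun_of_notMem hx
  refine ⟨P, hP1, hP2, P.continuous.measurable, ?_⟩
  have hU : MeasurableSet (⋃ q, B q) := MeasurableSet.iUnion hm
  have hsum : ∀ A : Set (E n), MeasurableSet A →
      volume A = ∑' q, volume (A ∩ B q) + volume (A \ ⋃ q, B q) := by
    intro A hA
    rw [← measure_inter_add_sdiff A hU, Set.inter_iUnion, measure_iUnion]
    · intro q q' hne
      exact (hd q q' hne).mono Set.inter_subset_right Set.inter_subset_right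
    · exact fun q => hA.inter (hm q)
  refine Measure.ext fun A hA => ?_
  rw [Measure.map_apply P.continuous.measurable hA, hsum _ (P.continuous.measurable hA),
    hsum A hA]
  have h1 : P ⁻¹' A \ ⋃ q, B q = A \ ⋃ q, B q := by
    ext x
    simp only [Set.mem_sdiff, Set.mem_preimage, Set.mem_iUnion, not_exists]
    constructor
    · rintro ⟨h1, h2⟩
      rw [hP2 x h2] at h1
      exact ⟨h1, h2⟩
    · rintro ⟨h1, h2⟩
      rw [hP2 x h2]
      exact ⟨h1, h2⟩
  have h2 : ∀ q, volume (P ⁻¹' A ∩ B q) = volume (A ∩ B q) := by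
    intro q
    have h3 : P ⁻¹' A ∩ B q = (t q) ⁻¹' (A ∩ B q) := by
      ext x
      simp only [Set.mem_inter_iff, Set.mem_preimage]
      rw [(ht q).mem_iff]
      constructor
      · rintro ⟨h1, h2⟩
        rw [hP1 q x h2] at h1
        exact ⟨h1, h2⟩
      · rintro ⟨h1, h2⟩
        rw [hP1 q x h2]
        exact ⟨h1, h2⟩
    rw [h3]
    exact (hmp q).measure_preimage (hA.inter (hm q)).nullMeasurableSet
  rw [h1]
  congr 1
  exact tsum_congr h2

end Pool.Agent.W_MP_d1cfb0_an
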