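import Pool.Agent.W_MP_d1cfb0_an.TwistMP
import Pool.Agent.W_MP_d1cfb0_an.IProd

/-!
# Task G3: the flow of simultaneous twists in a family of disjoint balls

Proof. For each `τ` apply `exists_iprod` to `t q = twist hij (c q) (prof β (r q) τ)` and
`B q = closedBall (c q) (r q)` (`suppIn_twist_prof`, `dist_twist_prof_le`,
`measurePreserving_twist`, `IsFam.small`). Choose `Φ τ`. `add`: check on each ball
(`twist_mul`, `prof_add`, the twist preserves its ball) and outside. `dist_le`: on the ball `q` the
displacement is `≤ |τ| r q`, and `r q ≤ 1` because the ball is contained in the cube (the points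
`c q ± r q • e_i` are in the cube). `supp`: outside the cube we are outside all balls.
-/

namespace Pool.Agent.W_MP_d1cfb0_an

open MeasureTheory

theorem fam_r_le_one {n : ℕ} (i : Fin n) {ι : Type} {c : ι → E n} {r : ι → ℝ} (h : IsFam c r)
    (q : ι) : r q ≤ 1 := by
  have hr := h.pos q
  have h1 : c q + EuclideanSpace.single i (r q) ∈ Metric.closedBall (c q) (r q) := by
    rw [Metric.mem_closedBall, dist_eq_norm, add_sub_cancel_left, EuclideanSpace.norm_single,
      Real.norm_of_nonneg hr.le]
  have h2 : c q - EuclideanSpace.single i (r q) ∈ Metric.closedBall (c q) (r q) := by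
    rw [Metric.mem_closedBall, dist_eq_norm, sub_sub_cancel_left, norm_neg,
      EuclideanSpace.norm_single, Real.norm_of_nonneg hr.le]
  have h3 := abs_lt.1 (h.sub q h1 i)
  have h4 := abs_lt.1 (h.sub q h2 i)
  have h5 : (c q + EuclideanSpace.single i (r q)) i = c q i + r q := by simp
  have h6 : (c q - EuclideanSpace.single i (r q)) i = c q i - r q := by simp
  rw [h5] at h3
  rw [h6] at h4
  linarith [h3.2, h4.1]

theorem exists_twistFlow {n : ℕ} {i j : Fin n} (hij : i ≠ j) {β : C(ℝ, ℝ)} (hβ : IsShape β)
    {ι : Type} [Countable ι] {c : ι → E n} {r : ι → ℝ} (h : IsFam c r) :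
    ∃ Φ : ℝ → (E n ≃ₜ E n), TwistFlow hij β c r Φ := by
  have hex : ∀ τ : ℝ, ∃ P : E n ≃ₜ E n,
      (∀ q, ∀ x ∈ Metric.closedBall (c q) (r q), P x = twist hij (c q) (prof β (r q) τ) x) ∧
      (∀ x, (∀ q, x ∉ Metric.closedBall (c q) (r q)) → P x = x) ∧
      MeasurePreserving P volume volume := by
    intro τ
    refine exists_iprod (fun q => twist hij (c q) (prof β (r q) τ))
      (fun q => Metric.closedBall (c q) (r q)) (fun q => Metric.isClosed_closedBall.measurableSet)
      h.disj (fun q => suppIn_twist_prof hij (c q) hβ (h.pos q) τ) ?_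
      (fun q => measurePreserving_twist hij (c q) _)
    intro ε hε
    have hτ : 0 < |τ| + 1 := by positivity
    refine (h.small (ε / (|τ| + 1)) (by positivity)).subset ?_
    rintro q ⟨x, hx⟩
    have h1 := hx.trans (dist_twist_prof_le hij (c q) hβ (h.pos q) τ x)
    rw [Set.mem_setOf_eq, div_le_iff₀ hτ]
    have h2 := h.pos q
    nlinarith
  choose Φ hin hout hmp using hex
  refine ⟨Φ, ?_, hmp, ?_, ?_, hin, hout⟩
  · intro τ τ'
    ext1 x
    rw [mul_apply']
    by_cases hx : ∃ q, x ∈ Metric.closedBall (c q) (r q)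
    · obtain ⟨q, hq⟩ := hx
      have h1 : Φ τ' x ∈ Metric.closedBall (c q) (r q) := by
        rw [hin τ' q x hq]
        exact (suppIn_twist_prof hij (c q) hβ (h.pos q) τ').mem_of_mem hq
      rw [hin τ q _ h1, hin τ' q x hq, hin (τ + τ') q x hq, ← prof_add, ← twist_mul, mul_apply']
    · push Not at hx
      rw [hout τ' x hx, hout τ x hx, hout (τ + τ') x hx]
  · intro τ x hx
    exact hout τ x (fun q hq => hx (h.sub q hq))
  · intro τ x
    by_cases hx : ∃ q, x ∈ Metric.closedBall (c q) (r q)
    · obtain ⟨q, hq⟩ := hx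
      rw [hin τ q x hq]
      refine (dist_twist_prof_le hij (c q) hβ (h.pos q) τ x).trans ?_
      have h1 := fam_r_le_one i h q
      have h2 := abs_nonneg τ
      nlinarith
    · push Not at hx
      rw [hout τ x hx, dist_self]
      exact abs_nonneg τ

end Pool.Agent.W_MP_d1cfb0_an
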