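import Pool.Agent.W_MP_d1cfb0_an.Twist

/-!
# Task F2: from homeomorphisms of `E n` supported in the open cube to homeomorphisms of the cube

Let `v₀ = ctr n = (1/2, …, 1/2)`. If `g` is the identity off `O n` then `p ↦ g (p - v₀) + v₀` maps
`C = [0,1]^n` onto itself (`x ∉ O n → g x = x`, and `g` maps `O n` to itself; `C - v₀` is the
closed cube `[-1/2, 1/2]^n`, `= O n ∪ (points off O n fixed by g)`); this defines
`restr g : C ≃ₜ C`, with `restr (g * g') = (restr g').trans (restr g)`, `restr g⁻¹ = (restr g).symm`.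
`T' i = restr (T i)`. Volume: the set in question is the image of `A` under the measure preserving
homeomorphism `x ↦ T i (x - v₀) + v₀` (equivalently the preimage under its inverse). Membership in
`S`: the set of all `g` which are the identity off `O n` with `restr g ∈ S` (for both: closed under
multiplication and inverse) contains the range of `T`; use `Subgroup.closure_induction`. The
distances: `dist (restr g p) (h' p) = dist (g (p - v₀)) (h (p - v₀))`, and `h'.symm p =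
h⁻¹ (p - v₀) + v₀`.
-/

namespace Pool.Agent.W_MP_d1cfb0_an

open MeasureTheory

/-- The centre `(1/2, …, 1/2)` of the cube `[0,1]^n`. -/
noncomputable def ctr (n : ℕ) : E n := WithLp.toLp 2 (fun _ => 1 / 2)

/-- The conjugate of `g` by the translation by `ctr n`. -/
noncomputable def cjT {n : ℕ} (g : E n ≃ₜ E n) : E n ≃ₜ E n :=
  (Homeomorph.subRight (ctr n)).trans (g.trans (Homeomorph.addRight (ctr n)))

theorem cjT_apply {n : ℕ} (g : E n ≃ₜ E n) (x : E n) : cjT g x = g (x - ctr n) + ctr n := rfl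

theorem ctr_apply (n : ℕ) (i : Fin n) : ctr n i = 1 / 2 := rfl

theorem cjT_mem {n : ℕ} {C : Set (E n)} (hC : C = {x | ∀ i, x i ∈ Set.Icc (0 : ℝ) 1})
    {g : E n ≃ₜ E n} (hg : SuppIn g (O n)) {x : E n} (hx : x ∈ C) : cjT g x ∈ C := by
  rw [cjT_apply]
  by_cases h : x - ctr n ∈ O n
  · have h1 : g (x - ctr n) ∈ O n := hg.mem_of_mem h
    rw [hC]
    intro i
    have h2 := abs_lt.1 (h1 i)
    rw [PiLp.add_apply, ctr_apply]
    constructor <;> linarith [h2.1, h2.2]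
  · rw [hg _ h, sub_add_cancel]
    exact hx

theorem cjT_inv_cjT {n : ℕ} (g : E n ≃ₜ E n) (x : E n) : cjT g⁻¹ (cjT g x) = x := by
  rw [cjT_apply, cjT_apply, add_sub_cancel_right, inv_apply_self', sub_add_cancel]

theorem cjT_mem_iff {n : ℕ} {C : Set (E n)} (hC : C = {x | ∀ i, x i ∈ Set.Icc (0 : ℝ) 1})
    {g : E n ≃ₜ E n} (hg : SuppIn g (O n)) (x : E n) : x ∈ C ↔ cjT g x ∈ C := by
  refine ⟨fun h => cjT_mem hC hg h, fun h => ?_⟩
  have h1 := cjT_mem hC hg.inv h
  rwa [cjT_inv_cjT] at h1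

/-- The restriction to the cube. -/
noncomputable def restrT {n : ℕ} {C : Set (E n)} (hC : C = {x | ∀ i, x i ∈ Set.Icc (0 : ℝ) 1})
    {g : E n ≃ₜ E n} (hg : SuppIn g (O n)) : C ≃ₜ C :=
  (cjT g).subtype (cjT_mem_iff hC hg)

theorem restrT_apply {n : ℕ} {C : Set (E n)} (hC : C = {x | ∀ i, x i ∈ Set.Icc (0 : ℝ) 1})
    {g : E n ≃ₜ E n} (hg : SuppIn g (O n)) (p : C) :
    (restrT hC hg p : E n) = g ((p : E n) - ctr n) + ctr n := rfl

theorem symm_eq_of_restr {n : ℕ} {C : Set (E n)} {g : E n ≃ₜ E n} {f : C ≃ₜ C}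
    (hf : ∀ p : C, (f p : E n) = g ((p : E n) - ctr n) + ctr n) (p : C) :
    (f.symm p : E n) = g⁻¹ ((p : E n) - ctr n) + ctr n := by
  have h1 := hf (f.symm p)
  rw [Homeomorph.apply_symm_apply] at h1
  rw [h1, add_sub_cancel_right, inv_apply_self', sub_add_cancel]

theorem measurePreserving_cjT {n : ℕ} {g : E n ≃ₜ E n} (hg : MeasurePreserving g volume volume) :
    MeasurePreserving (cjT g) volume volume :=
  (measurePreserving_add_right volume (ctr n)).comp
    (hg.comp (measurePreserving_sub_right volume (ctr n)))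

theorem image_restrT {n : ℕ} {C : Set (E n)} (hC : C = {x | ∀ i, x i ∈ Set.Icc (0 : ℝ) 1})
    {g : E n ≃ₜ E n} (hg : SuppIn g (O n)) {A : Set (E n)} (hA : A ⊆ C) :
    Subtype.val '' ((restrT hC hg) '' (Subtype.val ⁻¹' A)) = cjT g '' A := by
  ext y
  constructor
  · rintro ⟨_, ⟨p, hp, rfl⟩, rfl⟩
    exact ⟨p, hp, rfl⟩
  · rintro ⟨x, hx, rfl⟩
    exact ⟨restrT hC hg ⟨x, hA hx⟩, ⟨⟨x, hA hx⟩, hx, rfl⟩, rfl⟩

theorem volume_restrT {n : ℕ} {C : Set (E n)} (hC : C = {x | ∀ i, x i ∈ Set.Icc (0 : ℝ) 1})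
    {g : E n ≃ₜ E n} (hg : SuppIn g (O n)) (hmp : MeasurePreserving g volume volume)
    {A : Set (E n)} (hA : A ⊆ C) :
    volume (Subtype.val '' ((restrT hC hg) '' (Subtype.val ⁻¹' A))) = volume A := by
  rw [image_restrT hC hg hA]
  have h1 : MeasurePreserving (cjT g).toMeasurableEquiv volume volume := measurePreserving_cjT hmp
  have h2 := h1.measure_preimage_equiv (cjT g '' A)
  rw [← h2]
  congr 1
  exact Set.preimage_image_eq A (cjT g).injective

theorem suppIn_of_closure {n k : ℕ} {T : Fin k → (E n ≃ₜ E n)} (hT : ∀ i, SuppIn (T i) (O n))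
    {g : E n ≃ₜ E n} (hg : g ∈ Subgroup.closure (Set.range T)) : SuppIn g (O n) := by
  induction hg using Subgroup.closure_induction with
  | mem x hx =>
    obtain ⟨i, rfl⟩ := hx
    exact hT i
  | one => exact suppIn_one _
  | mul x y _ _ hx hy => exact hx.mul hy
  | inv x _ hx => exact hx.inv

theorem exists_mem_of_closure {n k : ℕ} {C : Set (E n)}
    (hC : C = {x | ∀ i, x i ∈ Set.Icc (0 : ℝ) 1})
    {T : Fin k → (E n ≃ₜ E n)} (hT : ∀ i, SuppIn (T i) (O n)) (S : Set (C ≃ₜ C))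
    (h1 : Homeomorph.refl C ∈ S) (hTS : ∀ i, restrT hC (hT i) ∈ S)
    (hmul : ∀ f ∈ S, ∀ f' ∈ S, f.trans f' ∈ S) (hinv : ∀ f ∈ S, f.symm ∈ S)
    {g : E n ≃ₜ E n} (hg : g ∈ Subgroup.closure (Set.range T)) :
    ∃ f ∈ S, ∀ p : C, (f p : E n) = g ((p : E n) - ctr n) + ctr n := by
  induction hg using Subgroup.closure_induction with
  | mem x hx =>
    obtain ⟨i, rfl⟩ := hx
    exact ⟨_, hTS i, fun p => rfl⟩
  | one =>
    refine ⟨_, h1, fun p => ?_⟩
    rw [one_apply', sub_add_cancel]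
    rfl
  | mul x y _ _ hx hy =>
    obtain ⟨f, hf, hf'⟩ := hx
    obtain ⟨f', hf1, hf1'⟩ := hy
    refine ⟨_, hmul f' hf1 f hf, fun p => ?_⟩
    rw [Homeomorph.trans_apply, hf', hf1', add_sub_cancel_right, mul_apply']
  | inv x _ hx =>
    obtain ⟨f, hf, hf'⟩ := hx
    exact ⟨_, hinv f hf, fun p => symm_eq_of_restr hf' p⟩

theorem transfer {n k : ℕ} (C : Set (E n)) (hC : C = {x | ∀ i, x i ∈ Set.Icc (0 : ℝ) 1})
    (T : Fin k → (E n ≃ₜ E n)) (hT : ∀ i, SuppIn (T i) (O n))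
    (hmp : ∀ i, MeasurePreserving (T i) volume volume) :
    ∃ T' : Fin k → (C ≃ₜ C),
      (∀ i, ∀ A : Set (E n), MeasurableSet A → A ⊆ C →
        volume (Subtype.val '' ((T' i) '' (Subtype.val ⁻¹' A))) = volume A) ∧
      ∀ (h : E n ≃ₜ E n) (h' : C ≃ₜ C), (∀ p : C, (h' p : E n) = h ((p : E n) - ctr n) + ctr n) →
        (∀ ε : ℝ, 0 < ε → ∃ g ∈ Subgroup.closure (Set.range T),
          ∀ x, dist (g x) (h x) < ε ∧ dist (g⁻¹ x) (h⁻¹ x) < ε) →
        ∀ ε : ℝ, 0 < ε → ∃ g : C ≃ₜ C,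
          (∀ S : Set (C ≃ₜ C), Homeomorph.refl C ∈ S → (∀ i, T' i ∈ S) →
              (∀ f ∈ S, ∀ f' ∈ S, f.trans f' ∈ S) → (∀ f ∈ S, f.symm ∈ S) → g ∈ S) ∧
          ∀ p : C, dist (g p) (h' p) < ε ∧ dist (g.symm p) (h'.symm p) < ε := by
  refine ⟨fun i => restrT hC (hT i), fun i A _ hA => volume_restrT hC (hT i) (hmp i) hA, ?_⟩
  intro h h' hh happ ε hε
  obtain ⟨g, hg, hd⟩ := happ ε hε
  have hgs : SuppIn g (O n) := suppIn_of_closure hT hg
  refine ⟨restrT hC hgs, ?_, ?_⟩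
  · intro S h1 hTS hmul hinv
    obtain ⟨f, hf, hf'⟩ := exists_mem_of_closure hC hT S h1 hTS hmul hinv hg
    have h2 : restrT hC hgs = f := by
      ext1 p
      apply Subtype.ext
      rw [hf', restrT_apply]
    rw [h2]
    exact hf
  · intro p
    constructor
    · rw [Subtype.dist_eq, restrT_apply, hh, dist_add_right]
      exact (hd _).1
    · rw [Subtype.dist_eq, symm_eq_of_restr (fun q => restrT_apply hC hgs q) p,
        symm_eq_of_restr hh p, dist_add_right]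
      exact (hd _).2

end Pool.Agent.W_MP_d1cfb0_an
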