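import Pool.Agent.W_MP_d1cfb0_an.Generators
import Pool.Agent.W_MP_d1cfb0_an.ClosureGroup
import Pool.Agent.W_MP_d1cfb0_an.Transfer

/-!
# The theorem for the cube `[0,1]^n`
-/

namespace Pool.Agent.W_MP_d1cfb0_an

open MeasureTheory

/-- Conjugation of `f` by the translation by the centre of the cube. -/
noncomputable def centred {n : ℕ} (f : E n ≃ₜ E n) : E n ≃ₜ E n :=
  (Homeomorph.addRight (ctr n)).trans (f.trans (Homeomorph.addRight (-(ctr n))))

theorem centred_apply {n : ℕ} (f : E n ≃ₜ E n) (x : E n) :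
    centred f x = f (x + ctr n) + -(ctr n) := rfl

theorem centred_inv_apply {n : ℕ} (f : E n ≃ₜ E n) (x : E n) :
    (centred f)⁻¹ x = f.symm (x + ctr n) + -(ctr n) := by
  apply (centred f).injective
  rw [apply_inv_self', centred_apply]
  simp

/-- A compact subset of the open cube lies in a smaller closed cube. -/
theorem exists_Q_of_compact {n : ℕ} {K : Set (E n)} (hK : IsCompact K)
    (hKO : K ⊆ {x | ∀ i, x i ∈ Set.Ioo (0 : ℝ) 1}) :
    ∃ ρ : ℝ, 0 < ρ ∧ ρ < 1 / 2 ∧ ∀ x ∈ K, x - ctr n ∈ Q n ρ := by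
  have h1 : ∀ i : Fin n, ∃ ρ : ℝ, ρ < 1 / 2 ∧ ∀ x ∈ K, |(x - ctr n) i| ≤ ρ := by
    intro i
    rcases K.eq_empty_or_nonempty with h0 | h0
    · exact ⟨0, by norm_num, by simp [h0]⟩
    · obtain ⟨x0, hx0, hmax⟩ := hK.exists_isMaxOn h0
        (f := fun x : E n => |(x - ctr n) i|) (by fun_prop)
      refine ⟨|(x0 - ctr n) i|, ?_, fun x hx => hmax hx⟩
      have h2 := hKO hx0 i
      rw [PiLp.sub_apply]
      show |x0 i - 1 / 2| < 1 / 2
      rw [abs_lt]
      constructor <;> linarith [h2.1, h2.2]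
  choose ρ hρ1 hρ2 using h1
  refine ⟨Finset.univ.sup' (Finset.univ_nonempty (α := Option (Fin n)))
    (fun o => o.elim (1 / 4 : ℝ) ρ), ?_, ?_, ?_⟩
  · refine lt_of_lt_of_le (by norm_num : (0 : ℝ) < 1 / 4) ?_
    exact Finset.le_sup' (f := fun o : Option (Fin n) => o.elim (1 / 4 : ℝ) ρ)
      (Finset.mem_univ none)
  · rw [Finset.sup'_lt_iff]
    rintro (_ | i) _
    · norm_num
    · exact hρ1 i
  · intro x hx i
    refine (hρ2 i x hx).trans ?_
    exact Finset.le_sup' (f := fun o : Option (Fin n) => o.elim (1 / 4 : ℝ) ρ)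
      (Finset.mem_univ (some i))

theorem final (n : ℕ) (hn : 2 ≤ n) (C : Set (E n)) (hC : C = {x | ∀ i, x i ∈ Set.Icc (0 : ℝ) 1}) :
    ∃ k : ℕ, ∃ T : Fin k → (C ≃ₜ C),
      (∀ i, ∀ A : Set (E n), MeasurableSet A → A ⊆ C →
        volume (Subtype.val '' ((T i) '' (Subtype.val ⁻¹' A))) = volume A) ∧
      ∀ f : E n ≃ₜ E n, ContDiff ℝ 1 f → ContDiff ℝ 1 f.symm →
        MeasurePreserving f volume volume →
        (∃ K : Set (E n), IsCompact K ∧ K ⊆ {x | ∀ i, x i ∈ Set.Ioo (0 : ℝ) 1} ∧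
          ∀ x, x ∉ K → f x = x) →
        ∀ h : C ≃ₜ C, (∀ p : C, (h p : E n) = f p) →
        ∀ ε : ℝ, 0 < ε → ∃ g : C ≃ₜ C,
          (∀ S : Set (C ≃ₜ C), Homeomorph.refl C ∈ S → (∀ i, T i ∈ S) →
              (∀ f ∈ S, ∀ f' ∈ S, f.trans f' ∈ S) → (∀ f ∈ S, f.symm ∈ S) → g ∈ S) ∧
          ∀ p : C, dist (g p) (h p) < ε ∧ dist (g.symm p) (h.symm p) < ε := by
  obtain ⟨G, hGfin, hG, hGH⟩ := exists_generators hn
  obtain ⟨k, T, hT⟩ : ∃ (k : ℕ) (T : Fin k → (E n ≃ₜ E n)), Set.range T = G := by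
    have := hGfin.fintype
    refine ⟨Fintype.card G, fun i => ((Fintype.equivFin G).symm i : E n ≃ₜ E n), ?_⟩
    ext g
    constructor
    · rintro ⟨i, rfl⟩
      exact ((Fintype.equivFin G).symm i).2
    · intro hg
      exact ⟨Fintype.equivFin G ⟨g, hg⟩, by simp⟩
  obtain ⟨T', hT'1, hT'2⟩ := transfer C hC T
    (fun i => (hG _ (hT ▸ Set.mem_range_self i)).1)
    (fun i => (hG _ (hT ▸ Set.mem_range_self i)).2)
  refine ⟨k, T', hT'1, ?_⟩
  intro f hf1 hf2 hfmp ⟨K, hK, hKO, hfK⟩ h hhf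
  obtain ⟨ρ, hρ0, hρ1, hρ⟩ := exists_Q_of_compact hK hKO
  have hcg := closedGroup_closure (Set.range T) (by
    rw [hT]
    exact fun g hg => (hG g hg).1)
  have hsub : G ⊆ {h | SuppIn h (O n) ∧ ∀ ε : ℝ, 0 < ε → ∃ g ∈ Subgroup.closure (Set.range T),
      ∀ x, dist (g x) (h x) < ε ∧ dist (g⁻¹ x) (h⁻¹ x) < ε} := by
    intro g hg
    refine ⟨(hG g hg).1, fun ε hε => ⟨g, Subgroup.subset_closure (by rw [hT]; exact hg), ?_⟩⟩
    intro x
    rw [dist_self, dist_self]
    exact ⟨hε, hε⟩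
  have hmem := inner hn hcg (hGH _ hcg hsub) (centred f) ?_ ?_ ?_ hρ0 hρ1 ?_
  · refine hT'2 (centred f) h ?_ hmem.2
    intro p
    rw [centred_apply, hhf]
    simp
  · have : (centred f : E n → E n) = fun x => f (x + ctr n) + -(ctr n) := by
      funext x
      exact centred_apply f x
    rw [this]
    exact (hf1.comp (contDiff_id.add contDiff_const)).add contDiff_const
  · have : ((centred f)⁻¹ : E n ≃ₜ E n) = fun x => f.symm (x + ctr n) + -(ctr n) := by
      funext x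
      exact centred_inv_apply f x
    rw [this]
    exact (hf2.comp (contDiff_id.add contDiff_const)).add contDiff_const
  · have : (centred f : E n → E n) = (fun x => x + -(ctr n)) ∘ f ∘ (fun x => x + ctr n) := by
      funext x
      exact centred_apply f x
    rw [this]
    exact (measurePreserving_add_right volume (-(ctr n))).comp
      (hfmp.comp (measurePreserving_add_right volume (ctr n)))
  · intro x hx
    rw [centred_apply, hfK, add_neg_cancel_right]
    intro hc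
    apply hx
    have h5 := hρ _ hc
    rwa [add_sub_cancel_right] at h5

end Pool.Agent.W_MP_d1cfb0_an
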