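import Pool.Agent.W_MP_d1cfb0_an.Twist

/-!
# Task G4: a flow whose times `1` and `√2` are in a closed group is contained in it

Proof. `A = {τ | Φ τ ∈ H}` is an additive subgroup of `ℝ` (`Φ 0 = 1`, `Φ (-τ) = (Φ τ)⁻¹` follow from
`hadd`) containing `1` and `√2`, hence dense (`AddSubgroup.dense_or_cyclic`, or
`dense_addSubgroupClosure_pair_iff` and `irrational_sqrt_two`). Given `τ` and `ε`, take `τ' ∈ A`
with `|τ' - τ| < ε`: `Φ τ' x = Φ (τ' - τ) (Φ τ x)` is at distance `≤ |τ' - τ|` from `Φ τ x`; the same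
for the inverses `Φ (-τ')`, `Φ (-τ)`. Now use `hH.closed`.
-/

namespace Pool.Agent.W_MP_d1cfb0_an

theorem flow_mem {n : ℕ} {H : Set (E n ≃ₜ E n)} (hH : ClosedGroup n H) (Φ : ℝ → (E n ≃ₜ E n))
    (hadd : ∀ τ τ', Φ (τ + τ') = Φ τ * Φ τ') (hsupp : ∀ τ, SuppIn (Φ τ) (O n))
    (hdist : ∀ τ x, dist (Φ τ x) x ≤ |τ|) (h1 : Φ 1 ∈ H) (h2 : Φ (Real.sqrt 2) ∈ H) (τ : ℝ) :
    Φ τ ∈ H := by
  have h0 : Φ 0 = 1 := by
    have h := hadd 0 0
    rw [add_zero] at h
    exact (left_eq_mul.1 h)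
  have hneg : ∀ s, Φ (-s) = (Φ s)⁻¹ := by
    intro s
    rw [eq_inv_iff_mul_eq_one, ← hadd, neg_add_cancel, h0]
  let A : AddSubgroup ℝ :=
    { carrier := {s | Φ s ∈ H}
      zero_mem' := by
        change Φ 0 ∈ H
        rw [h0]
        exact hH.one_mem
      add_mem' := by
        intro s t hs ht
        change Φ (s + t) ∈ H
        rw [hadd]
        exact hH.mul_mem _ hs _ ht
      neg_mem' := by
        intro s hs
        change Φ (-s) ∈ H
        rw [hneg]
        exact hH.inv_mem _ hs }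
  have hdense : Dense (A : Set ℝ) := by
    have h3 : Dense (AddSubgroup.closure {(1 : ℝ), Real.sqrt 2} : Set ℝ) := by
      rw [dense_addSubgroupClosure_pair_iff]
      have := irrational_sqrt_two.inv
      rwa [one_div]
    refine h3.mono ?_
    have h4 : AddSubgroup.closure {(1 : ℝ), Real.sqrt 2} ≤ A := by
      rw [AddSubgroup.closure_le]
      rintro s (rfl | rfl)
      · exact h1
      · exact h2
    exact h4
  refine hH.closed _ (hsupp τ) fun ε hε => ?_
  obtain ⟨s, hs, hsτ⟩ := Metric.dense_iff.1 hdense τ ε hε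
  rw [Metric.mem_ball, Real.dist_eq] at hs
  refine ⟨Φ s, hsτ, fun x => ⟨?_, ?_⟩⟩
  · have h3 : Φ s x = Φ (s - τ) (Φ τ x) := by
      have h4 : Φ s = Φ (s - τ) * Φ τ := by
        rw [← hadd, sub_add_cancel]
      rw [h4]
      rfl
    rw [h3]
    exact lt_of_le_of_lt (hdist _ _) hs
  · rw [← hneg, ← hneg]
    have h3 : Φ (-s) x = Φ (-s + τ) (Φ (-τ) x) := by
      have h4 : Φ (-s) = Φ (-s + τ) * Φ (-τ) := by
        rw [← hadd, add_neg_cancel_right]
      rw [h4]
      rfl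
    rw [h3]
    refine lt_of_le_of_lt (hdist _ _) ?_
    rw [neg_add_eq_sub, abs_sub_comm]
    exact hs

end Pool.Agent.W_MP_d1cfb0_an
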