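import Pool.Agent.W_MP_d1cfb0_an.Move

/-!
# Task G11: small translations

`axis_translation`. With `M θ = Φ₀ θ * Φ₁ (-θ) * Φ₀ (-θ) * Φ₁ θ`, `move` says
`M θ z = z - ((1 - cos θ) r/4) e_i` for `‖z - c q‖ ≤ r/8`, `|θ| ≤ 1`. By the intermediate value
theorem and `Real.cos_one_le`, every `|t| ≤ r/20` is `(1 - cos θ) r/4` for some `θ ∈ [0, 1]`. For
`t ≤ 0` take `g = M θ`; for `t ≥ 0` take `g = (M θ)⁻¹`: for `‖z - c q‖ ≤ r/16` the point `z + t e_i`
is in the ball of radius `r/8`, so `M θ (z + t e_i) = z`. Second part: if `|θ| ≤ 1` and `Φ` is one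
of the two flows then `dist (Φ θ z) (zst n) ≤ 2 dist z (zst n)`: if `z` is in the ball `q'` of the
family (contained in `closedBall (c q') (2 r q')`) then
`dist (Φ θ z) z ≤ r q' ≤ dist z (zst n)` (`TwistFlow.inside`, `dist_twist_prof_le`, `hb`), otherwise
`Φ θ z = z`. Four factors (also for the inverse, as `(Φ θ)⁻¹ = Φ (-θ)`): `16`.

`local_translation`. Write `v = ∑ v i e_i` and compose `n` axis translations (list induction over
the coordinates, e.g. over a `Finset` or over `k ≤ n` with `v` truncated after `k` coordinates); all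
intermediate points of a point of `closedBall x δ`, `δ = r/(64 (n+1))`, are at distance
`≤ r/32 + δ + n δ ≤ r/16` of `c q`. For each `i` choose `j ≠ i` (`n ≥ 2`).
-/

namespace Pool.Agent.W_MP_d1cfb0_an

theorem TwistFlow.map_zero' {n : ℕ} {i j : Fin n} {hij : i ≠ j} {ι : Type} {β : C(ℝ, ℝ)}
    {c : ι → E n} {r : ι → ℝ} {Φ : ℝ → (E n ≃ₜ E n)} (h : TwistFlow hij β c r Φ) : Φ 0 = 1 := by
  have h1 := h.add 0 0
  rw [add_zero] at h1
  exact (mul_eq_left.1 h1.symm)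

theorem TwistFlow.inv_eq' {n : ℕ} {i j : Fin n} {hij : i ≠ j} {ι : Type} {β : C(ℝ, ℝ)}
    {c : ι → E n} {r : ι → ℝ} {Φ : ℝ → (E n ≃ₜ E n)} (h : TwistFlow hij β c r Φ) (θ : ℝ) :
    (Φ θ)⁻¹ = Φ (-θ) := by
  have h1 := h.add θ (-θ)
  rw [add_neg_cancel, h.map_zero'] at h1
  exact inv_eq_of_mul_eq_one_right h1.symm

/-- One twist of the flow at most doubles the distance to the boundary point. -/
theorem TwistFlow.dist_zst_le {n : ℕ} {i j : Fin n} {hij : i ≠ j} {ι : Type}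
    {c c' : ι → E n} {r : ι → ℝ} (hpos : ∀ q, 0 < r q)
    (hb : ∀ q, ∀ x ∈ Metric.closedBall (c q) (2 * r q), r q ≤ dist x (zst n))
    {Φ : ℝ → (E n ≃ₜ E n)} (h : TwistFlow hij ramp c' r Φ)
    (hsub : ∀ q, dist (c' q) (c q) ≤ r q) (θ : ℝ) (hθ : |θ| ≤ 1) (z : E n) :
    dist (Φ θ z) (zst n) ≤ 2 * dist z (zst n) := by
  by_cases hz : ∃ q, z ∈ Metric.closedBall (c' q) (r q)
  · obtain ⟨q, hq⟩ := hz
    have h1 : z ∈ Metric.closedBall (c q) (2 * r q) := by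
      rw [Metric.mem_closedBall] at hq ⊢
      calc dist z (c q) ≤ dist z (c' q) + dist (c' q) (c q) := dist_triangle _ _ _
        _ ≤ 2 * r q := by linarith [hsub q]
    have h2 := hb q z h1
    have h3 : dist (Φ θ z) z ≤ r q := by
      rw [h.inside θ q z hq]
      refine (dist_twist_prof_le hij (c' q) isShape_ramp (hpos q) θ z).trans ?_
      have := hpos q
      nlinarith
    calc dist (Φ θ z) (zst n) ≤ dist (Φ θ z) z + dist z (zst n) := dist_triangle _ _ _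
      _ ≤ 2 * dist z (zst n) := by linarith
  · push Not at hz
    rw [h.outside θ z hz]
    have : 0 ≤ dist z (zst n) := dist_nonneg
    linarith

theorem axis_translation {n : ℕ} {H : Set (E n ≃ₜ E n)} (hH : ClosedGroup n H) {i j : Fin n}
    (hij : i ≠ j) {ι : Type} {c : ι → E n} {r : ι → ℝ} (hpos : ∀ q, 0 < r q)
    (hb : ∀ q, ∀ x ∈ Metric.closedBall (c q) (2 * r q), r q ≤ dist x (zst n))
    {Φ₀ Φ₁ : ℝ → (E n ≃ₜ E n)} (h₀ : TwistFlow hij ramp c r Φ₀)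
    (h₁ : TwistFlow hij ramp (fun q => c q + (r q / 8) • EuclideanSpace.single i (1 : ℝ)) r Φ₁)
    (hm₀ : ∀ τ, Φ₀ τ ∈ H) (hm₁ : ∀ τ, Φ₁ τ ∈ H) (q : ι) (t : ℝ) (ht : |t| ≤ r q / 20) :
    ∃ g ∈ H, (∀ z, ‖z - c q‖ ≤ r q / 16 → g z = z + t • EuclideanSpace.single i (1 : ℝ)) ∧
      ∀ z, dist (g z) (zst n) ≤ 16 * dist z (zst n) := by
  have hr := hpos q
  -- the angle
  have hang : ∀ s : ℝ, 0 ≤ s → s ≤ r q / 20 →
      ∃ θ : ℝ, |θ| ≤ 1 ∧ (1 - Real.cos θ) * (r q / 4) = s := by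
    intro s hs0 hs1
    have hc : ContinuousOn (fun θ : ℝ => (1 - Real.cos θ) * (r q / 4)) (Set.Icc 0 1) := by
      fun_prop
    have h2 := Real.cos_one_le
    have h3 : s ∈ Set.Icc ((1 - Real.cos 0) * (r q / 4)) ((1 - Real.cos 1) * (r q / 4)) := by
      rw [Real.cos_zero, sub_self, zero_mul]
      refine ⟨hs0, hs1.trans ?_⟩
      nlinarith
    obtain ⟨θ, hθ, h4⟩ := intermediate_value_Icc (by norm_num : (0 : ℝ) ≤ 1) hc h3
    refine ⟨θ, ?_, h4⟩
    rw [abs_of_nonneg hθ.1]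
    exact hθ.2
  have hsub₀ : ∀ q, dist (c q) (c q) ≤ r q := fun q => by
    rw [dist_self]
    exact (hpos q).le
  have hsub₁ : ∀ q, dist ((fun q => c q + (r q / 8) • EuclideanSpace.single i (1 : ℝ)) q) (c q) ≤
      r q := fun q => by
    have := hpos q
    rw [dist_eq_norm, add_sub_cancel_left, norm_smul, EuclideanSpace.norm_single, norm_one,
      mul_one, Real.norm_of_nonneg (by linarith)]
    linarith
  have hd₀ : ∀ θ : ℝ, |θ| ≤ 1 → ∀ z, dist (Φ₀ θ z) (zst n) ≤ 2 * dist z (zst n) :=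
    fun θ hθ z => h₀.dist_zst_le hpos hb hsub₀ θ hθ z
  have hd₁ : ∀ θ : ℝ, |θ| ≤ 1 → ∀ z, dist (Φ₁ θ z) (zst n) ≤ 2 * dist z (zst n) :=
    fun θ hθ z => h₁.dist_zst_le hpos hb hsub₁ θ hθ z
  rcases le_total t 0 with h | h
  · obtain ⟨θ, hθ, h2⟩ := hang (-t) (by linarith) (by rwa [abs_of_nonpos h] at ht)
    have hθ' : |-θ| ≤ 1 := by rwa [abs_neg]
    refine ⟨Φ₀ θ * Φ₁ (-θ) * Φ₀ (-θ) * Φ₁ θ, ?_, ?_, ?_⟩
    · exact hH.mul_mem _ (hH.mul_mem _ (hH.mul_mem _ (hm₀ _) _ (hm₁ _)) _ (hm₀ _)) _ (hm₁ _)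
    · intro z hz
      rw [move hij h₀ h₁ q hr θ hθ z (by linarith), h2, neg_smul, sub_neg_eq_add]
    · intro z
      rw [mul_apply', mul_apply', mul_apply']
      have e1 := hd₁ θ hθ z
      have e2 := hd₀ (-θ) hθ' (Φ₁ θ z)
      have e3 := hd₁ (-θ) hθ' (Φ₀ (-θ) (Φ₁ θ z))
      have e4 := hd₀ θ hθ (Φ₁ (-θ) (Φ₀ (-θ) (Φ₁ θ z)))
      linarith
  · obtain ⟨θ, hθ, h2⟩ := hang t h (by rwa [abs_of_nonneg h] at ht)
    have hθ' : |-θ| ≤ 1 := by rwa [abs_neg]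
    refine ⟨(Φ₀ θ * Φ₁ (-θ) * Φ₀ (-θ) * Φ₁ θ)⁻¹, ?_, ?_, ?_⟩
    · exact hH.inv_mem _
        (hH.mul_mem _ (hH.mul_mem _ (hH.mul_mem _ (hm₀ _) _ (hm₁ _)) _ (hm₀ _)) _ (hm₁ _))
    · intro z hz
      have h3 : ‖z + t • EuclideanSpace.single i (1 : ℝ) - c q‖ ≤ r q / 8 := by
        have h4 : z + t • EuclideanSpace.single i (1 : ℝ) - c q =
            (z - c q) + t • EuclideanSpace.single i (1 : ℝ) := by abel
        rw [h4]
        refine (norm_add_le _ _).trans ?_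
        rw [norm_smul, EuclideanSpace.norm_single, norm_one, mul_one, Real.norm_eq_abs]
        linarith
      have h5 := move hij h₀ h₁ q hr θ hθ _ h3
      rw [h2, add_sub_cancel_right] at h5
      calc (Φ₀ θ * Φ₁ (-θ) * Φ₀ (-θ) * Φ₁ θ)⁻¹ z
          = (Φ₀ θ * Φ₁ (-θ) * Φ₀ (-θ) * Φ₁ θ)⁻¹
            ((Φ₀ θ * Φ₁ (-θ) * Φ₀ (-θ) * Φ₁ θ) (z + t • EuclideanSpace.single i (1 : ℝ))) := by
            rw [h5]
        _ = _ := inv_apply_self' _ _
    · intro z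
      rw [mul_inv_rev, mul_inv_rev, mul_inv_rev, h₀.inv_eq', h₀.inv_eq', h₁.inv_eq',
        h₁.inv_eq', neg_neg]
      rw [mul_apply', mul_apply', mul_apply']
      have e1 := hd₀ (-θ) hθ' z
      have e2 := hd₁ θ hθ (Φ₀ (-θ) z)
      have e3 := hd₀ θ hθ (Φ₁ θ (Φ₀ (-θ) z))
      have e4 := hd₁ (-θ) hθ' (Φ₀ θ (Φ₁ θ (Φ₀ (-θ) z)))
      linarith

/-- The vector `v` truncated after `k` coordinates. -/
noncomputable def truncVec {n : ℕ} (v : E n) (k : ℕ) : E n :=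
  WithLp.toLp 2 (fun i => if (i : ℕ) < k then v i else 0)

theorem truncVec_zero {n : ℕ} (v : E n) : truncVec v 0 = 0 := by
  ext i
  simp [truncVec]

theorem truncVec_self {n : ℕ} (v : E n) : truncVec v n = v := by
  ext i
  simp [truncVec]

theorem truncVec_succ {n : ℕ} (v : E n) (k : ℕ) (hk : k < n) :
    truncVec v (k + 1) = truncVec v k + v ⟨k, hk⟩ • EuclideanSpace.single ⟨k, hk⟩ (1 : ℝ) := by
  ext i
  by_cases h : i = ⟨k, hk⟩
  · subst h
    simp [truncVec]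
  · have h1 : (i : ℕ) ≠ k := fun h2 => h (Fin.ext h2)
    have h2 : ((i : ℕ) ≤ k) ↔ ((i : ℕ) < k) := by omega
    simp [truncVec, h, h2]

theorem norm_truncVec_le {n : ℕ} (v : E n) (k : ℕ) : ‖truncVec v k‖ ≤ ‖v‖ := by
  have h : ‖truncVec v k‖ ^ 2 ≤ ‖v‖ ^ 2 := by
    rw [EuclideanSpace.real_norm_sq_eq, EuclideanSpace.real_norm_sq_eq]
    refine Finset.sum_le_sum fun i _ => ?_
    by_cases h : (i : ℕ) < k
    · simp [truncVec, h]
    · simp [truncVec, h]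
      positivity
  exact (sq_le_sq₀ (norm_nonneg _) (norm_nonneg _)).1 h

theorem local_translation {n : ℕ} (hn : 2 ≤ n) {H : Set (E n ≃ₜ E n)} (hH : ClosedGroup n H)
    {ι : Type} {c : ι → E n} {r : ι → ℝ} (hpos : ∀ q, 0 < r q)
    (hb : ∀ q, ∀ x ∈ Metric.closedBall (c q) (2 * r q), r q ≤ dist x (zst n))
    (hfl : ∀ (i j : Fin n) (hij : i ≠ j), ∃ Φ₀ Φ₁ : ℝ → (E n ≃ₜ E n), TwistFlow hij ramp c r Φ₀ ∧
      TwistFlow hij ramp (fun q => c q + (r q / 8) • EuclideanSpace.single i (1 : ℝ)) r Φ₁ ∧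
      (∀ τ, Φ₀ τ ∈ H) ∧ ∀ τ, Φ₁ τ ∈ H)
    (q : ι) (x : E n) (hx : dist x (c q) ≤ r q / 32) (v : E n)
    (hv : ‖v‖ ≤ r q / (64 * (n + 1))) :
    ∃ g ∈ H, (∀ z ∈ Metric.closedBall x (r q / (64 * (n + 1))), g z = z + v) ∧
      ∀ z, dist (g z) (zst n) ≤ 16 ^ n * dist z (zst n) := by
  have hr := hpos q
  have hδ : r q / (64 * ((n : ℝ) + 1)) ≤ r q / 64 := by
    apply div_le_div_of_nonneg_left hr.le (by norm_num)
    have : (0 : ℝ) ≤ n := Nat.cast_nonneg n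
    linarith
  have key : ∀ k : ℕ, k ≤ n → ∃ g ∈ H,
      (∀ z ∈ Metric.closedBall x (r q / (64 * (n + 1))), g z = z + truncVec v k) ∧
      ∀ z, dist (g z) (zst n) ≤ 16 ^ k * dist z (zst n) := by
    intro k
    induction k with
    | zero =>
      intro _
      refine ⟨1, hH.one_mem, ?_, ?_⟩
      · intro z _
        rw [truncVec_zero, add_zero, one_apply']
      · intro z
        rw [pow_zero, one_mul, one_apply']
    | succ k ih =>
      intro hk
      have hk' : k < n := hk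
      obtain ⟨g, hg, hg1, hg2⟩ := ih hk'.le
      obtain ⟨j, hj⟩ : ∃ j : Fin n, (⟨k, hk'⟩ : Fin n) ≠ j := by
        by_cases h0 : k = 0
        · refine ⟨⟨1, by omega⟩, ?_⟩
          intro h1
          have h2 := congrArg Fin.val h1
          simp only at h2
          omega
        · refine ⟨⟨0, by omega⟩, ?_⟩
          intro h1
          have h2 := congrArg Fin.val h1
          simp only at h2
          omega
      obtain ⟨Φ₀, Φ₁, h₀, h₁, hm₀, hm₁⟩ := hfl ⟨k, hk'⟩ j hj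
      have ht : |v ⟨k, hk'⟩| ≤ r q / 20 := by
        have h1 : ‖v ⟨k, hk'⟩‖ ≤ ‖v‖ := PiLp.norm_apply_le v _
        rw [Real.norm_eq_abs] at h1
        linarith
      obtain ⟨g', hg', hg1', hg2'⟩ := axis_translation hH hj hpos hb h₀ h₁ hm₀ hm₁ q _ ht
      refine ⟨g' * g, hH.mul_mem _ hg' _ hg, ?_, ?_⟩
      · intro z hz
        rw [mul_apply', hg1 z hz, truncVec_succ v k hk', hg1', add_assoc]
        have h1 : z + truncVec v k - c q = (z - x) + (x - c q) + truncVec v k := by abel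
        rw [h1]
        have h2 := norm_add_le ((z - x) + (x - c q)) (truncVec v k)
        have h3 := norm_add_le (z - x) (x - c q)
        have h4 := norm_truncVec_le v k
        rw [Metric.mem_closedBall, dist_eq_norm] at hz
        rw [dist_eq_norm] at hx
        linarith
      · intro z
        rw [mul_apply', pow_succ]
        have e1 := hg2 z
        have e2 := hg2' (g z)
        linarith
  obtain ⟨g, hg, hg1, hg2⟩ := key n le_rfl
  refine ⟨g, hg, ?_, hg2⟩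
  intro z hz
  rw [hg1 z hz, truncVec_self]

end Pool.Agent.W_MP_d1cfb0_an
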