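import Pool.Agent.W_MP_d1cfb0_an.GlobalTr

/-!
# Task G13: small twists everywhere, up to an error near a boundary point

Proof. `hloc` at `x = pinf` gives `δ₀, C` (wlog `C ≥ 1`; a translation by a small vector `v` near
`pinf` with `dist (m z) (zst n) ≤ C * dist z (zst n)`). For each `b ∈ K`, `hglob` gives `g_b ∈ H` and
`ρ_b > 0` with `g_b z = z + (b - pinf)` on `closedBall pinf ρ_b`. By compactness `K` is covered by
finitely many balls `ball b (min ρ_b δ₀ / 4)`, `b ∈ T`. As `g_b (zst n) = zst n` (`zst n ∉ O n`) and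
`g_b` is continuous there is `η > 0` such that for all `b ∈ T`, `dist z (zst n) < η` implies
`dist (g_b z) (zst n) < κ`. Let `μ = min over T of min ρ_b δ₀` and choose `k` with `ε k < ε₀`,
`ε k < μ / 4`, `dist (p k) pinf < μ / 4`, `C * (dist (p' k) (zst n) + ε k) < η`. Put `e = ε k`. Let
`c ∈ K`, `c ∈ ball b (min ρ_b δ₀ / 4)`, and `v = (c - b) - (p k - pinf)`, `‖v‖ < min ρ_b δ₀ / 2`; let
`m ∈ H` be the translation by `v` on `closedBall pinf δ₀`, and `g = g_b * m`. For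
`z ∈ closedBall (p k) (ε k)`: `m z = z + v`, `‖z + v - pinf‖ ≤ ε k + μ/4 + ‖v‖ ≤ ρ_b`, so
`g z = z + v + (b - pinf) = z + (c - p k)`. By `conj_twist`,
`g * twist hij (p k) (prof bump (ε k) τ) * g⁻¹ = twist hij c (prof bump (ε k) τ)`; with `y` from
`henc`, `g * (twist * y) * g⁻¹ = twist hij c _ * (g * y * g⁻¹)` and `g * y * g⁻¹` is supported in
`g '' closedBall (p' k) (ε k) ⊆ ball (zst n) κ` (`SuppIn.conj`).
-/

namespace Pool.Agent.W_MP_d1cfb0_an

open Filter Topology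

theorem partB_exists_pos {X : Type*} (T : Finset X) (r : X → ℝ) (hr : ∀ b ∈ T, 0 < r b) :
    ∃ μ : ℝ, 0 < μ ∧ ∀ b ∈ T, μ ≤ r b := by
  classical
  induction T using Finset.induction_on with
  | empty => exact ⟨1, one_pos, by simp⟩
  | insert a s ha ih =>
    obtain ⟨μ, hμ, h⟩ := ih fun b hb => hr b (Finset.mem_insert_of_mem hb)
    refine ⟨min μ (r a), lt_min hμ (hr a (Finset.mem_insert_self _ _)), fun b hb => ?_⟩
    rcases Finset.mem_insert.1 hb with rfl | hb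
    · exact min_le_right _ _
    · exact (min_le_left _ _).trans (h b hb)

theorem partB_zst_fixed {n : ℕ} {H : Set (E n ≃ₜ E n)} (hH : ClosedGroup n H) {g : E n ≃ₜ E n}
    (hg : g ∈ H) : g (zst n) = zst n := by
  rcases Nat.eq_zero_or_pos n with hn | hn
  · subst hn
    exact Subsingleton.elim _ _
  · refine hH.supp g hg _ fun h => ?_
    have h1 := h ⟨0, hn⟩
    have h2 : zst n ⟨0, hn⟩ = 1 / 2 := by simp [zst]
    rw [h2] at h1
    norm_num at h1

theorem partB {n : ℕ} {H : Set (E n ≃ₜ E n)} (hH : ClosedGroup n H) (p p' : ℕ → E n) (ε : ℕ → ℝ)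
    (pinf : E n) (hpinf : pinf ∈ O n) (hp : Tendsto p atTop (𝓝 pinf))
    (hp' : Tendsto p' atTop (𝓝 (zst n))) (hε : Tendsto ε atTop (𝓝 0)) (hε0 : ∀ k, 0 < ε k)
    (henc : ∀ (i j : Fin n) (hij : i ≠ j) (k : ℕ) (τ : ℝ), ∃ y : E n ≃ₜ E n,
      SuppIn y (Metric.closedBall (p' k) (ε k)) ∧ twist hij (p k) (prof bump (ε k) τ) * y ∈ H)
    (hloc : ∀ x ∈ O n, ∃ δ C : ℝ, 0 < δ ∧ ∀ v : E n, ‖v‖ ≤ δ → ∃ g ∈ H,
      (∀ z ∈ Metric.closedBall x δ, g z = z + v) ∧
        ∀ z, dist (g z) (zst n) ≤ C * dist z (zst n))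
    (K : Set (E n)) (hK : IsCompact K) (hKO : K ⊆ O n) (κ ε₀ : ℝ) (hκ : 0 < κ) (hε₀ : 0 < ε₀) :
    ∃ e : ℝ, 0 < e ∧ e < ε₀ ∧ ∀ (i j : Fin n) (hij : i ≠ j), ∀ c ∈ K, ∀ τ : ℝ,
      ∃ y : E n ≃ₜ E n, SuppIn y (Metric.ball (zst n) κ) ∧
        twist hij c (prof bump e τ) * y ∈ H := by
  classical
  obtain ⟨δ₀, C, hδ₀, hm⟩ := hloc pinf hpinf
  have hloc' : ∀ x ∈ O n, ∃ δ : ℝ, 0 < δ ∧ ∀ v : E n, ‖v‖ ≤ δ → ∃ g ∈ H,
      ∀ z ∈ Metric.closedBall x δ, g z = z + v := by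
    intro x hx
    obtain ⟨δ, C', hδ, h⟩ := hloc x hx
    refine ⟨δ, hδ, fun v hv => ?_⟩
    obtain ⟨g, hg, h1, _⟩ := h v hv
    exact ⟨g, hg, h1⟩
  have hglob : ∀ b : E n, ∃ g : E n ≃ₜ E n, ∃ ρ η : ℝ, 0 < ρ ∧ 0 < η ∧ (b ∈ K → g ∈ H ∧
      (∀ z ∈ Metric.closedBall pinf ρ, g z = z + (b - pinf)) ∧
      ∀ z, dist z (zst n) < η → dist (g z) (zst n) < κ) := by
    intro b
    by_cases hb : b ∈ K
    · obtain ⟨g, hg, ρ, hρ, h⟩ := global_translation hH hloc' pinf b hpinf (hKO hb)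
      have h1 := Metric.continuousAt_iff.1 (g.continuous.continuousAt (x := zst n)) κ hκ
      obtain ⟨η, hη, h2⟩ := h1
      rw [partB_zst_fixed hH hg] at h2
      exact ⟨g, ρ, η, hρ, hη, fun _ => ⟨hg, h, fun z hz => h2 hz⟩⟩
    · exact ⟨1, 1, 1, one_pos, one_pos, fun h => absurd h hb⟩
  choose g ρ η hρ hη hg using hglob
  set rr : E n → ℝ := fun b => min (ρ b) δ₀ with hrr
  have hrr0 : ∀ b, 0 < rr b := fun b => lt_min (hρ b) hδ₀
  obtain ⟨T, hTK, hT⟩ := hK.elim_nhds_subcover (fun b => Metric.ball b (rr b / 4))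
    fun b _ => Metric.ball_mem_nhds b (by have := hrr0 b; linarith)
  obtain ⟨μ, hμ, hμT⟩ := partB_exists_pos T rr fun b _ => hrr0 b
  obtain ⟨ζ, hζ, hζT⟩ := partB_exists_pos T η fun b _ => hη b
  set C' : ℝ := max C 0 with hC'
  have hC'0 : 0 ≤ C' := le_max_right _ _
  have e1 : ∀ᶠ k in atTop, ε k < ε₀ := hε.eventually_lt_const hε₀
  have e2 : ∀ᶠ k in atTop, ε k < μ / 4 := hε.eventually_lt_const (by linarith)
  have e3 : ∀ᶠ k in atTop, dist (p k) pinf < μ / 4 :=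
    (tendsto_iff_dist_tendsto_zero.1 hp).eventually_lt_const (by linarith)
  have e4 : ∀ᶠ k in atTop, C' * (dist (p' k) (zst n) + ε k) < ζ := by
    have h1 : Tendsto (fun k => C' * (dist (p' k) (zst n) + ε k)) atTop (𝓝 (C' * (0 + 0))) :=
      ((tendsto_iff_dist_tendsto_zero.1 hp').add hε).const_mul C'
    refine h1.eventually_lt_const ?_
    simpa using hζ
  obtain ⟨k, ⟨⟨k1, k2⟩, k3⟩, k4⟩ := ((e1.and e2).and e3 |>.and e4).exists
  refine ⟨ε k, hε0 k, k1, ?_⟩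
  intro i j hij c hc τ
  obtain ⟨b, hbT, hcb⟩ : ∃ b ∈ T, c ∈ Metric.ball b (rr b / 4) := by
    have := hT hc
    simpa using this
  obtain ⟨hgH, hgt, hgz⟩ := hg b (hTK b hbT)
  have hμb := hμT b hbT
  have hζb := hζT b hbT
  have hr1 : rr b ≤ ρ b := min_le_left _ _
  have hr2 : rr b ≤ δ₀ := min_le_right _ _
  rw [Metric.mem_ball, dist_eq_norm] at hcb
  rw [dist_eq_norm] at k3
  set v : E n := (c - b) - (p k - pinf) with hv
  have hvn : ‖v‖ ≤ rr b / 2 := by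
    have := norm_sub_le (c - b) (p k - pinf)
    linarith
  obtain ⟨m, hmH, hmt, hmz⟩ := hm v (by have := hrr0 b; linarith)
  have hG : ∀ z ∈ Metric.closedBall (p k) (ε k), (g b * m) z = z + (c - p k) := by
    intro z hz
    rw [Metric.mem_closedBall, dist_eq_norm] at hz
    have h1 : ‖z - pinf‖ ≤ μ / 2 := by
      have h2 : z - pinf = (z - p k) + (p k - pinf) := by abel
      have h3 := norm_add_le (z - p k) (p k - pinf)
      rw [← h2] at h3
      linarith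
    have h4 : m z = z + v := by
      refine hmt z ?_
      rw [Metric.mem_closedBall, dist_eq_norm]
      linarith
    have h5 : z + v ∈ Metric.closedBall pinf (ρ b) := by
      rw [Metric.mem_closedBall, dist_eq_norm]
      have h2 : z + v - pinf = (z - pinf) + v := by abel
      have h3 := norm_add_le (z - pinf) v
      rw [← h2] at h3
      linarith
    rw [mul_apply', h4, hgt _ h5, hv]
    abel
  obtain ⟨y, hy, hyH⟩ := henc i j hij k τ
  have hconj := conj_twist hij (p k) (prof bump (ε k) τ)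
    (prof_eq_zero isShape_bump (hε0 k) τ) (g b * m) (c - p k) hG
  rw [add_sub_cancel] at hconj
  refine ⟨(g b * m) * y * (g b * m)⁻¹, (hy.conj (g b * m)).mono ?_, ?_⟩
  · rintro _ ⟨z, hz, rfl⟩
    rw [Metric.mem_ball, mul_apply']
    apply hgz
    rw [Metric.mem_closedBall] at hz
    have h1 : dist z (zst n) ≤ dist (p' k) (zst n) + ε k := by
      have := dist_triangle z (p' k) (zst n)
      linarith
    have h2 : dist (m z) (zst n) ≤ C' * dist z (zst n) :=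
      (hmz z).trans (mul_le_mul_of_nonneg_right (le_max_left _ _) dist_nonneg)
    have h3 := mul_le_mul_of_nonneg_left h1 hC'0
    linarith
  · have h1 : twist hij c (prof bump (ε k) τ) * ((g b * m) * y * (g b * m)⁻¹) =
        (g b * m) * (twist hij (p k) (prof bump (ε k) τ) * y) * (g b * m)⁻¹ := by
      rw [← hconj]
      group
    rw [h1]
    have hGH := hH.mul_mem _ hgH _ hmH
    exact hH.mul_mem _ (hH.mul_mem _ hGH _ hyH) _ (hH.inv_mem _ hGH)

end Pool.Agent.W_MP_d1cfb0_an
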