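import Pool.Agent.W_MP_d1cfb0_an.Twist

/-!
# Task G9: a finitely coloured Whitney family of balls

Proof. For `q = (k, z) ∈ ℕ × (Fin n → ℤ)` let `c q = 2^(-k) z`, `r q = 16 n 2^(-k)`, and let
`d x = min_i (1/2 - |x i|)` be the (sup norm) depth of `x ∈ O n`. Put `A = 64 n`. The colours are
`l = (a, b) ∈ Fin 4 × (Fin n → Fin (128 n))`; `A l` is the set of all `(k, z)` with `k ≡ a mod 4`,
`z i ≡ b i mod 128 n` for all `i`, `A 2^(-k) ≤ d (c q) ≤ 4 A 2^(-k)` (write the second condition as: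
for all `i`, `|c q i| ≤ 1/2 - A 2^(-k)` and for some `i`, `1/2 - 4 A 2^(-k) ≤ |c q i|`).
* `sub`: `|x i - c q i| ≤ ‖x - c q‖ ≤ 48 n 2^(-k) < A 2^(-k) ≤ 1/2 - |c q i|`.
* `disj`: `q = (k, z) ≠ q' = (k', z')` in `A l`. If `k = k'` then some `|z i - z' i| ≥ 128 n`, so
  `dist (c q) (c q') ≥ 128 n 2^(-k) > 64 n 2^(-k) = 2 r q + 2 r q'`. If `k' < k`, then
  `k ≥ k' + 4` and, with `i` such that `1/2 - |c q i| ≤ 4 A 2^(-k) ≤ (A/4) 2^(-k')`, and
  `1/2 - |c q' i| ≥ A 2^(-k')`: `dist (c q) (c q') ≥ (3/4) A 2^(-k') = 48 n 2^(-k')`, which is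
  `> 2 r q + 2 r q' ≤ 32 n (1 + 1/16) 2^(-k')`.
* `small`: `r q ≥ ε` leaves finitely many `k`, and for each `k` finitely many `z` (`|z i| ≤ 2^k`).
* `cover`: let `x ∈ O n`, `d = d x ∈ (0, 1/2]`; let `k` be the least natural number with
  `d 2^k ≥ (3/2) A`; then `k ≥ 1` and `d 2^k < 3 A`. Let `z i = round (2^k x i)`; then
  `|c q i - x i| ≤ 2^(-k)/2`, so `A 2^(-k) ≤ d (c q) ≤ 4 A 2^(-k)`, and
  `‖x - c q‖ ≤ √n 2^(-k)/2 ≤ n 2^(-k) / 2 = r q / 32`.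
-/

namespace Pool.Agent.W_MP_d1cfb0_an

/-- coordinates are bounded by the norm -/
theorem wh_abs_le {n : ℕ} (x y : E n) (i : Fin n) : |x i - y i| ≤ dist x y := by
  rw [dist_eq_norm]
  have h := PiLp.norm_apply_le (p := 2) (x - y) i
  simpa [Real.norm_eq_abs] using h

theorem wh_dist_le {n : ℕ} (hn : 1 ≤ n) (x y : E n) {s : ℝ} (hs : 0 ≤ s)
    (h : ∀ i, |x i - y i| ≤ s) : dist x y ≤ n * s := by
  have hN : (1 : ℝ) ≤ n := by exact_mod_cast hn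
  rw [dist_eq_norm]
  have h1 : ‖x - y‖ ^ 2 ≤ (n * s) ^ 2 := by
    rw [EuclideanSpace.real_norm_sq_eq]
    calc ∑ i, (x - y) i ^ 2 ≤ ∑ _i : Fin n, s ^ 2 := by
          refine Finset.sum_le_sum fun i _ => ?_
          rw [← sq_abs]
          exact pow_le_pow_left₀ (abs_nonneg _) (by simpa using h i) 2
      _ = n * s ^ 2 := by simp
      _ ≤ (n * s) ^ 2 := by nlinarith [sq_nonneg s]
  exact (sq_le_sq₀ (norm_nonneg _) (by positivity)).1 h1

/-- the centre -/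
noncomputable def whC (n : ℕ) (q : ℕ × (Fin n → ℤ)) : E n :=
  WithLp.toLp 2 (fun i => (1 / 2 : ℝ) ^ q.1 * (q.2 i : ℝ))

/-- the radius -/
noncomputable def whR (n : ℕ) (q : ℕ × (Fin n → ℤ)) : ℝ := 16 * n * (1 / 2 : ℝ) ^ q.1

/-- the colour classes -/
def whA (n : ℕ) (l : ZMod 4 × (Fin n → ZMod (128 * n))) : Set (ℕ × (Fin n → ℤ)) :=
  {q | ((q.1 : ℕ) : ZMod 4) = l.1 ∧ (∀ i, ((q.2 i : ℤ) : ZMod (128 * n)) = l.2 i) ∧
    (∀ i, |whC n q i| ≤ 1 / 2 - 64 * n * (1 / 2 : ℝ) ^ q.1) ∧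
    ∃ i, 1 / 2 - 256 * n * (1 / 2 : ℝ) ^ q.1 ≤ |whC n q i|}

theorem whC_apply (n : ℕ) (q : ℕ × (Fin n → ℤ)) (i : Fin n) :
    whC n q i = (1 / 2 : ℝ) ^ q.1 * (q.2 i : ℝ) := rfl

/-- far levels -/
theorem wh_far {n : ℕ} (hn : 1 ≤ n) {l : ZMod 4 × (Fin n → ZMod (128 * n))}
    {q q' : ℕ × (Fin n → ℤ)} (hq : q ∈ whA n l) (hq' : q' ∈ whA n l) (hlt : q'.1 < q.1) :
    2 * whR n q + 2 * whR n q' < dist (whC n q) (whC n q') := by
  have hN : (1 : ℝ) ≤ n := by exact_mod_cast hn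
  obtain ⟨h1, -, -, i, hi⟩ := hq
  obtain ⟨h1', -, h3', -⟩ := hq'
  have hmod : q.1 % 4 = q'.1 % 4 := by
    have := h1.trans h1'.symm
    exact (ZMod.natCast_eq_natCast_iff' q.1 q'.1 4).mp this
  have hk : q'.1 + 4 ≤ q.1 := by omega
  have ht : (1 / 2 : ℝ) ^ q.1 ≤ (1 / 2 : ℝ) ^ q'.1 / 16 := by
    calc (1 / 2 : ℝ) ^ q.1 ≤ (1 / 2 : ℝ) ^ (q'.1 + 4) :=
          pow_le_pow_of_le_one (by norm_num) (by norm_num) hk
      _ = (1 / 2 : ℝ) ^ q'.1 / 16 := by rw [pow_add]; norm_num; ring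
  have hpos : 0 < (1 / 2 : ℝ) ^ q'.1 := by positivity
  have hpos' : 0 < (1 / 2 : ℝ) ^ q.1 := by positivity
  have h4 := wh_abs_le (whC n q) (whC n q') i
  have h5 := abs_sub_abs_le_abs_sub (whC n q i) (whC n q' i)
  have h6 := h3' i
  unfold whR
  have h7 : (n : ℝ) * (1 / 2 : ℝ) ^ q.1 ≤ n * ((1 / 2 : ℝ) ^ q'.1 / 16) :=
    mul_le_mul_of_nonneg_left ht (by positivity)
  have h8 : 0 < (n : ℝ) * (1 / 2 : ℝ) ^ q'.1 := by positivity
  nlinarith

theorem exists_whitney {n : ℕ} (hn : 1 ≤ n) :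
    ∃ (L : Type) (_ : Finite L) (ι : Type) (_ : Countable ι) (A : L → Set ι) (c : ι → E n)
      (r : ι → ℝ),
      (∀ l, ∀ q ∈ A l, 0 < r q) ∧
      (∀ l, ∀ q ∈ A l, ∀ q' ∈ A l, q ≠ q' →
        Disjoint (Metric.closedBall (c q) (2 * r q)) (Metric.closedBall (c q') (2 * r q'))) ∧
      (∀ l, ∀ q ∈ A l, Metric.closedBall (c q) (3 * r q) ⊆ O n) ∧
      (∀ l, ∀ ε : ℝ, 0 < ε → {q | q ∈ A l ∧ ε ≤ r q}.Finite) ∧
      ∀ x ∈ O n, ∃ l, ∃ q ∈ A l, dist x (c q) ≤ r q / 32 := by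
  have hN : (1 : ℝ) ≤ n := by exact_mod_cast hn
  haveI : NeZero (128 * n) := ⟨by omega⟩
  refine ⟨ZMod 4 × (Fin n → ZMod (128 * n)), inferInstance, ℕ × (Fin n → ℤ), inferInstance,
    whA n, whC n, whR n, ?_, ?_, ?_, ?_, ?_⟩
  · intro l q _
    unfold whR
    positivity
  · intro l q hq q' hq' hne
    apply Metric.closedBall_disjoint_closedBall
    rcases lt_trichotomy q.1 q'.1 with h | h | h
    · have := wh_far hn hq' hq h
      rw [dist_comm] at this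
      linarith
    · have hz : q.2 ≠ q'.2 := fun h' => hne (Prod.ext h h')
      obtain ⟨i, hi⟩ := Function.ne_iff.mp hz
      have h1 := (hq.2.1 i).trans (hq'.2.1 i).symm
      rw [ZMod.intCast_eq_intCast_iff_dvd_sub] at h1
      have h2 : q'.2 i - q.2 i ≠ 0 := sub_ne_zero.mpr (Ne.symm hi)
      have h3 : (128 * n : ℤ) ≤ |q'.2 i - q.2 i| := by
        have := Int.le_of_dvd (abs_pos.mpr h2) ((dvd_abs _ _).mpr h1)
        push_cast at this
        exact this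
      have h4 : (128 * n : ℝ) ≤ |(q'.2 i : ℝ) - q.2 i| := by exact_mod_cast h3
      have h5 := wh_abs_le (whC n q) (whC n q') i
      have hpos : 0 < (1 / 2 : ℝ) ^ q'.1 := by positivity
      have h6 : |whC n q i - whC n q' i| = (1 / 2 : ℝ) ^ q'.1 * |(q'.2 i : ℝ) - q.2 i| := by
        rw [whC_apply, whC_apply, h, ← mul_sub, abs_mul, abs_of_pos hpos, abs_sub_comm]
      rw [h6] at h5
      have h7 : (1 / 2 : ℝ) ^ q'.1 * (128 * n) ≤ (1 / 2 : ℝ) ^ q'.1 * |(q'.2 i : ℝ) - q.2 i| :=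
        mul_le_mul_of_nonneg_left h4 hpos.le
      unfold whR
      rw [h]
      have h8 : 0 < (n : ℝ) * (1 / 2 : ℝ) ^ q'.1 := by positivity
      nlinarith
    · exact wh_far hn hq hq' h
  · intro l q hq x hx i
    have h1 := wh_abs_le x (whC n q) i
    have h2 := hq.2.2.1 i
    have h3 : dist x (whC n q) ≤ 3 * whR n q := hx
    unfold whR at h3
    have h4 := abs_sub_abs_le_abs_sub (x i) (whC n q i)
    have h8 : 0 < (n : ℝ) * (1 / 2 : ℝ) ^ q.1 := by positivity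
    nlinarith
  · intro l ε hε
    have hlim : ∃ K : ℕ, 16 * n * (1 / 2 : ℝ) ^ K < ε := by
      have h16 : (0 : ℝ) < 16 * n := by positivity
      obtain ⟨K, hK⟩ := exists_pow_lt_of_lt_one (div_pos hε h16)
        (by norm_num : (1 / 2 : ℝ) < 1)
      refine ⟨K, ?_⟩
      rw [lt_div_iff₀ h16] at hK
      linarith
    obtain ⟨K, hK⟩ := hlim
    have hfin : ((Set.Iio K) ×ˢ (Set.pi Set.univ fun _ : Fin n =>
        Set.Icc (-(2 ^ K : ℤ)) (2 ^ K))).Finite :=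
      (Set.finite_Iio K).prod (Set.Finite.pi fun _ => Set.finite_Icc _ _)
    refine hfin.subset ?_
    rintro q ⟨hq, hqr⟩
    have hqK : q.1 < K := by
      by_contra hlt
      have h1 : (1 / 2 : ℝ) ^ q.1 ≤ (1 / 2 : ℝ) ^ K :=
        pow_le_pow_of_le_one (by norm_num) (by norm_num) (Nat.not_lt.mp hlt)
      have h2 : 16 * (n : ℝ) * (1 / 2 : ℝ) ^ q.1 ≤ 16 * n * (1 / 2 : ℝ) ^ K :=
        mul_le_mul_of_nonneg_left h1 (by positivity)
      unfold whR at hqr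
      linarith
    refine ⟨hqK, fun i _ => ?_⟩
    have h1 := hq.2.2.1 i
    rw [whC_apply] at h1
    have hpos : 0 < (1 / 2 : ℝ) ^ q.1 := by positivity
    rw [abs_mul, abs_of_pos hpos] at h1
    have h2 : (1 / 2 : ℝ) ^ q.1 * |(q.2 i : ℝ)| ≤ 1 := by
      have : 0 < (n : ℝ) * (1 / 2 : ℝ) ^ q.1 := by positivity
      linarith
    have h3 : |(q.2 i : ℝ)| ≤ 2 ^ q.1 := by
      have h4 : (2 : ℝ) ^ q.1 * (1 / 2 : ℝ) ^ q.1 = 1 := by
        rw [← mul_pow]; norm_num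
      have h5 : (0 : ℝ) < 2 ^ q.1 := by positivity
      calc |(q.2 i : ℝ)| = 2 ^ q.1 * ((1 / 2 : ℝ) ^ q.1 * |(q.2 i : ℝ)|) := by
            rw [← mul_assoc, h4, one_mul]
        _ ≤ 2 ^ q.1 * 1 := mul_le_mul_of_nonneg_left h2 h5.le
        _ = 2 ^ q.1 := mul_one _
    have h4 : |(q.2 i : ℝ)| ≤ 2 ^ K :=
      h3.trans (pow_le_pow_right₀ (by norm_num) hqK.le)
    have h5 : |q.2 i| ≤ 2 ^ K := by exact_mod_cast h4
    exact Set.mem_Icc.mpr (abs_le.mp h5)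
  · intro x hx
    haveI : Nonempty (Fin n) := ⟨⟨0, by omega⟩⟩
    obtain ⟨i₀, hi₀⟩ := Finite.exists_min (fun i => 1 / 2 - |x i|)
    obtain ⟨d, hd⟩ : ∃ d : ℝ, d = 1 / 2 - |x i₀| := ⟨_, rfl⟩
    have hd0 : 0 < d := by have := hx i₀; rw [hd]; linarith
    have hd1 : d ≤ 1 / 2 := by rw [hd]; have := abs_nonneg (x i₀); linarith
    have hex : ∃ k : ℕ, 96 * n * (1 / 2 : ℝ) ^ k ≤ d := by
      have h96 : (0 : ℝ) < 96 * n := by positivity
      obtain ⟨K, hK⟩ := exists_pow_lt_of_lt_one (div_pos hd0 h96)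
        (by norm_num : (1 / 2 : ℝ) < 1)
      refine ⟨K, ?_⟩
      rw [lt_div_iff₀ h96] at hK
      linarith
    classical
    obtain ⟨k, hk, hkmin⟩ : ∃ k : ℕ, 96 * n * (1 / 2 : ℝ) ^ k ≤ d ∧
        d < 192 * n * (1 / 2 : ℝ) ^ k := by
      refine ⟨Nat.find hex, Nat.find_spec hex, ?_⟩
      have hne : Nat.find hex ≠ 0 := by
        intro h0
        have h1 := Nat.find_spec hex
        rw [h0] at h1
        norm_num at h1
        linarith
      obtain ⟨m, hm⟩ := Nat.exists_eq_succ_of_ne_zero hne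
      have h2 := Nat.find_min hex (m := m) (by omega)
      rw [not_le] at h2
      rw [hm, pow_succ]
      linarith
    have hpos : 0 < (1 / 2 : ℝ) ^ k := by positivity
    have hN2 : (1 / 2 : ℝ) ^ k ≤ n * (1 / 2 : ℝ) ^ k := by
      nlinarith
    obtain ⟨z, hz⟩ : ∃ z : Fin n → ℤ, ∀ i, |x i - (1 / 2 : ℝ) ^ k * z i| ≤ (1 / 2 : ℝ) ^ k / 2 := by
      refine ⟨fun i => round (2 ^ k * x i), fun i => ?_⟩
      have h1 := abs_sub_round (2 ^ k * x i)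
      have h4 : (1 / 2 : ℝ) ^ k * (2 : ℝ) ^ k = 1 := by
        rw [← mul_pow]; norm_num
      have h2 : x i - (1 / 2 : ℝ) ^ k * (round (2 ^ k * x i) : ℤ) =
          (1 / 2 : ℝ) ^ k * (2 ^ k * x i - (round (2 ^ k * x i) : ℤ)) := by
        rw [mul_sub, ← mul_assoc, h4, one_mul]
      rw [h2, abs_mul, abs_of_pos hpos]
      have := mul_le_mul_of_nonneg_left h1 hpos.le
      linarith
    have hcz : ∀ i, |x i - whC n (k, z) i| ≤ (1 / 2 : ℝ) ^ k / 2 := by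
      intro i
      rw [whC_apply]
      exact hz i
    refine ⟨(((k : ℕ) : ZMod 4), fun i => ((z i : ℤ) : ZMod (128 * n))), (k, z),
      ⟨rfl, fun i => rfl, ?_, i₀, ?_⟩, ?_⟩
    · intro i
      have h1 := hcz i
      have h2 := hi₀ i
      have h3 := abs_sub_abs_le_abs_sub (whC n (k, z) i) (x i)
      rw [abs_sub_comm] at h3
      simp only at h2 ⊢
      linarith
    · have h1 := hcz i₀
      have h3 := abs_sub_abs_le_abs_sub (x i₀) (whC n (k, z) i₀)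
      simp only
      linarith
    · have h1 := wh_dist_le hn x (whC n (k, z)) (by positivity) hcz
      unfold whR
      simp only
      linarith

end Pool.Agent.W_MP_d1cfb0_an
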