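import Pool.Agent.W_MP_d1cfb0_an.Inner
import Pool.Agent.W_MP_d1cfb0_an.Fam
import Pool.Agent.W_MP_d1cfb0_an.Flow
import Pool.Agent.W_MP_d1cfb0_an.Encode
import Pool.Agent.W_MP_d1cfb0_an.Whitney
import Pool.Agent.W_MP_d1cfb0_an.LocalTr
import Pool.Agent.W_MP_d1cfb0_an.PartB

/-!
# The finite generating set
-/

namespace Pool.Agent.W_MP_d1cfb0_an

open MeasureTheory

/-- Pairs of distinct coordinates. -/
abbrev Pr (n : ℕ) : Type := {ij : Fin n × Fin n // ij.1 ≠ ij.2}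

theorem TwistFlow.mem {n : ℕ} {H : Set (E n ≃ₜ E n)} (hH : ClosedGroup n H) {i j : Fin n}
    {hij : i ≠ j} {β : C(ℝ, ℝ)} {ι : Type} {c : ι → E n} {r : ι → ℝ} {Φ : ℝ → (E n ≃ₜ E n)}
    (h : TwistFlow hij β c r Φ) (h1 : Φ 1 ∈ H) (h2 : Φ (Real.sqrt 2) ∈ H) (τ : ℝ) : Φ τ ∈ H :=
  flow_mem hH Φ h.add h.supp h.dist_le h1 h2 τ

theorem isFam_shift {n : ℕ} (i : Fin n) {ι : Type} {A : Set ι} {c : ι → E n}
    {r : ι → ℝ} (h1 : ∀ q ∈ A, 0 < r q)
    (h2 : ∀ q ∈ A, ∀ q' ∈ A, q ≠ q' →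
        Disjoint (Metric.closedBall (c q) (2 * r q)) (Metric.closedBall (c q') (2 * r q')))
    (h3 : ∀ q ∈ A, Metric.closedBall (c q) (3 * r q) ⊆ O n)
    (h4 : ∀ ε : ℝ, 0 < ε → {q | q ∈ A ∧ ε ≤ r q}.Finite) (t : ℝ) (ht0 : 0 ≤ t) (ht : t ≤ 1) :
    IsFam (fun q : A => c q + (t * r q) • EuclideanSpace.single i (1 : ℝ)) (fun q : A => r q) := by
  have hsub : ∀ q : A, Metric.closedBall (c q + (t * r q) • EuclideanSpace.single i (1 : ℝ)) (r q)
      ⊆ Metric.closedBall (c q) (2 * r q) := by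
    intro q x hx
    rw [Metric.mem_closedBall] at hx ⊢
    have h5 : dist (c q + (t * r q) • EuclideanSpace.single i (1 : ℝ)) (c q) ≤ r q := by
      rw [dist_eq_norm, add_sub_cancel_left, norm_smul, EuclideanSpace.norm_single, norm_one,
        mul_one, Real.norm_eq_abs, abs_of_nonneg (mul_nonneg ht0 (h1 q q.2).le)]
      exact mul_le_of_le_one_left (h1 q q.2).le ht
    have h6 := dist_triangle x (c q + (t * r q) • EuclideanSpace.single i (1 : ℝ)) (c q)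
    linarith
  refine ⟨fun q => h1 q q.2, ?_, ?_, ?_⟩
  · intro q q' hqq'
    exact (h2 q q.2 q' q'.2 (fun h => hqq' (Subtype.ext h))).mono (hsub q) (hsub q')
  · intro q
    refine (hsub q).trans ((Metric.closedBall_subset_closedBall ?_).trans (h3 q q.2))
    linarith [h1 q q.2]
  · intro ε hε
    refine Set.Finite.of_finite_image (f := (Subtype.val : A → ι)) ?_
      Subtype.val_injective.injOn
    refine (h4 ε hε).subset ?_
    rintro _ ⟨q, hq, rfl⟩
    exact ⟨q.2, hq⟩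

theorem exists_generators {n : ℕ} (hn : 2 ≤ n) :
    ∃ G : Set (E n ≃ₜ E n), G.Finite ∧
      (∀ g ∈ G, SuppIn g (O n) ∧ MeasurePreserving g volume volume) ∧
      ∀ H : Set (E n ≃ₜ E n), ClosedGroup n H → G ⊆ H → HasTwists n H := by
  classical
  obtain ⟨S, p, p', ε, pinf, hSmp, hSO, hpinf, hp, hp', hε, hfam, henc⟩ := exists_encode hn
  obtain ⟨L, hL, ι, hι, A, c, r, w1, w2, w3, w4, w5⟩ := exists_whitney (n := n) (by omega)
  choose Φ hΦ using fun ij : Pr n => exists_twistFlow ij.2 isShape_bump hfam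
  choose Φ₀ hΦ₀ using fun x : L × Pr n => exists_twistFlow x.2.2 isShape_ramp
    (isFam_shift x.2.1.1 (w1 x.1) (w2 x.1) (w3 x.1) (w4 x.1) 0 le_rfl zero_le_one)
  choose Φ₁ hΦ₁ using fun x : L × Pr n => exists_twistFlow x.2.2 isShape_ramp
    (isFam_shift x.2.1.1 (w1 x.1) (w2 x.1) (w3 x.1) (w4 x.1) (1 / 8) (by norm_num) (by norm_num))
  refine ⟨{S} ∪ Set.range (fun ij => Φ ij 1) ∪ Set.range (fun ij => Φ ij (Real.sqrt 2)) ∪
    Set.range (fun x => Φ₀ x 1) ∪ Set.range (fun x => Φ₀ x (Real.sqrt 2)) ∪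
    Set.range (fun x => Φ₁ x 1) ∪ Set.range (fun x => Φ₁ x (Real.sqrt 2)), ?_, ?_, ?_⟩
  · refine Set.Finite.union (Set.Finite.union (Set.Finite.union (Set.Finite.union
      (Set.Finite.union (Set.Finite.union ?_ ?_) ?_) ?_) ?_) ?_) ?_
    · exact Set.finite_singleton _
    all_goals exact Set.finite_range _
  · intro g hg
    rcases hg with (((((hg | hg) | hg) | hg) | hg) | hg) | hg
    · rw [Set.mem_singleton_iff] at hg
      subst hg
      exact ⟨hSO, hSmp⟩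
    · obtain ⟨x, rfl⟩ := hg
      exact ⟨(hΦ x).supp _, (hΦ x).mp _⟩
    · obtain ⟨x, rfl⟩ := hg
      exact ⟨(hΦ x).supp _, (hΦ x).mp _⟩
    · obtain ⟨x, rfl⟩ := hg
      exact ⟨(hΦ₀ x).supp _, (hΦ₀ x).mp _⟩
    · obtain ⟨x, rfl⟩ := hg
      exact ⟨(hΦ₀ x).supp _, (hΦ₀ x).mp _⟩
    · obtain ⟨x, rfl⟩ := hg
      exact ⟨(hΦ₁ x).supp _, (hΦ₁ x).mp _⟩
    · obtain ⟨x, rfl⟩ := hg
      exact ⟨(hΦ₁ x).supp _, (hΦ₁ x).mp _⟩
  · intro H hH hGH
    have mS : S ∈ H := hGH (by simp)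
    have mΦ : ∀ x τ, Φ x τ ∈ H := fun x τ => (hΦ x).mem hH (hGH (by simp)) (hGH (by simp)) τ
    have mΦ₀ : ∀ x τ, Φ₀ x τ ∈ H := fun x τ => (hΦ₀ x).mem hH (hGH (by simp)) (hGH (by simp)) τ
    have mΦ₁ : ∀ x τ, Φ₁ x τ ∈ H := fun x τ => (hΦ₁ x).mem hH (hGH (by simp)) (hGH (by simp)) τ
    intro K hK hKO κ ε₀ hκ hε₀
    refine partB hH p p' ε pinf hpinf hp hp' hε hfam.pos ?_ ?_ K hK hKO κ ε₀ hκ hε₀
    · intro i j hij k τ
      exact henc H hH mS i j hij (Φ ⟨(i, j), hij⟩) (hΦ ⟨(i, j), hij⟩) (mΦ _) k τ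
    · intro x hx
      obtain ⟨l, q, hq, hxq⟩ := w5 x hx
      have hrq := w1 l q hq
      refine ⟨r q / (64 * (n + 1)), 16 ^ n, by positivity, ?_⟩
      intro v hv
      refine local_translation hn hH (c := fun q : A l => c q) (r := fun q : A l => r q)
        (fun q => w1 l q q.2) ?_ ?_ ⟨q, hq⟩ x hxq v hv
      · intro q' y hy
        by_contra hc
        rw [not_le] at hc
        apply zst_notMem (n := n) (by omega)
        apply w3 l q' q'.2
        rw [Metric.mem_closedBall] at hy ⊢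
        have h6 := dist_triangle_left (zst n) (c q') y
        rw [dist_comm y (c q')] at h6
        have h7 : dist (c q') y ≤ 2 * r q' := by
          rw [dist_comm]
          exact hy
        linarith
      · intro i j hij
        refine ⟨Φ₀ (l, ⟨(i, j), hij⟩), Φ₁ (l, ⟨(i, j), hij⟩), ?_, ?_, mΦ₀ _, mΦ₁ _⟩
        · have h8 := hΦ₀ (l, ⟨(i, j), hij⟩)
          simp only [zero_mul, zero_smul, add_zero] at h8
          exact h8
        · have h8 := hΦ₁ (l, ⟨(i, j), hij⟩)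
          have h9 : (fun q : A l => c q + (1 / 8 * r q) • EuclideanSpace.single i (1 : ℝ)) =
              fun q : A l => c q + (r q / 8) • EuclideanSpace.single i (1 : ℝ) := by
            funext q
            congr 2
            ring
          rw [← h9]
          exact h8

end Pool.Agent.W_MP_d1cfb0_an
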