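import Pool.Agent.W_MP_d1cfb0_an.Twist

/-!
# Task G12: translation germs are transitive on the open cube

Proof. For `x ∈ O n` let `G x` be the set of `y ∈ O n` for which there are `g ∈ H`, `ρ > 0` with
`g z = z + (y - x)` on `closedBall x ρ`. The relation `y ∈ G x` is an equivalence relation on `O n` (inverse:
`g` maps `closedBall x ρ` onto `closedBall y ρ`, so `g⁻¹ z = z + (x - y)` on `closedBall y ρ`;
transitivity: shrink `ρ`). By `hloc` every `y ∈ O n` has a neighbourhood contained in `G y` (with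
`O n` open). So `G x` is open and `O n \ G x` is open; `O n` is convex, hence preconnected, so
`G x = O n`.
-/

namespace Pool.Agent.W_MP_d1cfb0_an

theorem isOpen_O (n : ℕ) : IsOpen (O n) := by
  have h : O n = ⋂ i : Fin n, {x : E n | |x i| < 1 / 2} := by
    ext x
    simp [O]
  rw [h]
  exact isOpen_iInter_of_finite fun i => isOpen_lt (by fun_prop) continuous_const

theorem convex_O (n : ℕ) : Convex ℝ (O n) := by
  intro x hx y hy s t hs ht hst i
  have h1 := hx i
  have h2 := hy i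
  rw [abs_lt] at h1 h2
  have h3 : (s • x + t • y) i = s * x i + t * y i := by simp
  rw [h3, abs_lt]
  rcases hs.eq_or_lt with h0 | h0
  · have ht1 : t = 1 := by linarith
    subst ht1
    rw [← h0]
    constructor <;> linarith
  · constructor <;> nlinarith

theorem global_translation {n : ℕ} {H : Set (E n ≃ₜ E n)} (hH : ClosedGroup n H)
    (hloc : ∀ x ∈ O n, ∃ δ : ℝ, 0 < δ ∧ ∀ v : E n, ‖v‖ ≤ δ → ∃ g ∈ H,
      ∀ z ∈ Metric.closedBall x δ, g z = z + v) (x y : E n) (hx : x ∈ O n) (hy : y ∈ O n) :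
    ∃ g ∈ H, ∃ ρ : ℝ, 0 < ρ ∧ ∀ z ∈ Metric.closedBall x ρ, g z = z + (y - x) := by
  refine (convex_O n).isPreconnected.induction₂ (fun x y => ∃ g ∈ H, ∃ ρ : ℝ, 0 < ρ ∧
    ∀ z ∈ Metric.closedBall x ρ, g z = z + (y - x)) ?_ ?_ ?_ hx hy
  · intro x hx
    obtain ⟨δ, hδ, h⟩ := hloc x hx
    apply mem_nhdsWithin_of_mem_nhds
    filter_upwards [Metric.closedBall_mem_nhds x hδ] with y hy
    rw [Metric.mem_closedBall, dist_eq_norm] at hy
    obtain ⟨g, hg, hz⟩ := h (y - x) hy
    exact ⟨g, hg, δ, hδ, hz⟩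
  · rintro x y z - - - ⟨g, hg, ρ, hρ, h⟩ ⟨g', hg', ρ', hρ', h'⟩
    refine ⟨g' * g, hH.mul_mem _ hg' _ hg, min ρ ρ', lt_min hρ hρ', fun w hw => ?_⟩
    rw [mul_apply', h w (Metric.closedBall_subset_closedBall (min_le_left _ _) hw), h']
    · abel
    · have h1 := Metric.closedBall_subset_closedBall (min_le_right ρ ρ') hw
      rw [Metric.mem_closedBall, dist_eq_norm] at h1 ⊢
      have h2 : w + (y - x) - y = w - x := by abel
      rw [h2]
      exact h1
  · rintro x y - - ⟨g, hg, ρ, hρ, h⟩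
    refine ⟨g⁻¹, hH.inv_mem _ hg, ρ, hρ, fun w hw => ?_⟩
    have h1 : w + (x - y) ∈ Metric.closedBall x ρ := by
      rw [Metric.mem_closedBall, dist_eq_norm] at hw ⊢
      have h2 : w + (x - y) - x = w - y := by abel
      rw [h2]
      exact hw
    have h2 : g (w + (x - y)) = w := by
      rw [h _ h1]
      abel
    calc g⁻¹ w = g⁻¹ (g (w + (x - y))) := by rw [h2]
      _ = w + (x - y) := inv_apply_self' g _

end Pool.Agent.W_MP_d1cfb0_an
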