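import Pool.Agent.W_MP_d1cfb0_an.Cone

/-!
# Task A2: a divergence free field is approximately a combination of small twist fields

Proof. Let `m y = bump (‖y‖ / e) = max (1 - ‖y‖²/e²) 0`, `Z = ∫ m² > 0`,
`ψ_x y = m (x - y)² / Z`. `ψ_x` is `C^1` (`t ↦ (max t 0)²` is `C^1`), `ψ_x ≥ 0`, `∫ ψ_x = 1`,
`ψ_x y = 0` if `dist x y > e`, and `fderiv ψ_x y w = (4/(Z e²)) m (x - y) ⟪x - y, w⟫`. Let
`V x = ∫ z, ψ_x z • U z`; so `‖V x - U x‖ ≤ η`. By `cone_formula` (each coordinate, `φ = ψ_x`)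
`V x = ∫ t in 0..1, ∫ z, (4 t/(Z e²)) m (x - t z) (⟪x - t z, z⟫ U z - ⟪x - t z, U z⟫ z)`.
For all `y, u, z`: `⟪y, z⟫ u - ⟪y, u⟫ z = ∑_{i < j} (z i * u j - z j * u i) • jrot i j y`. Hence
`V = ∫_{[0,1] × Q n ρ} f`, where `f (t, z) = lfield e l_{t,z}` as an element of the Banach space
`BoundedContinuousFunction (E n) (E n)`, `l_{t,z}` the list of the twists with `i < j`, `c = t • z`,
`τ = (4 t/(Z e²)) (z i * U z j - z j * U z i)`. `f` is continuous on `[0,1] × Q n ρ` (a continuous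
function of the finitely many parameters; `bump (‖x - c‖/e) • jrot (x - c)` depends in a
Lipschitz way, uniformly in `x`, on `c`), so Bochner integrable; evaluation at `x` is a continuous
linear map and commutes with the integral. Let `M₀` bound the weights of the `l_{t,z}` (in terms of
`n, ρ, B, e`) and `M = M₀ * volume (Q n ρ)` (and at least `M₀`...). The set
`S = {lfield e l | centres in Q n ρ, lwt l ≤ M}` is convex (`lscale` and `++`), so its closure is
closed and convex and contains the average of the functions `volume (Q n ρ) • f (t, z) ∈ S`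
(`Convex.integral_mem` for the normalized measure), which is `V`. So there is `l` with
`‖lfield e l - V‖ ≤ η`. (`t • z ∈ Q n ρ` for `0 ≤ t ≤ 1`.) If you prefer, use Riemann sums instead.
-/

namespace Pool.Agent.W_MP_d1cfb0_an

open MeasureTheory

namespace HullAux

theorem lfield_eq_sum {n : ℕ} (e : ℝ) (l : List (TD n)) (x : E n) :
    lfield e l x = (l.map fun d => d.field e x).sum := by
  induction l with
  | nil => rfl
  | cons d l ih => rw [lfield, ih, List.map_cons, List.sum_cons]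

theorem lwt_eq_sum {n : ℕ} (l : List (TD n)) : lwt l = (l.map fun d => |d.τ|).sum := by
  induction l with
  | nil => rfl
  | cons d l ih => rw [lwt, ih, List.map_cons, List.sum_cons]

theorem lfield_append {n : ℕ} (e : ℝ) (l l' : List (TD n)) (x : E n) :
    lfield e (l ++ l') x = lfield e l x + lfield e l' x := by
  rw [lfield_eq_sum, lfield_eq_sum, lfield_eq_sum, List.map_append, List.sum_append]

theorem lwt_append {n : ℕ} (l l' : List (TD n)) : lwt (l ++ l') = lwt l + lwt l' := by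
  rw [lwt_eq_sum, lwt_eq_sum, lwt_eq_sum, List.map_append, List.sum_append]

theorem lfield_lscale {n : ℕ} (e t : ℝ) (l : List (TD n)) (x : E n) :
    lfield e (lscale t l) x = t • lfield e l x := by
  induction l with
  | nil => simp [lscale, lfield]
  | cons d l ih =>
    have h : lscale t (d :: l) = { d with τ := t * d.τ } :: lscale t l := rfl
    rw [h, lfield, ih, lfield, smul_add]
    congr 1
    simp only [TD.field]
    rw [smul_smul, mul_assoc]

theorem lwt_lscale {n : ℕ} (t : ℝ) (l : List (TD n)) : lwt (lscale t l) = |t| * lwt l := by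
  induction l with
  | nil => simp [lscale, lwt]
  | cons d l ih =>
    have h : lscale t (d :: l) = { d with τ := t * d.τ } :: lscale t l := rfl
    rw [h, lwt, ih, lwt, mul_add, abs_mul]

theorem lscale_c {n : ℕ} (t : ℝ) (l : List (TD n)) (S : Set (E n)) (h : ∀ d ∈ l, d.c ∈ S) :
    ∀ d ∈ lscale t l, d.c ∈ S := by
  intro d hd
  rw [lscale, List.mem_map] at hd
  obtain ⟨d', hd', rfl⟩ := hd
  exact h d' hd'

/-- Pairs of coordinates. -/
abbrev PT (n : ℕ) : Type := {p : Fin n × Fin n // p.1 < p.2}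

theorem inner_identity {n : ℕ} (y u z : E n) (k : Fin n) :
    inner ℝ y z * u k - inner ℝ y u * z k =
      ∑ p : PT n, (z p.1.1 * u p.1.2 - z p.1.2 * u p.1.1) * jrot p.1.1 p.1.2 y k := by
  have e1 : ∑ p : PT n, (z p.1.1 * u p.1.2 - z p.1.2 * u p.1.1) * jrot p.1.1 p.1.2 y k =
      ∑ a : Fin n, ∑ b : Fin n, if a < b then (z a * u b - z b * u a) * jrot a b y k else 0 := by
    rw [← Fintype.sum_prod_type' (f := fun a b : Fin n =>
      if a < b then (z a * u b - z b * u a) * jrot a b y k else 0)]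
    rw [← Finset.sum_filter]
    exact (Finset.sum_subtype (p := fun p : Fin n × Fin n => p.1 < p.2)
      (Finset.univ.filter fun p : Fin n × Fin n => p.1 < p.2) (by simp)
      (fun p => (z p.1 * u p.2 - z p.2 * u p.1) * jrot p.1 p.2 y k)).symm
  have e2 : ∀ a b : Fin n, (if a < b then (z a * u b - z b * u a) * jrot a b y k else 0) =
      (if a = k then (if k < b then (z b * u k - z k * u b) * y b else 0) else 0) +
      (if b = k then (if a < k then (z a * u k - z k * u a) * y a else 0) else 0) := by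
    intro a b
    by_cases hab : a < b
    · by_cases ha : a = k
      · subst ha
        have hb : b ≠ a := ne_of_gt hab
        rw [if_pos hab, if_pos rfl, if_pos hab, if_neg hb, jrot_apply_i]
        ring
      · by_cases hb : b = k
        · subst hb
          rw [if_pos hab, if_neg ha, if_pos rfl, if_pos hab, jrot_apply_j (ne_of_lt hab)]
          ring
        · rw [if_pos hab, if_neg ha, if_neg hb, jrot_apply_of_ne (Ne.symm ha) (Ne.symm hb)]
          ring
    · rw [if_neg hab]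
      by_cases ha : a = k
      · subst ha
        rw [if_pos rfl, if_neg hab]
        by_cases hb : b = a
        · subst hb
          rw [if_pos rfl, if_neg hab]
          ring
        · rw [if_neg hb]
          ring
      · rw [if_neg ha]
        by_cases hb : b = k
        · subst hb
          rw [if_pos rfl, if_neg hab]
          ring
        · rw [if_neg hb]
          ring
  rw [e1]
  simp only [e2, Finset.sum_add_distrib]
  have e3 : ∑ a : Fin n, ∑ b : Fin n,
      (if a = k then (if k < b then (z b * u k - z k * u b) * y b else 0) else 0) =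
      ∑ b : Fin n, (if k < b then (z b * u k - z k * u b) * y b else 0) := by
    rw [Finset.sum_comm]
    refine Finset.sum_congr rfl fun b _ => ?_
    rw [Finset.sum_ite_eq' Finset.univ k, if_pos (Finset.mem_univ _)]
  have e4 : ∑ a : Fin n, ∑ b : Fin n,
      (if b = k then (if a < k then (z a * u k - z k * u a) * y a else 0) else 0) =
      ∑ a : Fin n, (if a < k then (z a * u k - z k * u a) * y a else 0) := by
    refine Finset.sum_congr rfl fun b _ => ?_
    rw [Finset.sum_ite_eq' Finset.univ k, if_pos (Finset.mem_univ _)]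
  rw [e3, e4, ← Finset.sum_add_distrib]
  have e5 : inner ℝ y z = ∑ j, z j * y j := by
    simp [PiLp.inner_apply]
  have e6 : inner ℝ y u = ∑ j, u j * y j := by
    simp [PiLp.inner_apply]
  rw [e5, e6, Finset.sum_mul, Finset.sum_mul, ← Finset.sum_sub_distrib]
  refine Finset.sum_congr rfl fun j _ => ?_
  rcases lt_trichotomy k j with h | h | h
  · rw [if_pos h, if_neg (not_lt.2 h.le)]
    ring
  · subst h
    rw [if_neg (lt_irrefl _)]
    ring
  · rw [if_neg (not_lt.2 h.le), if_pos h]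
    ring

theorem hasDerivAt_posSq (t : ℝ) : HasDerivAt (fun s : ℝ => (max s 0) ^ 2) (2 * max t 0) t := by
  rcases lt_trichotomy t 0 with h | h | h
  · rw [max_eq_right h.le, mul_zero]
    refine (hasDerivAt_const t (0 : ℝ)).congr_of_eventuallyEq ?_
    filter_upwards [Iio_mem_nhds h] with s hs
    rw [max_eq_right (le_of_lt hs)]
    norm_num
  · subst h
    rw [max_self, mul_zero, hasDerivAt_iff_tendsto_slope_zero]
    have h1 : Filter.Tendsto (fun s : ℝ => max s 0) (nhdsWithin 0 {0}ᶜ) (nhds 0) := by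
      have h2 : Continuous fun s : ℝ => max s 0 := by fun_prop
      have h3 := h2.tendsto 0
      rw [max_self] at h3
      exact h3.mono_left nhdsWithin_le_nhds
    refine h1.congr' ?_
    filter_upwards [self_mem_nhdsWithin] with s hs
    have hs0 : s ≠ 0 := hs
    rw [zero_add, max_self, smul_eq_mul]
    rcases le_total s 0 with h4 | h4
    · rw [max_eq_right h4]
      ring
    · rw [max_eq_left h4]
      field_simp
      ring
  · rw [max_eq_left h.le]
    have h1 : HasDerivAt (fun s : ℝ => s ^ 2) (2 * t) t := by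
      simpa using hasDerivAt_pow 2 t
    refine h1.congr_of_eventuallyEq ?_
    filter_upwards [Ioi_mem_nhds h] with s hs
    rw [max_eq_left (le_of_lt hs)]

theorem contDiff_posSq : ContDiff ℝ 1 (fun s : ℝ => (max s 0) ^ 2) := by
  rw [contDiff_one_iff_deriv]
  refine ⟨fun t => (hasDerivAt_posSq t).differentiableAt, ?_⟩
  have h : deriv (fun s : ℝ => (max s 0) ^ 2) = fun t => 2 * max t 0 := by
    ext t
    exact (hasDerivAt_posSq t).deriv
  rw [h]
  fun_prop

theorem bump_eq (u : ℝ) : bump u = max (1 - u ^ 2) 0 := rfl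

theorem contDiff_psi {n : ℕ} (x : E n) (e Z : ℝ) :
    ContDiff ℝ 1 (fun z : E n => (bump (‖x - z‖ / e)) ^ 2 / Z) := by
  have h1 : ContDiff ℝ 1 (fun z : E n => 1 - (‖x - z‖ / e) ^ 2) := by
    have h2 : (fun z : E n => 1 - (‖x - z‖ / e) ^ 2) = fun z : E n => 1 - ‖x - z‖ ^ 2 / e ^ 2 := by
      ext z
      rw [div_pow]
    rw [h2]
    have h3 : ContDiff ℝ 1 (fun z : E n => ‖x - z‖ ^ 2) :=
      ContDiff.norm_sq ℝ (contDiff_const.sub contDiff_id)
    exact contDiff_const.sub (h3.div_const _)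
  exact (contDiff_posSq.comp h1).div_const _

theorem fderiv_psi {n : ℕ} (x : E n) (e Z : ℝ) (y w : E n) :
    fderiv ℝ (fun z : E n => (bump (‖x - z‖ / e)) ^ 2 / Z) y w =
      4 / (Z * e ^ 2) * bump (‖x - y‖ / e) * inner ℝ (x - y) w := by
  have h0 : HasFDerivAt (fun z : E n => x - z) (-(ContinuousLinearMap.id ℝ (E n))) y := by
    simpa using (hasFDerivAt_id y).const_sub x
  have h1 := h0.norm_sq
  have h2 : HasFDerivAt (fun z : E n => 1 - ‖x - z‖ ^ 2 / e ^ 2)
      (-((e ^ 2)⁻¹ • (2 • (innerSL ℝ (x - y)).comp (-(ContinuousLinearMap.id ℝ (E n)))))) y := by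
    have h3 := (h1.mul_const ((e ^ 2)⁻¹)).const_sub 1
    simpa [div_eq_mul_inv] using h3
  have h4 := ((hasDerivAt_posSq (1 - ‖x - y‖ ^ 2 / e ^ 2)).comp_hasFDerivAt y h2).mul_const Z⁻¹
  have h5 : (fun z : E n => (bump (‖x - z‖ / e)) ^ 2 / Z) =
      fun z : E n => ((fun s : ℝ => (max s 0) ^ 2) ∘ fun z : E n => 1 - ‖x - z‖ ^ 2 / e ^ 2) z *
        Z⁻¹ := by
    ext z
    simp only [Function.comp_apply, bump_eq, div_pow]
    rw [div_eq_mul_inv]
  rw [h5, h4.fderiv]
  simp only [smul_apply, neg_apply,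
    ContinuousLinearMap.comp_apply, ContinuousLinearMap.id_apply, innerSL_apply_apply, smul_eq_mul,
    bump_eq, div_pow, inner_neg_right, nsmul_eq_mul]
  push_cast
  by_cases hZ : Z = 0
  · subst hZ
    simp
  · by_cases he : e = 0
    · subst he
      simp
    · field_simp
      ring

theorem continuous_jrot {n : ℕ} (i j : Fin n) : Continuous fun x : E n => jrot i j x := by
  unfold jrot
  refine (PiLp.continuous_toLp 2 _).comp ?_
  refine continuous_pi fun k => ?_
  by_cases hi : k = i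
  · simp only [if_pos hi]
    fun_prop
  · simp only [if_neg hi]
    by_cases hj : k = j
    · simp only [if_pos hj]
      fun_prop
    · simp only [if_neg hj]
      fun_prop

/-- the basic localized rotation field -/
noncomputable def gf {n : ℕ} (e : ℝ) (i j : Fin n) (y : E n) : E n :=
  bump (‖y‖ / e) • jrot i j y

theorem continuous_gf {n : ℕ} (e : ℝ) (i j : Fin n) : Continuous (gf (n := n) e i j) := by
  unfold gf
  have h := continuous_jrot i j
  have h1 : Continuous fun y : E n => bump (‖y‖ / e) := by fun_prop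
  exact h1.smul h

theorem gf_eq_zero {n : ℕ} {e : ℝ} (he : 0 < e) (i j : Fin n) {y : E n} (hy : e ≤ ‖y‖) :
    gf e i j y = 0 := by
  unfold gf
  rw [isShape_bump.zero _ ((one_le_div he).2 hy), zero_smul]

theorem norm_gf_le {n : ℕ} {e : ℝ} (he : 0 < e) {i j : Fin n} (hij : i ≠ j) (y : E n) :
    ‖gf e i j y‖ ≤ e := by
  rcases le_or_gt e ‖y‖ with h | h
  · rw [gf_eq_zero he i j h, norm_zero]
    exact he.le
  · unfold gf
    rw [norm_smul, Real.norm_eq_abs]
    calc |bump (‖y‖ / e)| * ‖jrot i j y‖ ≤ 1 * ‖y‖ :=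
          mul_le_mul (isShape_bump.le_one _) (norm_jrot_le hij y) (norm_nonneg _) zero_le_one
      _ ≤ e := by linarith

theorem hasCompactSupport_gf {n : ℕ} {e : ℝ} (he : 0 < e) (i j : Fin n) :
    HasCompactSupport (gf (n := n) e i j) := by
  refine HasCompactSupport.intro (isCompact_closedBall (0 : E n) e) fun y hy => ?_
  rw [Metric.mem_closedBall, dist_zero_right, not_le] at hy
  exact gf_eq_zero he i j hy.le

theorem uniformContinuous_gf {n : ℕ} {e : ℝ} (he : 0 < e) (i j : Fin n) :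
    UniformContinuous (gf (n := n) e i j) :=
  (hasCompactSupport_gf he i j).uniformContinuous_of_continuous (continuous_gf e i j)

/-- translates of the basic field as bounded continuous functions -/
noncomputable def GB {n : ℕ} {e : ℝ} (he : 0 < e) {i j : Fin n} (hij : i ≠ j) (c : E n) :
    BoundedContinuousFunction (E n) (E n) :=
  BoundedContinuousFunction.ofNormedAddCommGroup (fun x => gf e i j (x - c))
    ((continuous_gf e i j).comp (continuous_id.sub continuous_const)) e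
    (fun x => norm_gf_le he hij (x - c))

theorem GB_apply {n : ℕ} {e : ℝ} (he : 0 < e) {i j : Fin n} (hij : i ≠ j) (c x : E n) :
    GB he hij c x = gf e i j (x - c) := rfl

theorem continuous_GB {n : ℕ} {e : ℝ} (he : 0 < e) {i j : Fin n} (hij : i ≠ j) :
    Continuous (fun c : E n => GB he hij c) := by
  rw [Metric.continuous_iff]
  intro c ε hε
  obtain ⟨δ, hδ, h⟩ := Metric.uniformContinuous_iff.1 (uniformContinuous_gf (n := n) he i j)
    (ε / 2) (half_pos hε)
  refine ⟨δ, hδ, fun c' hc' => ?_⟩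
  have h1 : dist (GB he hij c') (GB he hij c) ≤ ε / 2 := by
    rw [BoundedContinuousFunction.dist_le (half_pos hε).le]
    intro x
    rw [GB_apply, GB_apply]
    refine (h ?_).le
    rw [dist_eq_norm] at hc' ⊢
    have h2 : x - c' - (x - c) = -(c' - c) := by abel
    rw [h2, norm_neg]
    exact hc'
  exact lt_of_le_of_lt h1 (half_lt_self hε)

theorem isClosed_Q (n : ℕ) (ρ : ℝ) : IsClosed (Q n ρ) := by
  have h : Q n ρ = ⋂ i, {x : E n | |x i| ≤ ρ} := by
    ext x
    simp [Q]
  rw [h]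
  refine isClosed_iInter fun i => ?_
  exact isClosed_le (by fun_prop) continuous_const

theorem isBounded_Q (n : ℕ) (ρ : ℝ) : Bornology.IsBounded (Q n ρ) := by
  rw [isBounded_iff_forall_norm_le]
  refine ⟨Real.sqrt (∑ _i : Fin n, ρ ^ 2), fun x hx => ?_⟩
  rw [EuclideanSpace.norm_eq]
  refine Real.sqrt_le_sqrt (Finset.sum_le_sum fun i _ => ?_)
  rw [Real.norm_eq_abs]
  exact pow_le_pow_left₀ (abs_nonneg _) (hx i) 2

theorem isCompact_Q (n : ℕ) (ρ : ℝ) : IsCompact (Q n ρ) :=
  Metric.isCompact_of_isClosed_isBounded (isClosed_Q n ρ) (isBounded_Q n ρ)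

theorem abs_apply_le {n : ℕ} (x : E n) (i : Fin n) : |x i| ≤ ‖x‖ := by
  have := PiLp.norm_apply_le x i
  rwa [Real.norm_eq_abs] at this

theorem volume_Q_pos {n : ℕ} {ρ : ℝ} (hρ : 0 < ρ) : 0 < volume (Q n ρ) := by
  have h : Metric.ball (0 : E n) ρ ⊆ Q n ρ := by
    intro x hx i
    rw [Metric.mem_ball, dist_zero_right] at hx
    exact (abs_apply_le x i).trans hx.le
  exact lt_of_lt_of_le (Metric.measure_ball_pos volume 0 hρ) (measure_mono h)

theorem volume_Q_lt_top (n : ℕ) (ρ : ℝ) : volume (Q n ρ) < ⊤ := (isCompact_Q n ρ).measure_lt_top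

theorem smul_mem_Q {n : ℕ} {ρ : ℝ} {t : ℝ} (ht : t ∈ Set.Icc (0 : ℝ) 1) {z : E n}
    (hz : z ∈ Q n ρ) : t • z ∈ Q n ρ := by
  intro i
  rw [PiLp.smul_apply, smul_eq_mul, abs_mul, abs_of_nonneg ht.1]
  have h1 := hz i
  have h2 : 0 ≤ |z i| := abs_nonneg _
  nlinarith [ht.1, ht.2]

/-- coefficient of the pair `p` -/
noncomputable def tauf {n : ℕ} (κ : ℝ) (U : E n → E n) (q : ℝ × E n) (p : PT n) : ℝ :=
  κ * q.1 * (q.2 p.1.1 * U q.2 p.1.2 - q.2 p.1.2 * U q.2 p.1.1)

/-- the list of twists for the parameter `q` -/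
noncomputable def ltau {n : ℕ} (κ c0 : ℝ) (U : E n → E n) (q : ℝ × E n) : List (TD n) :=
  (Finset.univ : Finset (PT n)).toList.map fun p =>
    { i := p.1.1, j := p.1.2, hij := ne_of_lt p.2, c := q.1 • q.2, τ := c0 * tauf κ U q p }

/-- the field of the parameter `q` as a bounded continuous function -/
noncomputable def f0 {n : ℕ} {e : ℝ} (he : 0 < e) (κ : ℝ) (U : E n → E n) (q : ℝ × E n) :
    BoundedContinuousFunction (E n) (E n) :=
  ∑ p : PT n, tauf κ U q p • GB he (ne_of_lt p.2) (q.1 • q.2)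

theorem f0_apply {n : ℕ} {e : ℝ} (he : 0 < e) (κ : ℝ) (U : E n → E n) (q : ℝ × E n) (x : E n) :
    f0 he κ U q x = ∑ p : PT n, tauf κ U q p • gf e p.1.1 p.1.2 (x - q.1 • q.2) := by
  rw [f0, BoundedContinuousFunction.coe_sum, Finset.sum_apply]
  rfl

theorem continuous_tauf {n : ℕ} (κ : ℝ) {U : E n → E n} (hU : Continuous U) (p : PT n) :
    Continuous fun q : ℝ × E n => tauf κ U q p := by
  unfold tauf
  have h1 : ∀ i, Continuous fun q : ℝ × E n => q.2 i := fun i => by fun_prop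
  have h2 : ∀ i, Continuous fun q : ℝ × E n => U q.2 i := fun i => by fun_prop
  have h3 : Continuous fun q : ℝ × E n => κ * q.1 := by fun_prop
  exact h3.mul (((h1 _).mul (h2 _)).sub ((h1 _).mul (h2 _)))

theorem continuous_f0 {n : ℕ} {e : ℝ} (he : 0 < e) (κ : ℝ) {U : E n → E n} (hU : Continuous U) :
    Continuous fun q : ℝ × E n => f0 he κ U q := by
  unfold f0
  refine continuous_finsetSum _ fun p _ => ?_
  have h1 := continuous_tauf κ hU p
  have h2 : Continuous fun q : ℝ × E n => GB he (ne_of_lt p.2) (q.1 • q.2) :=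
    (continuous_GB he (ne_of_lt p.2)).comp (continuous_fst.smul continuous_snd)
  exact h1.smul h2

theorem lfield_ltau {n : ℕ} {e : ℝ} (he : 0 < e) (κ c0 : ℝ) (U : E n → E n) (q : ℝ × E n)
    (x : E n) : lfield e (ltau κ c0 U q) x = (c0 • f0 he κ U q) x := by
  rw [lfield_eq_sum, ltau, List.map_map, Finset.sum_map_toList]
  change _ = c0 • (f0 he κ U q x)
  rw [f0_apply, Finset.smul_sum]
  refine Finset.sum_congr rfl fun p _ => ?_
  simp only [Function.comp_apply, TD.field, gf]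
  rw [smul_smul, smul_smul, mul_assoc]

theorem lwt_ltau_le {n : ℕ} {κ c0 ρ B : ℝ} (hκ : 0 ≤ κ) (hc0 : 0 ≤ c0) (hρ : 0 ≤ ρ)
    {U : E n → E n} (hUB : ∀ x, ‖U x‖ ≤ B) {q : ℝ × E n}
    (h1 : q.1 ∈ Set.Icc (0 : ℝ) 1) (h2 : q.2 ∈ Q n ρ) :
    lwt (ltau κ c0 U q) ≤ c0 * (Fintype.card (PT n) * (κ * (2 * ρ * B))) := by
  have hB : 0 ≤ B := (norm_nonneg _).trans (hUB 0)
  rw [lwt_eq_sum, ltau, List.map_map, Finset.sum_map_toList]
  have h3 : ∀ p : PT n, |c0 * tauf κ U q p| ≤ c0 * (κ * (2 * ρ * B)) := by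
    intro p
    rw [abs_mul, abs_of_nonneg hc0]
    refine mul_le_mul_of_nonneg_left ?_ hc0
    rw [tauf, abs_mul, abs_mul, abs_of_nonneg hκ, abs_of_nonneg h1.1]
    have h4 : |q.2 p.1.1 * U q.2 p.1.2 - q.2 p.1.2 * U q.2 p.1.1| ≤ 2 * ρ * B := by
      refine (abs_sub _ _).trans ?_
      rw [abs_mul, abs_mul]
      have h5 : ∀ a b : Fin n, |q.2 a| * |U q.2 b| ≤ ρ * B := fun a b =>
        mul_le_mul (h2 a) ((abs_apply_le _ _).trans (hUB _)) (abs_nonneg _) hρ
      have h6 := h5 p.1.1 p.1.2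
      have h7 := h5 p.1.2 p.1.1
      linarith
    have h8 : κ * q.1 ≤ κ := by nlinarith [h1.2]
    have h9 : 0 ≤ κ * q.1 := mul_nonneg hκ h1.1
    calc κ * q.1 * |q.2 p.1.1 * U q.2 p.1.2 - q.2 p.1.2 * U q.2 p.1.1|
        ≤ κ * (2 * ρ * B) := mul_le_mul h8 h4 (abs_nonneg _) hκ
      _ = _ := rfl
  refine (Finset.sum_le_sum (g := fun _ : PT n => c0 * (κ * (2 * ρ * B)))
    fun p _ => h3 p).trans_eq ?_
  rw [Finset.sum_const, Finset.card_univ, nsmul_eq_mul]
  ring

theorem ltau_c {n : ℕ} (κ c0 : ℝ) (U : E n → E n) {ρ : ℝ} {q : ℝ × E n}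
    (h1 : q.1 ∈ Set.Icc (0 : ℝ) 1) (h2 : q.2 ∈ Q n ρ) : ∀ d ∈ ltau κ c0 U q, d.c ∈ Q n ρ := by
  intro d hd
  rw [ltau, List.mem_map] at hd
  obtain ⟨p, -, rfl⟩ := hd
  exact smul_mem_Q h1 h2

/-- the convex set of fields -/
def SS (n : ℕ) (ρ e M : ℝ) : Set (BoundedContinuousFunction (E n) (E n)) :=
  {F | ∃ l : List (TD n), (∀ d ∈ l, d.c ∈ Q n ρ) ∧ lwt l ≤ M ∧ ∀ x, F x = lfield e l x}

theorem convex_SS (n : ℕ) (ρ e M : ℝ) : Convex ℝ (SS n ρ e M) := by
  rintro F ⟨l, h1, h2, h3⟩ F' ⟨l', h1', h2', h3'⟩ a b ha hb hab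
  refine ⟨lscale a l ++ lscale b l', ?_, ?_, ?_⟩
  · intro d hd
    rcases List.mem_append.1 hd with h | h
    · exact lscale_c a l _ h1 d h
    · exact lscale_c b l' _ h1' d h
  · rw [lwt_append, lwt_lscale, lwt_lscale, abs_of_nonneg ha, abs_of_nonneg hb]
    calc a * lwt l + b * lwt l' ≤ a * M + b * M := by gcongr
      _ = M := by rw [← add_mul, hab, one_mul]
  · intro x
    rw [lfield_append, lfield_lscale, lfield_lscale, ← h3, ← h3']
    rfl

/-- the average belongs to the closure -/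
theorem avg_mem {n : ℕ} {ρ B e κ : ℝ} (hρ : 0 < ρ) (he : 0 < e) (hκ : 0 ≤ κ)
    {U : E n → E n} (hU : Continuous U) (hUB : ∀ x, ‖U x‖ ≤ B) :
    ∫ q in Set.Icc (0 : ℝ) 1 ×ˢ Q n ρ, f0 he κ U q ∈
      closure (SS n ρ e (volume.real (Q n ρ) * (Fintype.card (PT n) * (κ * (2 * ρ * B))))) := by
  set T : Set (ℝ × E n) := Set.Icc (0 : ℝ) 1 ×ˢ Q n ρ with hT
  have hTc : IsCompact T := isCompact_Icc.prod (isCompact_Q n ρ)
  have hTm : volume T = volume (Q n ρ) := by
    rw [hT, Measure.volume_eq_prod, Measure.prod_prod, Real.volume_Icc, sub_zero,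
      ENNReal.ofReal_one, one_mul]
  have hpos : 0 < volume T := by rw [hTm]; exact volume_Q_pos hρ
  have hfin : volume T < ⊤ := by rw [hTm]; exact volume_Q_lt_top n ρ
  set c0 : ℝ := volume.real T with hc0
  have hc0' : volume.real (Q n ρ) = c0 := by
    rw [hc0, Measure.real, Measure.real, hTm]
  have hc0pos : 0 < c0 := ENNReal.toReal_pos hpos.ne' hfin.ne
  rw [hc0']
  have hint : IntegrableOn (fun q => c0 • f0 he κ U q) T volume :=
    ContinuousOn.integrableOn_compact hTc
      (((continuous_f0 he κ hU).const_smul c0).continuousOn)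
  have h1 := (convex_SS n ρ e (c0 * (Fintype.card (PT n) * (κ * (2 * ρ * B))))).closure.set_average_mem
    isClosed_closure hpos.ne' hfin.ne
    (f := fun q => c0 • f0 he κ U q) (by
      refine (ae_restrict_mem hTc.measurableSet).mono fun q hq => subset_closure ?_
      refine ⟨ltau κ c0 U q, ltau_c κ c0 U hq.1 hq.2,
        lwt_ltau_le hκ hc0pos.le hρ.le hUB hq.1 hq.2, fun x => ?_⟩
      exact (lfield_ltau he κ c0 U q x).symm) hint
  rw [setAverage_eq, integral_smul, smul_smul, inv_mul_cancel₀ hc0pos.ne', one_smul] at h1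
  exact h1

theorem Z_pos (n : ℕ) {e : ℝ} (he : 0 < e) : 0 < ∫ y : E n, (bump (‖y‖ / e)) ^ 2 := by
  refine Continuous.integral_pos_of_hasCompactSupport_nonneg_nonzero (x := (0 : E n)) (by fun_prop)
    ?_ (fun y => sq_nonneg _) ?_
  · refine HasCompactSupport.intro (isCompact_closedBall (0 : E n) e) fun y hy => ?_
    rw [Metric.mem_closedBall, dist_zero_right, not_le] at hy
    rw [isShape_bump.zero _ ((one_le_div he).2 hy.le)]
    norm_num
  · rw [norm_zero, zero_div, bump_eq]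
    norm_num

theorem integral_psi {n : ℕ} {e : ℝ} (he : 0 < e) (x : E n) :
    ∫ z : E n, (bump (‖x - z‖ / e)) ^ 2 / (∫ y : E n, (bump (‖y‖ / e)) ^ 2) = 1 := by
  rw [integral_div, integral_sub_left_eq_self (fun y : E n => (bump (‖y‖ / e)) ^ 2) volume x]
  exact div_self (Z_pos n he).ne'

theorem hasCompactSupport_psi {n : ℕ} {e : ℝ} (he : 0 < e) (Z : ℝ) (x : E n) :
    HasCompactSupport (fun z : E n => (bump (‖x - z‖ / e)) ^ 2 / Z) := by
  refine HasCompactSupport.intro (isCompact_closedBall x e) fun y hy => ?_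
  rw [Metric.mem_closedBall, dist_comm, dist_eq_norm, not_le] at hy
  rw [isShape_bump.zero _ ((one_le_div he).2 hy.le)]
  norm_num

theorem continuous_psi {n : ℕ} (e Z : ℝ) (x : E n) :
    Continuous (fun z : E n => (bump (‖x - z‖ / e)) ^ 2 / Z) := (contDiff_psi x e Z).continuous

theorem approx {n : ℕ} {e η : ℝ} (he : 0 < e) {U : E n → E n} (hU : Continuous U)
    (hmod : ∀ x y, dist x y ≤ e → ‖U x - U y‖ ≤ η) (x : E n) :
    ‖(∫ z : E n, ((bump (‖x - z‖ / e)) ^ 2 / (∫ y : E n, (bump (‖y‖ / e)) ^ 2)) • U z) - U x‖ ≤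
      η := by
  set Z := ∫ y : E n, (bump (‖y‖ / e)) ^ 2 with hZ
  have hZpos : 0 < Z := Z_pos n he
  have hc := continuous_psi (n := n) e Z x
  have hs := hasCompactSupport_psi (n := n) he Z x
  have h1 : Integrable (fun z : E n => (bump (‖x - z‖ / e)) ^ 2 / Z) volume :=
    hc.integrable_of_hasCompactSupport hs
  have h2 : Integrable (fun z : E n => ((bump (‖x - z‖ / e)) ^ 2 / Z) • U z) volume :=
    (hc.smul hU).integrable_of_hasCompactSupport hs.smul_right
  have h3 : Integrable (fun z : E n => ((bump (‖x - z‖ / e)) ^ 2 / Z) • U x) volume :=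
    h1.smul_const _
  have h4 : ∫ z : E n, ((bump (‖x - z‖ / e)) ^ 2 / Z) • U x = U x := by
    rw [integral_smul_const, integral_psi he x, one_smul]
  have h5 : (∫ z : E n, ((bump (‖x - z‖ / e)) ^ 2 / Z) • U z) - U x =
      ∫ z : E n, (((bump (‖x - z‖ / e)) ^ 2 / Z) • U z - ((bump (‖x - z‖ / e)) ^ 2 / Z) • U x) := by
    rw [integral_sub h2 h3, h4]
  rw [h5]
  have h6 : ∫ z : E n, (bump (‖x - z‖ / e)) ^ 2 / Z * η = η := by
    rw [integral_mul_const, integral_psi he x, one_mul]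
  refine le_trans (norm_integral_le_of_norm_le (h1.mul_const η) (Filter.Eventually.of_forall
    fun z => ?_)) h6.le
  rw [← smul_sub, norm_smul, Real.norm_eq_abs, abs_of_nonneg (by positivity)]
  rcases le_or_gt (dist x z) e with h | h
  · refine mul_le_mul_of_nonneg_left ?_ (by positivity)
    rw [norm_sub_rev]
    exact hmod x z h
  · rw [dist_eq_norm] at h
    rw [isShape_bump.zero _ ((one_le_div he).2 h.le)]
    norm_num

theorem f0_apply_coord {n : ℕ} {e : ℝ} (he : 0 < e) (κ : ℝ) (U : E n → E n) (t : ℝ) (z x : E n)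
    (k : Fin n) : f0 he κ U (t, z) x k =
      κ * t * bump (‖x - t • z‖ / e) *
        (inner ℝ (x - t • z) z * U z k - inner ℝ (x - t • z) (U z) * z k) := by
  rw [inner_identity, f0_apply, WithLp.ofLp_sum, Finset.sum_apply, Finset.mul_sum]
  refine Finset.sum_congr rfl fun p _ => ?_
  simp only [tauf, gf, PiLp.smul_apply, smul_eq_mul]
  ring

theorem avg_apply {n : ℕ} {ρ e : ℝ} (he : 0 < e) {U : E n → E n} (hU : Continuous U)
    (hUQ : ∀ x, x ∉ Q n ρ → U x = 0) (hdiv : WDiv U) (x : E n) :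
    (∫ q in Set.Icc (0 : ℝ) 1 ×ˢ Q n ρ,
      f0 he (4 / ((∫ y : E n, (bump (‖y‖ / e)) ^ 2) * e ^ 2)) U q) x =
    ∫ z : E n, ((bump (‖x - z‖ / e)) ^ 2 / (∫ y : E n, (bump (‖y‖ / e)) ^ 2)) • U z := by
  set Z := ∫ y : E n, (bump (‖y‖ / e)) ^ 2 with hZ
  have hZpos : 0 < Z := Z_pos n he
  set κ : ℝ := 4 / (Z * e ^ 2) with hκ
  have hcU : HasCompactSupport U := HasCompactSupport.intro (isCompact_Q n ρ) hUQ
  have hTc : IsCompact (Set.Icc (0 : ℝ) 1 ×ˢ Q n ρ) := isCompact_Icc.prod (isCompact_Q n ρ)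
  have hint : IntegrableOn (fun q => f0 he κ U q) (Set.Icc (0 : ℝ) 1 ×ˢ Q n ρ) volume :=
    ContinuousOn.integrableOn_compact hTc (continuous_f0 he κ hU).continuousOn
  have hc := continuous_psi (n := n) e Z x
  have hs := hasCompactSupport_psi (n := n) he Z x
  have h2 : Integrable (fun z : E n => ((bump (‖x - z‖ / e)) ^ 2 / Z) • U z) volume :=
    (hc.smul hU).integrable_of_hasCompactSupport hs.smul_right
  ext k
  let L : BoundedContinuousFunction (E n) (E n) →L[ℝ] ℝ :=
    (EuclideanSpace.proj (𝕜 := ℝ) k : E n →L[ℝ] ℝ).comp (BoundedContinuousFunction.evalCLM ℝ x)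
  have hL : ∀ F, L F = F x k := fun F => rfl
  have e1 := L.integral_comp_comm hint
  simp only [hL] at e1
  have e2 := (EuclideanSpace.proj (𝕜 := ℝ) k : E n →L[ℝ] ℝ).integral_comp_comm h2
  have hP : ∀ v : E n, (EuclideanSpace.proj (𝕜 := ℝ) k : E n →L[ℝ] ℝ) v = v k := fun v => rfl
  simp only [hP] at e2
  rw [← e1, ← e2]
  have e3 := cone_formula U hU hcU hdiv _ (contDiff_psi x e Z) k
  have e4 : ∫ z : E n, (((bump (‖x - z‖ / e)) ^ 2 / Z) • U z) k =
      ∫ z : E n, U z k * ((bump (‖x - z‖ / e)) ^ 2 / Z) := by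
    refine integral_congr_ae (Filter.Eventually.of_forall fun z => ?_)
    simp only [PiLp.smul_apply, smul_eq_mul]
    ring
  rw [e4, e3]
  have hint' : IntegrableOn (fun q : ℝ × E n => f0 he κ U q x k) (Set.Icc (0 : ℝ) 1 ×ˢ Q n ρ)
      ((volume : Measure ℝ).prod (volume : Measure (E n))) := by
    rw [← Measure.volume_eq_prod]
    exact L.integrable_comp hint
  rw [Measure.volume_eq_prod, setIntegral_prod _ hint', intervalIntegral.integral_of_le zero_le_one,
    integral_Icc_eq_integral_Ioc]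
  refine setIntegral_congr_fun measurableSet_Ioc fun t _ => ?_
  have e6 : t * ∫ z : E n, (U z k * fderiv ℝ (fun z : E n => (bump (‖x - z‖ / e)) ^ 2 / Z) (t • z) z -
        z k * fderiv ℝ (fun z : E n => (bump (‖x - z‖ / e)) ^ 2 / Z) (t • z) (U z)) =
      ∫ z in Q n ρ, t * (U z k * fderiv ℝ (fun z : E n => (bump (‖x - z‖ / e)) ^ 2 / Z) (t • z) z -
        z k * fderiv ℝ (fun z : E n => (bump (‖x - z‖ / e)) ^ 2 / Z) (t • z) (U z)) := by
    rw [← integral_const_mul]
    refine (setIntegral_eq_integral_of_forall_compl_eq_zero fun z hz => ?_).symm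
    rw [hUQ z hz]
    simp
  show ∫ z in Q n ρ, f0 he κ U (t, z) x k = t * ∫ z : E n,
    (U z k * fderiv ℝ (fun z : E n => (bump (‖x - z‖ / e)) ^ 2 / Z) (t • z) z -
        z k * fderiv ℝ (fun z : E n => (bump (‖x - z‖ / e)) ^ 2 / Z) (t • z) (U z))
  rw [e6]
  refine setIntegral_congr_fun (isClosed_Q n ρ).measurableSet fun z _ => ?_
  simp only [fderiv_psi, f0_apply_coord, ← hκ]
  ring

end HullAux

theorem hull {n : ℕ} (hn : 2 ≤ n) (ρ B e : ℝ) (hρ : 0 < ρ) (hB : 0 ≤ B) (he : 0 < e) :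
    ∃ M : ℝ, ∀ U : E n → E n, Continuous U → (∀ x, x ∉ Q n ρ → U x = 0) → (∀ x, ‖U x‖ ≤ B) →
      WDiv U → ∀ η : ℝ, 0 < η → (∀ x y, dist x y ≤ e → ‖U x - U y‖ ≤ η) →
      ∃ l : List (TD n), (∀ d ∈ l, d.c ∈ Q n ρ) ∧ lwt l ≤ M ∧
        ∀ x, ‖lfield e l x - U x‖ ≤ 2 * η := by
  refine ⟨volume.real (Q n ρ) * (Fintype.card (HullAux.PT n) *
    (4 / ((∫ y : E n, (bump (‖y‖ / e)) ^ 2) * e ^ 2) * (2 * ρ * B))), ?_⟩
  intro U hU hUQ hUB hdiv η hη hmod
  have hκ : 0 ≤ 4 / ((∫ y : E n, (bump (‖y‖ / e)) ^ 2) * e ^ 2) := by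
    have := HullAux.Z_pos n he
    positivity
  have h1 := HullAux.avg_mem hρ he hκ hU hUB
  obtain ⟨F, ⟨l, h2, h3, h4⟩, h5⟩ := Metric.mem_closure_iff.1 h1 η hη
  refine ⟨l, h2, h3, fun x => ?_⟩
  have h6 := HullAux.avg_apply (ρ := ρ) he hU hUQ hdiv x
  have h7 := HullAux.approx he hU hmod x
  rw [← h6] at h7
  rw [dist_comm] at h5
  have h8 := (BoundedContinuousFunction.dist_coe_le_dist (f := F) x).trans h5.le
  rw [dist_eq_norm, h4 x] at h8
  have h9 : lfield e l x - U x = (lfield e l x - (∫ q in Set.Icc (0 : ℝ) 1 ×ˢ Q n ρ,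
      HullAux.f0 he (4 / ((∫ y : E n, (bump (‖y‖ / e)) ^ 2) * e ^ 2)) U q) x) +
      ((∫ q in Set.Icc (0 : ℝ) 1 ×ˢ Q n ρ,
      HullAux.f0 he (4 / ((∫ y : E n, (bump (‖y‖ / e)) ^ 2) * e ^ 2)) U q) x - U x) := by
    abel
  rw [h9]
  refine (norm_add_le _ _).trans ?_
  linarith

end Pool.Agent.W_MP_d1cfb0_an
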