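import Pool.Agent.W_MP_d1cfb0_an.PartA
import Pool.Agent.W_MP_d1cfb0_an.GlobalTr

/-!
# A closed group with small twists everywhere contains all measure preserving diffeomorphisms
-/

namespace Pool.Agent.W_MP_d1cfb0_an

open MeasureTheory

/-- The property proved in `partB`. -/
def HasTwists (n : ℕ) (H : Set (E n ≃ₜ E n)) : Prop :=
  ∀ K : Set (E n), IsCompact K → K ⊆ O n → ∀ κ ε₀ : ℝ, 0 < κ → 0 < ε₀ →
    ∃ e : ℝ, 0 < e ∧ e < ε₀ ∧ ∀ (i j : Fin n) (hij : i ≠ j), ∀ c ∈ K, ∀ τ : ℝ,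
      ∃ y : E n ≃ₜ E n, SuppIn y (Metric.ball (zst n) κ) ∧
        twist hij c (prof bump e τ) * y ∈ H

theorem inner_abs_apply_le_norm {n : ℕ} (x : E n) (i : Fin n) : |x i| ≤ ‖x‖ := by
  rw [← Real.norm_eq_abs]
  exact PiLp.norm_apply_le x i

theorem isClosed_Q (n : ℕ) (ρ : ℝ) : IsClosed (Q n ρ) := by
  have h : Q n ρ = ⋂ i : Fin n, {x : E n | |x i| ≤ ρ} := by
    ext x
    simp [Q]
  rw [h]
  refine isClosed_iInter fun i => ?_
  exact isClosed_le (by fun_prop) continuous_const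

theorem isCompact_Q (n : ℕ) (ρ : ℝ) : IsCompact (Q n ρ) := by
  refine Metric.isCompact_of_isClosed_isBounded (isClosed_Q n ρ) ?_
  refine (Metric.isBounded_closedBall (x := (0 : E n)) (r := Real.sqrt (n * ρ ^ 2))).subset ?_
  intro x hx
  rw [mem_closedBall_zero_iff, EuclideanSpace.norm_eq]
  apply Real.sqrt_le_sqrt
  have h1 : ∀ i ∈ (Finset.univ : Finset (Fin n)), ‖x i‖ ^ 2 ≤ ρ ^ 2 := by
    intro i _
    rw [Real.norm_eq_abs]
    exact pow_le_pow_left₀ (abs_nonneg _) (hx i) 2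
  calc ∑ i, ‖x i‖ ^ 2 ≤ ∑ _i : Fin n, ρ ^ 2 := Finset.sum_le_sum h1
    _ = n * ρ ^ 2 := by simp

theorem Q_subset_O {n : ℕ} {ρ : ℝ} (hρ : ρ < 1 / 2) : Q n ρ ⊆ O n :=
  fun _ hx i => (hx i).trans_lt hρ

theorem inner_zst_apply {n : ℕ} (hn : 0 < n) : zst n ⟨0, hn⟩ = 1 / 2 := by
  simp [zst]

theorem zst_notMem {n : ℕ} (hn : 0 < n) : zst n ∉ O n := by
  intro h
  have h1 := h ⟨0, hn⟩
  rw [inner_zst_apply hn, abs_of_pos (by norm_num)] at h1
  exact lt_irrefl _ h1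

theorem dist_zst {n : ℕ} (hn : 0 < n) {ρ : ℝ} {x : E n} (hx : x ∈ Q n ρ) :
    1 / 2 - ρ ≤ dist x (zst n) := by
  rw [dist_comm, dist_eq_norm]
  refine le_trans ?_ (inner_abs_apply_le_norm (zst n - x) ⟨0, hn⟩)
  rw [PiLp.sub_apply, inner_zst_apply hn]
  have h1 := (abs_le.1 (hx ⟨0, hn⟩)).2
  exact le_trans (by linarith) (le_abs_self _)

/-- Closed `e`-neighbourhood of `K`. -/
def Nb {n : ℕ} (K : Set (E n)) (e : ℝ) : Set (E n) := {x | ∃ c ∈ K, dist x c ≤ e}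

theorem suppIn_lmap {n : ℕ} {K : Set (E n)} {e : ℝ} (he : 0 < e) (l : List (TD n))
    (hl : ∀ d ∈ l, d.c ∈ K) : SuppIn (lmap e l) (Nb K e) := by
  induction l with
  | nil => exact suppIn_one _
  | cons d l ih =>
    refine SuppIn.mul ?_ (ih fun d' hd' => hl d' (List.mem_cons_of_mem _ hd'))
    refine (suppIn_twist_prof d.hij d.c isShape_bump he d.τ).mono ?_
    intro x hx
    exact ⟨d.c, hl d List.mem_cons_self, hx⟩

theorem exists_lmap_mul {n : ℕ} {H : Set (E n ≃ₜ E n)} (hH : ClosedGroup n H) {K : Set (E n)}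
    {e κ : ℝ} (he : 0 < e) (hd : Disjoint (Nb K e) (Metric.ball (zst n) κ))
    (hy : ∀ (i j : Fin n) (hij : i ≠ j), ∀ c ∈ K, ∀ τ : ℝ,
      ∃ y : E n ≃ₜ E n, SuppIn y (Metric.ball (zst n) κ) ∧
        twist hij c (prof bump e τ) * y ∈ H) (l : List (TD n)) (hl : ∀ d ∈ l, d.c ∈ K) :
    ∃ Y : E n ≃ₜ E n, SuppIn Y (Metric.ball (zst n) κ) ∧ lmap e l * Y ∈ H := by
  induction l with
  | nil => exact ⟨1, suppIn_one _, by
      show (1 : E n ≃ₜ E n) * 1 ∈ H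
      rw [mul_one]
      exact hH.one_mem⟩
  | cons d l ih =>
    have hl' : ∀ d' ∈ l, d'.c ∈ K := fun d' hd' => hl d' (List.mem_cons_of_mem _ hd')
    obtain ⟨Y, hY, hYH⟩ := ih hl'
    obtain ⟨y, hy1, hy2⟩ := hy d.i d.j d.hij d.c (hl d List.mem_cons_self) d.τ
    refine ⟨y * Y, hy1.mul hY, ?_⟩
    have h1 : lmap e l * y = y * lmap e l := (suppIn_lmap he l hl').comm hy1 hd
    have h2 : lmap e (d :: l) * (y * Y) =
        (twist d.hij d.c (prof bump e d.τ) * y) * (lmap e l * Y) := by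
      show (d.map e * lmap e l) * (y * Y) = _
      rw [mul_assoc, ← mul_assoc (lmap e l) y Y, h1]
      simp only [mul_assoc]
      rfl
    rw [h2]
    exact hH.mul_mem _ hy2 _ hYH

theorem inner {n : ℕ} (hn : 2 ≤ n) {H : Set (E n ≃ₜ E n)} (hH : ClosedGroup n H)
    (hB : HasTwists n H) (h : E n ≃ₜ E n) (h1 : ContDiff ℝ 1 h)
    (h2 : ContDiff ℝ 1 (h⁻¹ : E n ≃ₜ E n)) (hmp : MeasurePreserving h volume volume)
    {ρ : ℝ} (hρ : 0 < ρ) (hρ1 : ρ < 1 / 2) (hsupp : SuppIn h (Q n ρ)) : h ∈ H := by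
  refine hH.closed h (hsupp.mono (Q_subset_O hρ1)) ?_
  intro ε hε
  have hn0 : 0 < n := by omega
  obtain ⟨ε₀, hε₀, hA⟩ := partA hn h h1 h2 hmp hρ hsupp (half_pos hε)
  obtain ⟨e, he, heε, hy⟩ := hB (Q n ρ) (isCompact_Q n ρ) (Q_subset_O hρ1)
    (min ((1 / 2 - ρ) / 2) (ε / 4)) (min ε₀ ((1 / 2 - ρ) / 2))
    (lt_min (by linarith) (by linarith)) (lt_min hε₀ (by linarith))
  obtain ⟨l, hl, hlh⟩ := hA e he (heε.trans_le (min_le_left _ _))
  set κ := min ((1 / 2 - ρ) / 2) (ε / 4) with hκ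
  have hκ1 : κ ≤ (1 / 2 - ρ) / 2 := min_le_left _ _
  have hκ2 : κ ≤ ε / 4 := min_le_right _ _
  have he2 : e < (1 / 2 - ρ) / 2 := heε.trans_le (min_le_right _ _)
  have hd : Disjoint (Nb (Q n ρ) e) (Metric.ball (zst n) κ) := by
    rw [Set.disjoint_left]
    rintro x ⟨c, hc, hxc⟩ hx
    rw [Metric.mem_ball] at hx
    have h3 := dist_zst hn0 hc
    have h4 : dist c (zst n) ≤ dist x c + dist x (zst n) := by
      rw [dist_comm x c]
      exact dist_triangle _ _ _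
    linarith
  obtain ⟨Y, hY, hYH⟩ := exists_lmap_mul hH he hd hy l hl
  have hG := suppIn_lmap he l hl
  refine ⟨_, hYH, fun x => ?_⟩
  by_cases hx : x ∈ Metric.ball (zst n) κ
  · have hxn : x ∉ Nb (Q n ρ) e := fun h3 => Set.disjoint_left.1 hd h3 hx
    have hxQ : x ∉ Q n ρ := fun h3 => hxn ⟨x, h3, by rw [dist_self]; exact he.le⟩
    have hYx := hY.mem_of_mem hx
    have hYx' := hY.inv.mem_of_mem hx
    have hYn : Y x ∉ Nb (Q n ρ) e := fun h3 => Set.disjoint_left.1 hd h3 hYx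
    rw [mul_apply', hG _ hYn, hsupp x hxQ, mul_inv_rev, mul_apply', hG.inv x hxn, hsupp.inv x hxQ]
    rw [Metric.mem_ball] at hx hYx hYx'
    constructor
    · have h4 : dist (Y x) x ≤ dist (Y x) (zst n) + dist x (zst n) := dist_triangle_right _ _ _
      linarith
    · have h4 : dist (Y⁻¹ x) x ≤ dist (Y⁻¹ x) (zst n) + dist x (zst n) :=
        dist_triangle_right _ _ _
      linarith
  · have h5 : (lmap e l)⁻¹ x ∉ Metric.ball (zst n) κ := by
      intro h6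
      have h7 : (lmap e l)⁻¹ x ∉ Nb (Q n ρ) e := fun h3 => Set.disjoint_left.1 hd h3 h6
      have h8 := hG _ h7
      rw [apply_inv_self'] at h8
      rw [← h8] at h6
      exact hx h6
    rw [mul_apply', hY x hx, mul_inv_rev, mul_apply', hY.inv _ h5]
    have h9 := hlh x
    constructor
    · linarith [h9.1]
    · linarith [h9.2]

end Pool.Agent.W_MP_d1cfb0_an
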