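import Pool.Agent.W_MP_d1cfb0_an.Twist

/-!
# Task G10: a product of four rotations is a translation

Let `c0 = c q`, `c1 = c q + (r q / 8) e_i`, `x` with `‖x - c0‖ ≤ r q / 8`, `|θ| ≤ 1`, `R = rot i j`.
All points below are in both balls of radius `r q / 2` where the twists are rotations
(`twist_ramp_apply`, `TwistFlow.inside`):
`x₁ = Φ₁ θ x = c1 + R θ (x - c1)`, `‖x₁ - c1‖ = ‖x - c1‖ ≤ r/4`, so `‖x₁ - c0‖ ≤ 3r/8`;
`x₂ = Φ₀ (-θ) x₁ = c0 + R (-θ) (x₁ - c0) = x + (R (-θ) - 1) (c1 - c0)`, `‖x₂ - x‖ ≤ |θ| r/8 ≤ r/8`,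
so `‖x₂ - c1‖ ≤ 3r/8`;
`x₃ = Φ₁ (-θ) x₂ = c1 + R (-θ) (x₂ - c1)`, `‖x₃ - c1‖ ≤ 3r/8`, `‖x₃ - c0‖ ≤ r/2`;
`x₄ = Φ₀ θ x₃ = c0 + R θ (x₃ - c0) = x₂ + (R θ - 1) (c1 - c0)`.
So `x₄ = x + (R θ + R (-θ) - 2) ((r/8) e_i) = x - (1 - cos θ) (r/4) e_i`.
-/

namespace Pool.Agent.W_MP_d1cfb0_an

/-- A twist flow with the ramp profile rotates the balls of half the radius. -/
theorem TwistFlow.ramp_apply {n : ℕ} {i j : Fin n} (hij : i ≠ j) {ι : Type} {c : ι → E n}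
    {r : ι → ℝ} {Φ : ℝ → (E n ≃ₜ E n)} (h : TwistFlow hij ramp c r Φ) (q : ι) (hr : 0 < r q)
    (τ : ℝ) (x : E n) (hx : ‖x - c q‖ ≤ r q / 2) :
    Φ τ x = c q + rot i j τ (x - c q) := by
  rw [h.inside τ q x ?_, twist_ramp_apply hij (c q) hr τ hx]
  rw [Metric.mem_closedBall, dist_eq_norm]
  linarith

theorem rot_add_rot_neg_single {n : ℕ} {i j : Fin n} (hij : i ≠ j) (θ s : ℝ) :
    rot i j θ (s • EuclideanSpace.single i (1 : ℝ)) +
      rot i j (-θ) (s • EuclideanSpace.single i (1 : ℝ)) =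
      (2 * Real.cos θ * s) • EuclideanSpace.single i (1 : ℝ) := by
  ext k
  rw [PiLp.add_apply]
  by_cases hi : k = i
  · subst hi
    rw [rot_apply_i, rot_apply_i]
    simp [hij.symm, Real.cos_neg]
    ring
  · by_cases hj : k = j
    · subst hj
      rw [rot_apply_j hij, rot_apply_j hij]
      simp [hi, Real.sin_neg]
    · rw [rot_apply_of_ne hi hj, rot_apply_of_ne hi hj]
      simp [hi]

theorem move {n : ℕ} {i j : Fin n} (hij : i ≠ j) {ι : Type} {c : ι → E n} {r : ι → ℝ}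
    {Φ₀ Φ₁ : ℝ → (E n ≃ₜ E n)} (h₀ : TwistFlow hij ramp c r Φ₀)
    (h₁ : TwistFlow hij ramp (fun q => c q + (r q / 8) • EuclideanSpace.single i (1 : ℝ)) r Φ₁)
    (q : ι) (hr : 0 < r q) (θ : ℝ) (hθ : |θ| ≤ 1) (x : E n) (hx : ‖x - c q‖ ≤ r q / 8) :
    (Φ₀ θ * Φ₁ (-θ) * Φ₀ (-θ) * Φ₁ θ) x =
      x - ((1 - Real.cos θ) * (r q / 4)) • EuclideanSpace.single i (1 : ℝ) := by
  set e : E n := (r q / 8) • EuclideanSpace.single i (1 : ℝ) with he
  have hne : ‖e‖ = r q / 8 := by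
    rw [he, norm_smul, EuclideanSpace.norm_single, norm_one, mul_one, Real.norm_eq_abs,
      abs_of_pos (by linarith)]
  have b1 : ‖x - (c q + e)‖ ≤ r q / 4 := by
    have e1 : x - (c q + e) = (x - c q) - e := by abel
    rw [e1]
    have := norm_sub_le (x - c q) e
    linarith
  have h1 := TwistFlow.ramp_apply hij h₁ q hr θ x (by
    change ‖x - (c q + e)‖ ≤ r q / 2
    linarith)
  change Φ₁ θ x = (c q + e) + rot i j θ (x - (c q + e)) at h1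
  set x₁ := Φ₁ θ x with hx₁
  have b2 : ‖x₁ - c q‖ ≤ 3 * r q / 8 := by
    have e1 : x₁ - c q = e + rot i j θ (x - (c q + e)) := by rw [h1]; abel
    rw [e1]
    have := norm_add_le e (rot i j θ (x - (c q + e)))
    rw [norm_rot hij] at this
    linarith
  have h2 := TwistFlow.ramp_apply hij h₀ q hr (-θ) x₁ (by linarith)
  set x₂ := Φ₀ (-θ) x₁ with hx₂
  have h2' : x₂ = x + (rot i j (-θ) e - e) := by
    have e1 : x₁ - c q = e + rot i j θ (x - (c q + e)) := by rw [h1]; abel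
    rw [h2, e1, rot_add, rot_rot hij, neg_add_cancel, rot_zero]
    abel
  have b3 : ‖x₂ - (c q + e)‖ ≤ 3 * r q / 8 := by
    have e1 : x₂ - (c q + e) = (x - (c q + e)) + (rot i j (-θ) e - e) := by rw [h2']; abel
    rw [e1]
    have t1 := norm_add_le (x - (c q + e)) (rot i j (-θ) e - e)
    have t2 := norm_rot_sub_le hij (-θ) e
    rw [abs_neg, hne] at t2
    have t3 : |θ| * (r q / 8) ≤ 1 * (r q / 8) := by gcongr
    linarith
  have h3 := TwistFlow.ramp_apply hij h₁ q hr (-θ) x₂ (by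
    change ‖x₂ - (c q + e)‖ ≤ r q / 2
    linarith)
  change Φ₁ (-θ) x₂ = (c q + e) + rot i j (-θ) (x₂ - (c q + e)) at h3
  set x₃ := Φ₁ (-θ) x₂ with hx₃
  have b4 : ‖x₃ - c q‖ ≤ r q / 2 := by
    have e1 : x₃ - c q = e + rot i j (-θ) (x₂ - (c q + e)) := by rw [h3]; abel
    rw [e1]
    have := norm_add_le e (rot i j (-θ) (x₂ - (c q + e)))
    rw [norm_rot hij] at this
    linarith
  have h4 := TwistFlow.ramp_apply hij h₀ q hr θ x₃ b4
  have h4' : Φ₀ θ x₃ = x₂ + (rot i j θ e - e) := by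
    have e1 : x₃ - c q = e + rot i j (-θ) (x₂ - (c q + e)) := by rw [h3]; abel
    rw [h4, e1, rot_add, rot_rot hij, add_neg_cancel, rot_zero]
    abel
  have e5 : (Φ₀ θ * Φ₁ (-θ) * Φ₀ (-θ) * Φ₁ θ) x = Φ₀ θ x₃ := rfl
  rw [e5, h4', h2']
  have h6 := rot_add_rot_neg_single hij θ (r q / 8)
  rw [← he] at h6
  have e7 : x + (rot i j (-θ) e - e) + (rot i j θ e - e) =
      x + (rot i j θ e + rot i j (-θ) e) - (e + e) := by abel
  rw [e7, h6, he]
  module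

end Pool.Agent.W_MP_d1cfb0_an
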