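import Pool.Agent.W_MP_d1cfb0_an.Words

/-!
# Task A3: a product of small twists is the identity plus the field, to second order

Proof by induction on `l`. For one twist `T = d.map e`, `τ = d.τ`, `m x = bump (‖x - c‖/e)`:
`‖T y - y - d.field e y‖ ≤ 3 (τ m y)² ‖y - c‖ ≤ 3 τ² e ≤ 3 τ²` (`norm_rot_sub_jrot_le`; `m y = 0`
unless `‖y - c‖ ≤ e`), `‖T y - y‖ ≤ |τ| e ≤ |τ|` (`dist_twist_prof_le`), and `d.field e` is
Lipschitz with constant `3 |τ|`: `|m x - m y| ≤ (2/e) ‖x - y‖` (as `|bump u - bump v| ≤ 2 |u - v|`),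
`‖jrot x‖ ≤ ‖x‖`, and one may assume that one of the points is in the ball of radius `e`. With
`y = lmap e l x`, `W = lwt l`: `‖y - x‖ ≤ W`, so the error for `d :: l` is at most
`3 W² + 3 |τ| W + 3 τ² ≤ 3 (|τ| + W)²`.
-/

namespace Pool.Agent.W_MP_d1cfb0_an

theorem lwt_nonneg {n : ℕ} (l : List (TD n)) : 0 ≤ lwt l := by
  induction l with
  | nil => exact le_refl 0
  | cons d l ih =>
    change 0 ≤ |d.τ| + lwt l
    have := abs_nonneg d.τ
    linarith

theorem bump_eq68 (u : ℝ) : bump u = max (1 - u ^ 2) 0 := rfl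

theorem bump_lip68_aux {u v : ℝ} (hu : 0 ≤ u) (huv : u ≤ v) :
    |bump u - bump v| ≤ 2 * (v - u) := by
  rw [bump_eq68, bump_eq68]
  rcases le_or_gt 1 u with h | h
  · have hv : 1 ≤ v := h.trans huv
    rw [max_eq_right (by nlinarith), max_eq_right (by nlinarith)]
    simp only [sub_self, abs_zero]
    linarith
  · rcases le_or_gt v 1 with h' | h'
    · rw [max_eq_left (by nlinarith), max_eq_left (by nlinarith)]
      rw [abs_of_nonneg (by nlinarith)]
      nlinarith
    · rw [max_eq_left (by nlinarith), max_eq_right (by nlinarith)]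
      rw [abs_of_nonneg (by nlinarith)]
      nlinarith

theorem bump_lip68 {u v : ℝ} (hu : 0 ≤ u) (hv : 0 ≤ v) :
    |bump u - bump v| ≤ 2 * |u - v| := by
  rcases le_total u v with h | h
  · have := bump_lip68_aux hu h
    rw [abs_of_nonpos (sub_nonpos.2 h)]
    linarith
  · have := bump_lip68_aux hv h
    rw [abs_sub_comm, abs_of_nonneg (sub_nonneg.2 h)]
    linarith

theorem bump_abs_le68 (u : ℝ) : |bump u| ≤ 1 := isShape_bump.le_one u

theorem bump_zero68 {e r : ℝ} (he : 0 < e) (hr : e ≤ r) : bump (r / e) = 0 :=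
  isShape_bump.zero _ ((one_le_div he).2 hr)

theorem mdiff68 {n : ℕ} {e : ℝ} (he : 0 < e) (c x y : E n) :
    |bump (‖x - c‖ / e) - bump (‖y - c‖ / e)| ≤ 2 / e * ‖x - y‖ := by
  have h1 := bump_lip68 (u := ‖x - c‖ / e) (v := ‖y - c‖ / e) (by positivity) (by positivity)
  have h2 : |‖x - c‖ / e - ‖y - c‖ / e| = |‖x - c‖ - ‖y - c‖| / e := by
    rw [← sub_div, abs_div, abs_of_pos he]
  have h3 : |‖x - c‖ - ‖y - c‖| ≤ ‖x - y‖ := by
    have := abs_norm_sub_norm_le (x - c) (y - c)
    rwa [sub_sub_sub_cancel_right] at this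
  rw [h2] at h1
  refine h1.trans ?_
  have h4 : |‖x - c‖ - ‖y - c‖| / e ≤ ‖x - y‖ / e := by gcongr
  calc 2 * (|‖x - c‖ - ‖y - c‖| / e) ≤ 2 * (‖x - y‖ / e) := by linarith
    _ = 2 / e * ‖x - y‖ := by ring

theorem core68 {n : ℕ} {e : ℝ} (he : 0 < e) {i j : Fin n} (hij : i ≠ j) (c x y : E n)
    (hx : ‖x - c‖ ≤ e) :
    ‖bump (‖x - c‖ / e) • jrot i j (x - c) - bump (‖y - c‖ / e) • jrot i j (y - c)‖ ≤
      3 * ‖x - y‖ := by
  have h1 : bump (‖x - c‖ / e) • jrot i j (x - c) - bump (‖y - c‖ / e) • jrot i j (y - c) =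
      (bump (‖x - c‖ / e) - bump (‖y - c‖ / e)) • jrot i j (x - c) +
        bump (‖y - c‖ / e) • jrot i j (x - y) := by
    have h : x - y = (x - c) - (y - c) := by abel
    rw [h, jrot_sub i j (x - c) (y - c), sub_smul, smul_sub]
    abel
  rw [h1]
  refine (norm_add_le _ _).trans ?_
  rw [norm_smul, norm_smul, Real.norm_eq_abs, Real.norm_eq_abs]
  have h2 := mdiff68 he c x y
  have h3 := (norm_jrot_le hij (x - c)).trans hx
  have h4 := norm_jrot_le hij (x - y)
  have h5 := bump_abs_le68 (‖y - c‖ / e)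
  have h6 : |bump (‖x - c‖ / e) - bump (‖y - c‖ / e)| * ‖jrot i j (x - c)‖ ≤
      2 / e * ‖x - y‖ * e := by gcongr
  have h7 : |bump (‖y - c‖ / e)| * ‖jrot i j (x - y)‖ ≤ 1 * ‖x - y‖ := by gcongr
  have h8 : 2 / e * ‖x - y‖ * e = 2 * ‖x - y‖ := by field_simp
  linarith

theorem field_lip68 {n : ℕ} {e : ℝ} (he : 0 < e) (d : TD n) (x y : E n) :
    ‖d.field e x - d.field e y‖ ≤ 3 * |d.τ| * ‖x - y‖ := by
  have h0 : d.field e x - d.field e y = d.τ • (bump (‖x - d.c‖ / e) • jrot d.i d.j (x - d.c) -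
      bump (‖y - d.c‖ / e) • jrot d.i d.j (y - d.c)) := by
    simp only [TD.field, smul_sub, mul_smul]
  rw [h0, norm_smul, Real.norm_eq_abs]
  have h1 : ‖bump (‖x - d.c‖ / e) • jrot d.i d.j (x - d.c) -
      bump (‖y - d.c‖ / e) • jrot d.i d.j (y - d.c)‖ ≤ 3 * ‖x - y‖ := by
    rcases le_or_gt ‖x - d.c‖ e with hx | hx
    · exact core68 he d.hij d.c x y hx
    · rcases le_or_gt ‖y - d.c‖ e with hy | hy
      · rw [norm_sub_rev, norm_sub_rev x y]
        exact core68 he d.hij d.c y x hy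
      · rw [bump_zero68 he hx.le, bump_zero68 he hy.le, zero_smul, zero_smul, sub_zero, norm_zero]
        positivity
  calc |d.τ| * _ ≤ |d.τ| * (3 * ‖x - y‖) := by gcongr
    _ = 3 * |d.τ| * ‖x - y‖ := by ring

theorem map_field68 {n : ℕ} {e : ℝ} (he : 0 < e) (he1 : e ≤ 1) (d : TD n) (y : E n) :
    ‖d.map e y - y - d.field e y‖ ≤ 3 * d.τ ^ 2 := by
  have h1 : d.map e y - y - d.field e y = rot d.i d.j (d.τ * bump (‖y - d.c‖ / e)) (y - d.c) -
      (y - d.c) - (d.τ * bump (‖y - d.c‖ / e)) • jrot d.i d.j (y - d.c) := by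
    rw [TD.map, twist_apply, prof_apply, TD.field]
    abel
  rw [h1]
  refine (norm_rot_sub_jrot_le d.hij _ _).trans ?_
  rcases le_or_gt ‖y - d.c‖ e with hy | hy
  · have h2 : (d.τ * bump (‖y - d.c‖ / e)) ^ 2 ≤ d.τ ^ 2 := by
      rw [mul_pow]
      have h3 : (bump (‖y - d.c‖ / e)) ^ 2 ≤ 1 := by
        rw [← sq_abs]
        have := bump_abs_le68 (‖y - d.c‖ / e)
        have h' := abs_nonneg (bump (‖y - d.c‖ / e))
        nlinarith
      nlinarith [sq_nonneg d.τ]
    have h4 : ‖y - d.c‖ ≤ 1 := hy.trans he1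
    calc 3 * (d.τ * bump (‖y - d.c‖ / e)) ^ 2 * ‖y - d.c‖ ≤ 3 * d.τ ^ 2 * 1 := by gcongr
      _ = 3 * d.τ ^ 2 := by ring
  · rw [bump_zero68 he hy.le]
    simp only [mul_zero, ne_eq, OfNat.ofNat_ne_zero, not_false_eq_true, zero_pow, zero_mul]
    positivity

theorem map_dist68 {n : ℕ} {e : ℝ} (he : 0 < e) (he1 : e ≤ 1) (d : TD n) (y : E n) :
    ‖d.map e y - y‖ ≤ |d.τ| := by
  have h := dist_twist_prof_le d.hij d.c isShape_bump he d.τ y
  rw [dist_eq_norm] at h
  refine h.trans ?_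
  have := abs_nonneg d.τ
  nlinarith

theorem one_step {n : ℕ} {e : ℝ} (he : 0 < e) (he1 : e ≤ 1) (l : List (TD n)) (x : E n) :
    ‖lmap e l x - x‖ ≤ lwt l ∧ ‖lmap e l x - x - lfield e l x‖ ≤ 3 * lwt l ^ 2 := by
  induction l with
  | nil =>
    simp [lmap, lwt, lfield]
  | cons d l ih =>
    obtain ⟨ih1, ih2⟩ := ih
    have hW := lwt_nonneg l
    have hm : lmap e (d :: l) x = d.map e (lmap e l x) := rfl
    have hf : lfield e (d :: l) x = d.field e x + lfield e l x := rfl
    have hw : lwt (d :: l) = |d.τ| + lwt l := rfl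
    rw [hm, hf, hw]
    set y := lmap e l x with hy
    have h1 := map_dist68 he he1 d y
    have h2 := map_field68 he he1 d y
    have h3 := field_lip68 he d y x
    constructor
    · have : d.map e y - x = (d.map e y - y) + (y - x) := by abel
      rw [this]
      exact (norm_add_le _ _).trans (add_le_add h1 ih1)
    · have : d.map e y - x - (d.field e x + lfield e l x) =
          (d.map e y - y - d.field e y) + (d.field e y - d.field e x) +
            (y - x - lfield e l x) := by abel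
      rw [this]
      have h4 := norm_add_le ((d.map e y - y - d.field e y) + (d.field e y - d.field e x))
        (y - x - lfield e l x)
      have h5 := norm_add_le (d.map e y - y - d.field e y) (d.field e y - d.field e x)
      have h6 : 3 * |d.τ| * ‖y - x‖ ≤ 3 * |d.τ| * lwt l := by
        gcongr
      have h7 : 0 ≤ |d.τ| * lwt l := mul_nonneg (abs_nonneg _) hW
      have h8 := sq_abs d.τ
      nlinarith

theorem lmap_append {n : ℕ} (e : ℝ) (l l' : List (TD n)) :
    lmap e (l ++ l') = lmap e l * lmap e l' := by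
  induction l with
  | nil => rfl
  | cons d l ih =>
    change d.map e * lmap e (l ++ l') = d.map e * lmap e l * lmap e l'
    rw [ih]
    rfl

theorem lfield_append {n : ℕ} (e : ℝ) (l l' : List (TD n)) (x : E n) :
    lfield e (l ++ l') x = lfield e l x + lfield e l' x := by
  induction l with
  | nil =>
    change lfield e l' x = 0 + lfield e l' x
    rw [zero_add]
  | cons d l ih =>
    change d.field e x + lfield e (l ++ l') x = d.field e x + lfield e l x + lfield e l' x
    rw [ih, add_assoc]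

theorem lwt_append {n : ℕ} (l l' : List (TD n)) : lwt (l ++ l') = lwt l + lwt l' := by
  induction l with
  | nil =>
    change lwt l' = 0 + lwt l'
    rw [zero_add]
  | cons d l ih =>
    change |d.τ| + lwt (l ++ l') = |d.τ| + lwt l + lwt l'
    rw [ih, add_assoc]

theorem lfield_lscale {n : ℕ} (e t : ℝ) (l : List (TD n)) (x : E n) :
    lfield e (lscale t l) x = t • lfield e l x := by
  induction l with
  | nil =>
    change (0 : E n) = t • (0 : E n)
    rw [smul_zero]
  | cons d l ih =>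
    change TD.field e { d with τ := t * d.τ } x + lfield e (lscale t l) x =
      t • (d.field e x + lfield e l x)
    rw [ih, smul_add]
    congr 1
    simp only [TD.field, smul_smul]
    congr 1
    ring

theorem lwt_lscale {n : ℕ} (t : ℝ) (l : List (TD n)) : lwt (lscale t l) = |t| * lwt l := by
  induction l with
  | nil =>
    change (0 : ℝ) = |t| * 0
    rw [mul_zero]
  | cons d l ih =>
    change |t * d.τ| + lwt (lscale t l) = |t| * (|d.τ| + lwt l)
    rw [ih, abs_mul]
    ring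

theorem mem_lscale {n : ℕ} {t : ℝ} {l : List (TD n)} {K : Set (E n)} (h : ∀ d ∈ l, d.c ∈ K) :
    ∀ d ∈ lscale t l, d.c ∈ K := by
  intro d hd
  obtain ⟨d', hd', rfl⟩ := List.mem_map.1 hd
  exact h d' hd'

end Pool.Agent.W_MP_d1cfb0_an
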