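import Pool.Agent.W_MP_d1cfb0_an.Words

/-!
# Task A4: the generating field is weakly divergence free

`alex_mp`: `h_s = (s • ·) ∘ h ∘ (s⁻¹ • ·)`; the factors `|s|^n`, `|s|^(-n)` cancel
(`Measure.map_addHaar_smul`, `Measure.addHaar_preimage_smul`).

`wdiv_gfield`. Let `W z = h z - fderiv ℝ h z z` (continuous, zero off `Q n ρ`), so
`gfield h = W ∘ h⁻¹`. As `h` preserves the measure,
`∫ y, fderiv ℝ φ y (gfield h y) = ∫ x, fderiv ℝ φ (h x) (W x)`. For `s > 0` let
`F s x = φ (s • h (s⁻¹ • x)) - φ x`, zero for `x ∉ Q n (s ρ)`; `∫ x, F s x = 0` (integrate over a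
large closed ball or cube `D ⊇ Q n (2 ρ)`, invariant under `alex h s`, `s ≤ 2`). The derivative of
`F s x` with respect to `s` is `fderiv ℝ φ (s • h (s⁻¹ • x)) (W (s⁻¹ • x))`, bounded for
`s ∈ ball 1 (1/2)` and zero for `x` off a fixed compact set. So
`0 = d/ds ∫ F s x |_{s=1} = ∫ fderiv ℝ φ (h x) (W x)`
(`hasDerivAt_integral_of_dominated_loc_of_deriv_le`).

`wdiv_scale`: substitute `y = s • z` (`Measure.integral_comp_smul`) and use
`φ_s z = φ (s • z)`, `fderiv ℝ φ_s z w = s * fderiv ℝ φ (s • z) w`.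
-/

namespace Pool.Agent.W_MP_d1cfb0_an

open MeasureTheory

theorem continuous_gfield {n : ℕ} (h : E n ≃ₜ E n) (h1 : ContDiff ℝ 1 h) :
    Continuous (gfield h) := by
  have hinv : Continuous (h⁻¹ : E n ≃ₜ E n) := (h⁻¹ : E n ≃ₜ E n).continuous
  have hfd : Continuous (fderiv ℝ h) := h1.continuous_fderiv one_ne_zero
  unfold gfield
  exact (h.continuous.comp hinv).sub ((hfd.comp hinv).clm_apply hinv)

theorem isClosed_Q_pd (n : ℕ) (ρ : ℝ) : IsClosed (Q n ρ) := by
  have : Q n ρ = ⋂ i : Fin n, {x : E n | |x i| ≤ ρ} := by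
    ext x
    simp [Q]
  rw [this]
  refine isClosed_iInter fun i => ?_
  exact isClosed_le (by fun_prop) continuous_const

theorem isCompact_Q_pd (n : ℕ) (ρ : ℝ) : IsCompact (Q n ρ) := by
  refine Metric.isCompact_of_isClosed_isBounded (isClosed_Q_pd n ρ) ?_
  rw [isBounded_iff_forall_norm_le]
  refine ⟨Real.sqrt (∑ _i : Fin n, ρ ^ 2), fun x hx => ?_⟩
  rw [EuclideanSpace.norm_eq]
  refine Real.sqrt_le_sqrt (Finset.sum_le_sum fun i _ => ?_)
  have := hx i
  rw [Real.norm_eq_abs]
  exact pow_le_pow_left₀ (abs_nonneg _) this 2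

theorem gfield_eq_zero {n : ℕ} (h : E n ≃ₜ E n) {ρ : ℝ} (hsupp : SuppIn h (Q n ρ)) (y : E n)
    (hy : y ∉ Q n ρ) : gfield h y = 0 := by
  have h1 : h y = y := hsupp y hy
  have h2 : h⁻¹ y = y := by
    apply h.injective
    rw [apply_inv_self', h1]
  have h3 : (h : E n → E n) =ᶠ[nhds y] id := by
    filter_upwards [(isClosed_Q_pd n ρ).isOpen_compl.mem_nhds hy] with z hz
    exact hsupp z hz
  unfold gfield
  rw [h2, h3.fderiv_eq, h1]
  simp

theorem alex_mp {n : ℕ} (h : E n ≃ₜ E n) (hmp : MeasurePreserving h volume volume) (s : ℝ)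
    (hs : s ≠ 0) : MeasurePreserving (alex h s hs) volume volume := by
  refine ⟨(alex h s hs).continuous.measurable, ?_⟩
  have h0 : (alex h s hs : E n → E n) = (fun x => s • x) ∘ (h ∘ fun x => s⁻¹ • x) := by
    ext x
    rfl
  rw [h0, ← Measure.map_map (by fun_prop) (h.continuous.measurable.comp (by fun_prop)),
    ← Measure.map_map h.continuous.measurable (by fun_prop),
    Measure.map_addHaar_smul volume (inv_ne_zero hs), Measure.map_smul, hmp.map_eq,
    Measure.map_smul, Measure.map_addHaar_smul volume hs, smul_smul,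
    ← ENNReal.ofReal_mul (abs_nonneg _), ← abs_mul]
  have : ((s⁻¹ ^ Module.finrank ℝ (E n))⁻¹ * (s ^ Module.finrank ℝ (E n))⁻¹) = 1 := by
    rw [inv_pow, inv_inv]
    exact mul_inv_cancel₀ (pow_ne_zero _ hs)
  rw [this]
  simp

theorem wdiv_gfield {n : ℕ} (h : E n ≃ₜ E n) (h1 : ContDiff ℝ 1 h)
    (hmp : MeasurePreserving h volume volume) {ρ : ℝ} (hsupp : SuppIn h (Q n ρ)) :
    WDiv (gfield h) := by
  intro φ hφ
  have hfd : Continuous (fderiv ℝ h) := h1.continuous_fderiv one_ne_zero
  have hφd : Continuous (fderiv ℝ φ) := hφ.continuous_fderiv one_ne_zero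
  -- change of variables
  have e1 : ∫ y, fderiv ℝ φ y (gfield h y) =
      ∫ x, fderiv ℝ φ (h x) (h x - fderiv ℝ h x x) := by
    rw [← hmp.integral_comp h.measurableEmbedding]
    congr 1
    ext x
    have : h⁻¹ (h x) = x := by
      apply h.injective
      rw [apply_inv_self']
    unfold gfield
    rw [this]
  rw [e1]
  set K : Set (E n) := Q n (2 * |ρ|) with hK
  have hKc : IsCompact K := isCompact_Q_pd n _
  have hKm : MeasurableSet K := hKc.isClosed.measurableSet
  -- outside `K` the integrand vanishes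
  have e2 : ∫ x, fderiv ℝ φ (h x) (h x - fderiv ℝ h x x) =
      ∫ x in K, fderiv ℝ φ (h x) (h x - fderiv ℝ h x x) := by
    refine (setIntegral_eq_integral_of_forall_compl_eq_zero fun x hx => ?_).symm
    have hx' : x ∉ Q n ρ := by
      intro hx'
      apply hx
      intro i
      have := hx' i
      have h2 := le_abs_self ρ
      have h3 := abs_nonneg ρ
      linarith
    have h3 : (h : E n → E n) =ᶠ[nhds x] id := by
      filter_upwards [(isClosed_Q_pd n ρ).isOpen_compl.mem_nhds hx'] with z hz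
      exact hsupp z hz
    rw [h3.fderiv_eq, hsupp x hx']
    simp
  rw [e2]
  -- the family
  set F : ℝ → E n → ℝ := fun s x => φ (s • h (s⁻¹ • x)) with hF
  set F' : ℝ → E n → ℝ := fun s x => fderiv ℝ φ (s • h (s⁻¹ • x))
    (s • fderiv ℝ h (s⁻¹ • x) ((-(s ^ 2)⁻¹) • x) + h (s⁻¹ • x)) with hF'
  have hs0 : ∀ s ∈ Metric.ball (1 : ℝ) (1 / 2), 1 / 2 < s ∧ s < 3 / 2 := by
    intro s hs
    rw [Metric.mem_ball, Real.dist_eq, abs_lt] at hs
    constructor <;> linarith [hs.1, hs.2]
  have hconst : ∀ s ∈ Metric.ball (1 : ℝ) (1 / 2), ∫ x in K, F s x = ∫ x in K, φ x := by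
    intro s hs
    obtain ⟨h2, h3⟩ := hs0 s hs
    have hs' : s ≠ 0 := by linarith
    have hfix : ∀ x, x ∉ K → alex h s hs' x = x := by
      intro x hx
      rw [alex_apply, hsupp, smul_inv_smul₀ hs']
      intro hx'
      apply hx
      intro i
      have h4 := hx' i
      rw [PiLp.smul_apply, smul_eq_mul, abs_mul, abs_inv, abs_of_pos (by linarith : (0:ℝ) < s)]
        at h4
      have h5 : |x i| ≤ s * ρ := by
        have := mul_le_mul_of_nonneg_left h4 (by linarith : (0:ℝ) ≤ s)
        rwa [← mul_assoc, mul_inv_cancel₀ hs', one_mul] at this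
      have h6 := le_abs_self ρ
      have h7 := abs_nonneg ρ
      nlinarith
    have hpre : alex h s hs' ⁻¹' K = K := by
      ext x
      constructor
      · intro hx
        by_contra hx'
        rw [Set.mem_preimage, hfix x hx'] at hx
        exact hx' hx
      · intro hx
        rw [Set.mem_preimage]
        by_contra hx'
        have h8 := hfix _ hx'
        have h9 := (alex h s hs').injective h8
        rw [h9] at hx'
        exact hx' hx
    have := (alex_mp h hmp s hs').setIntegral_preimage_emb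
      (alex h s hs').measurableEmbedding φ K
    rw [hpre] at this
    exact this
  have hder : ∀ x, ∀ s ∈ Metric.ball (1 : ℝ) (1 / 2), HasDerivAt (fun s => F s x) (F' s x) s := by
    intro x s hs
    obtain ⟨h2, h3⟩ := hs0 s hs
    have hs' : s ≠ 0 := by linarith
    have d1 : HasDerivAt (fun s : ℝ => s⁻¹ • x) ((-(s ^ 2)⁻¹) • x) s :=
      (hasDerivAt_inv hs').smul_const x
    have d2 : HasDerivAt (fun s : ℝ => h (s⁻¹ • x))
        (fderiv ℝ h (s⁻¹ • x) ((-(s ^ 2)⁻¹) • x)) s :=
      ((h1.differentiable one_ne_zero _).hasFDerivAt).comp_hasDerivAt s d1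
    have d3 : HasDerivAt (fun s : ℝ => s • h (s⁻¹ • x))
        (s • fderiv ℝ h (s⁻¹ • x) ((-(s ^ 2)⁻¹) • x) + (1 : ℝ) • h (s⁻¹ • x)) s :=
      (hasDerivAt_id s).smul d2
    rw [one_smul] at d3
    exact ((hφ.differentiable one_ne_zero _).hasFDerivAt).comp_hasDerivAt s d3
  have hcont : ContinuousOn (fun p : ℝ × E n => F' p.1 p.2)
      (Metric.closedBall (1 : ℝ) (1 / 2) ×ˢ K) := by
    have hi : ContinuousOn (fun p : ℝ × E n => p.1⁻¹)
        (Metric.closedBall (1 : ℝ) (1 / 2) ×ˢ K) := by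
      refine continuousOn_fst.inv₀ ?_
      rintro ⟨s, x⟩ ⟨hs, _⟩
      rw [Metric.mem_closedBall, Real.dist_eq, abs_le] at hs
      have : (0 : ℝ) < s := by
        have := hs.1
        simp only at this
        linarith
      exact this.ne'
    have hx : ContinuousOn (fun p : ℝ × E n => p.1⁻¹ • p.2)
        (Metric.closedBall (1 : ℝ) (1 / 2) ×ˢ K) := hi.smul continuousOn_snd
    have hhx : ContinuousOn (fun p : ℝ × E n => h (p.1⁻¹ • p.2))
        (Metric.closedBall (1 : ℝ) (1 / 2) ×ˢ K) := h.continuous.comp_continuousOn hx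
    have hshx : ContinuousOn (fun p : ℝ × E n => p.1 • h (p.1⁻¹ • p.2))
        (Metric.closedBall (1 : ℝ) (1 / 2) ×ˢ K) := continuousOn_fst.smul hhx
    have hi2 : ContinuousOn (fun p : ℝ × E n => (-(p.1 ^ 2)⁻¹) • p.2)
        (Metric.closedBall (1 : ℝ) (1 / 2) ×ˢ K) := by
      have : (fun p : ℝ × E n => (-(p.1 ^ 2)⁻¹) • p.2) =
          fun p : ℝ × E n => (-(p.1⁻¹ ^ 2)) • p.2 := by
        ext p
        rw [inv_pow]
      rw [this]
      exact (hi.pow 2).neg.smul continuousOn_snd
    exact (hφd.comp_continuousOn hshx).clm_apply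
      ((continuousOn_fst.smul ((hfd.comp_continuousOn hx).clm_apply hi2)).add hhx)
  obtain ⟨C, hC⟩ := ((isCompact_closedBall (1 : ℝ) (1 / 2)).prod hKc).exists_bound_of_continuousOn
    hcont
  have hball : Metric.ball (1 : ℝ) (1 / 2) ∈ nhds (1 : ℝ) :=
    Metric.ball_mem_nhds _ (by norm_num)
  have hFc : ∀ s, Continuous (F s) := by
    intro s
    have a1 : Continuous fun x : E n => s⁻¹ • x := by fun_prop
    have a2 : Continuous fun x : E n => h (s⁻¹ • x) := h.continuous.comp a1
    have a3 : Continuous fun x : E n => s • h (s⁻¹ • x) := by fun_prop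
    exact hφ.continuous.comp a3
  have hF'c : Continuous (F' 1) := by
    have a1 : Continuous fun x : E n => (1 : ℝ)⁻¹ • x := by fun_prop
    have a2 : Continuous fun x : E n => (-((1 : ℝ) ^ 2)⁻¹) • x := by fun_prop
    exact (hφd.comp ((h.continuous.comp a1).const_smul (1 : ℝ))).clm_apply
      ((((hfd.comp a1).clm_apply a2).const_smul (1 : ℝ)).add (h.continuous.comp a1))
  have hmain := hasDerivAt_integral_of_dominated_loc_of_deriv_le (μ := volume.restrict K)
    (F := F) (F' := F') (x₀ := (1 : ℝ)) (s := Metric.ball (1 : ℝ) (1 / 2)) (bound := fun _ => C)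
    hball
    (Filter.Eventually.of_forall fun s => (hFc s).aestronglyMeasurable)
    ((hFc 1).continuousOn.integrableOn_compact hKc)
    hF'c.aestronglyMeasurable
    (by
      filter_upwards [ae_restrict_mem hKm] with x hx s hs
      exact hC (s, x) ⟨Metric.ball_subset_closedBall hs, hx⟩)
    ((continuous_const.continuousOn.integrableOn_compact hKc))
    (Filter.Eventually.of_forall fun x s hs => hder x s hs)
  have hzero : HasDerivAt (fun s => ∫ x in K, F s x) 0 (1 : ℝ) := by
    have : (fun s => ∫ x in K, F s x) =ᶠ[nhds (1 : ℝ)] fun _ => ∫ x in K, φ x := by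
      filter_upwards [hball] with s hs
      exact hconst s hs
    exact (hasDerivAt_const (1 : ℝ) _).congr_of_eventuallyEq this
  have := hmain.2.unique hzero
  rw [← this]
  refine setIntegral_congr_fun hKm fun x _ => ?_
  simp only [hF', inv_one, one_smul, one_pow, neg_smul, map_neg]
  congr 1
  abel

theorem wdiv_scale {n : ℕ} (U : E n → E n) (hU : WDiv U) (s : ℝ) (hs : 0 < s) :
    WDiv fun y => U (s⁻¹ • y) := by
  intro φ hφ
  have hψ : ContDiff ℝ 1 fun z : E n => φ (s • z) := hφ.comp (contDiff_id.const_smul s)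
  have h2 := hU _ hψ
  have h3 : ∀ z : E n, fderiv ℝ (fun z : E n => φ (s • z)) z = s • fderiv ℝ φ (s • z) := by
    intro z
    have d1 : HasFDerivAt (fun z : E n => s • z) (s • ContinuousLinearMap.id ℝ (E n)) z :=
      (hasFDerivAt_id z).const_smul s
    have d2 := ((hφ.differentiable one_ne_zero (s • z)).hasFDerivAt).comp z d1
    have d3 : HasFDerivAt (fun z : E n => φ (s • z))
        ((fderiv ℝ φ (s • z)).comp (s • ContinuousLinearMap.id ℝ (E n))) z := d2
    rw [d3.fderiv]
    ext w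
    simp
  have h4 : ∫ z : E n, fderiv ℝ φ (s • z) (U z) = 0 := by
    have : ∫ z : E n, s * fderiv ℝ φ (s • z) (U z) = 0 := by
      rw [← h2]
      congr 1
      ext z
      rw [h3 z]
      simp
    rw [integral_const_mul] at this
    rcases mul_eq_zero.1 this with h | h
    · exact absurd h hs.ne'
    · exact h
  have h5 := Measure.integral_comp_smul (volume : Measure (E n))
    (fun y => fderiv ℝ φ y (U (s⁻¹ • y))) s
  simp only [inv_smul_smul₀ hs.ne'] at h5
  rw [h4] at h5
  rcases smul_eq_zero.1 h5.symm with h | h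
  · exfalso
    have : (s ^ Module.finrank ℝ (E n))⁻¹ ≠ 0 := inv_ne_zero (pow_ne_zero _ hs.ne')
    exact this (abs_eq_zero.1 h)
  · exact h

end Pool.Agent.W_MP_d1cfb0_an
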