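import Pool.Agent.W_MP_d1cfb0_an.Words

/-!
# Task A5: the Alexander path follows its velocity field

`path_estimate`. Let `W z = h z - fderiv ℝ h z z`: continuous, zero off `Q n ρ` (there `h` is the
identity on a neighbourhood), hence uniformly continuous. The derivative of
`σ ↦ σ • h (σ⁻¹ • x)` is `W (σ⁻¹ • x)`. For `s, σ ∈ [s₀, 1]` with `|σ - s| ≤ δ`:
`‖W (σ⁻¹ • x) - W (s⁻¹ • x)‖ ≤ η`, because either both points are off `Q n ρ`, or
`‖x‖ ≤ R := sup of the norm on Q n ρ` and `‖σ⁻¹ • x - s⁻¹ • x‖ ≤ δ R / s₀²`. Apply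
`Convex.norm_image_sub_le_of_norm_hasDerivWithin_le` (mean value) on `[s₀, 1]` to
`σ ↦ σ • h (σ⁻¹ • x) - σ • W (s⁻¹ • x)`. Note `gfield h (h z) = W z`.

`exists_lipschitz`: `f - id` is `C^1` with compact support
(`ContDiff.lipschitzWith_of_hasCompactSupport`).
-/

namespace Pool.Agent.W_MP_d1cfb0_an

theorem pe_isClosed_Q (n : ℕ) (ρ : ℝ) : IsClosed (Q n ρ) := by
  have h : Q n ρ = ⋂ i : Fin n, {x : E n | |x i| ≤ ρ} := by
    ext x
    simp [Q]
  rw [h]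
  refine isClosed_iInter fun i => ?_
  exact isClosed_le (continuous_abs.comp (EuclideanSpace.proj i).continuous) continuous_const

theorem pe_norm_le_of_mem_Q {n : ℕ} {ρ : ℝ} {x : E n} (hx : x ∈ Q n ρ) :
    ‖x‖ ≤ n * |ρ| := by
  have h1 : ‖x‖ ^ 2 ≤ (n * |ρ|) ^ 2 := by
    rw [EuclideanSpace.real_norm_sq_eq]
    have h2 : ∑ i : Fin n, x i ^ 2 ≤ ∑ _i : Fin n, |ρ| ^ 2 := by
      refine Finset.sum_le_sum fun i _ => ?_
      rw [← sq_abs]
      exact pow_le_pow_left₀ (abs_nonneg _) ((hx i).trans (le_abs_self _)) 2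
    refine h2.trans ?_
    rw [Finset.sum_const, Finset.card_univ, Fintype.card_fin, nsmul_eq_mul, mul_pow]
    have h3 : (n : ℝ) ≤ (n : ℝ) ^ 2 := by
      have : n ≤ n ^ 2 := by nlinarith [Nat.zero_le n, Nat.le_self_pow two_ne_zero n]
      exact_mod_cast this
    exact mul_le_mul_of_nonneg_right h3 (by positivity)
  exact (sq_le_sq₀ (norm_nonneg _) (by positivity)).1 h1

theorem pe_isCompact_Q (n : ℕ) (ρ : ℝ) : IsCompact (Q n ρ) := by
  refine Metric.isCompact_of_isClosed_isBounded (pe_isClosed_Q n ρ) ?_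
  rw [isBounded_iff_forall_norm_le]
  exact ⟨n * |ρ|, fun x hx => pe_norm_le_of_mem_Q hx⟩

/-- The velocity `W z = h z - Dh(z) z`. -/
noncomputable def peW {n : ℕ} (h : E n → E n) (z : E n) : E n := h z - fderiv ℝ h z z

theorem peW_eq_zero {n : ℕ} {h : E n → E n} {ρ : ℝ} (hsupp : ∀ x, x ∉ Q n ρ → h x = x) {z : E n}
    (hz : z ∉ Q n ρ) : peW h z = 0 := by
  have h1 : h =ᶠ[nhds z] id := by
    filter_upwards [(pe_isClosed_Q n ρ).isOpen_compl.mem_nhds hz] with y hy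
    exact hsupp y hy
  rw [peW, h1.fderiv_eq, hsupp z hz, fderiv_id]
  simp

theorem pe_continuous_W {n : ℕ} {h : E n → E n} (h1 : ContDiff ℝ 1 h) :
    Continuous (peW h) := by
  unfold peW
  exact h1.continuous.sub ((h1.continuous_fderiv (by norm_num)).clm_apply continuous_id)

theorem pe_uniform {n : ℕ} {h : E n → E n} (h1 : ContDiff ℝ 1 h) {ρ : ℝ}
    (hsupp : ∀ x, x ∉ Q n ρ → h x = x) : UniformContinuous (peW h) := by
  have hc : HasCompactSupport (peW h) :=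
    HasCompactSupport.intro (pe_isCompact_Q n ρ) fun z hz => peW_eq_zero hsupp hz
  exact hc.uniformContinuous_of_continuous (pe_continuous_W h1)

theorem pe_hasDerivAt {n : ℕ} {h : E n → E n} (h1 : ContDiff ℝ 1 h) {σ : ℝ} (hσ : σ ≠ 0)
    (x : E n) : HasDerivAt (fun t : ℝ => t • h (t⁻¹ • x)) (peW h (σ⁻¹ • x)) σ := by
  have hd : HasFDerivAt h (fderiv ℝ h (σ⁻¹ • x)) (σ⁻¹ • x) :=
    (h1.differentiable (by norm_num) (σ⁻¹ • x)).hasFDerivAt
  have hi : HasDerivAt (fun t : ℝ => t⁻¹ • x) (-(σ ^ 2)⁻¹ • x) σ :=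
    (hasDerivAt_inv hσ).smul_const x
  have hcmp : HasDerivAt (fun t : ℝ => h (t⁻¹ • x)) (fderiv ℝ h (σ⁻¹ • x) (-(σ ^ 2)⁻¹ • x)) σ :=
    hd.comp_hasDerivAt σ hi
  have h2 := (hasDerivAt_id σ).smul hcmp
  refine h2.congr_deriv ?_
  simp only [id, peW, map_smul, one_smul, smul_smul]
  have h3 : σ * -(σ ^ 2)⁻¹ = -σ⁻¹ := by
    field_simp
  rw [h3, neg_smul]
  abel

theorem path_estimate {n : ℕ} (h : E n ≃ₜ E n) (h1 : ContDiff ℝ 1 h) {ρ : ℝ}
    (hsupp : SuppIn h (Q n ρ)) {s₀ : ℝ} (hs₀ : 0 < s₀) {η : ℝ} (hη : 0 < η) :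
    ∃ δ : ℝ, 0 < δ ∧ ∀ s s' : ℝ, s₀ ≤ s → s ≤ 1 → s₀ ≤ s' → s' ≤ 1 → |s' - s| ≤ δ →
      ∀ x, ‖s' • h (s'⁻¹ • x) - s • h (s⁻¹ • x) - (s' - s) • gfield h (h (s⁻¹ • x))‖ ≤
        η * |s' - s| := by
  obtain ⟨δ₁, hδ₁, hW⟩ := Metric.uniformContinuous_iff.1 (pe_uniform h1 hsupp) η hη
  set R : ℝ := n * |ρ| + 1 with hR
  have hR0 : 0 < R := by positivity
  refine ⟨δ₁ * s₀ ^ 2 / (2 * R), by positivity, ?_⟩
  intro s s' hs hs1 hs' hs'1 hss x
  have hbound : ∀ σ : ℝ, s₀ ≤ σ → σ ≤ 1 → |σ - s| ≤ δ₁ * s₀ ^ 2 / (2 * R) →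
      ‖peW h (σ⁻¹ • x) - peW h (s⁻¹ • x)‖ ≤ η := by
    intro σ hσ hσ1 hσs
    have hs0 : 0 < s := hs₀.trans_le hs
    have hσ0 : 0 < σ := hs₀.trans_le hσ
    by_cases hx : ‖x‖ ≤ R
    · rw [← dist_eq_norm]
      refine (hW ?_).le
      rw [dist_eq_norm, ← sub_smul, norm_smul, Real.norm_eq_abs]
      have h3 : σ⁻¹ - s⁻¹ = (s - σ) / (σ * s) := by
        field_simp
      rw [h3, abs_div, abs_of_pos (mul_pos hσ0 hs0), abs_sub_comm]
      have h4 : s₀ ^ 2 ≤ σ * s := by nlinarith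
      calc |σ - s| / (σ * s) * ‖x‖ ≤ (δ₁ * s₀ ^ 2 / (2 * R)) / s₀ ^ 2 * R := by
            gcongr
        _ = δ₁ / 2 := by field_simp
        _ < δ₁ := by linarith
    · have hoff : ∀ t : ℝ, 0 < t → t ≤ 1 → t⁻¹ • x ∉ Q n ρ := by
        intro t ht ht1 hmem
        apply hx
        have h5 := pe_norm_le_of_mem_Q hmem
        rw [norm_smul, norm_inv, Real.norm_eq_abs, abs_of_pos ht] at h5
        have h6 : ‖x‖ ≤ t⁻¹ * ‖x‖ := by
          have : 1 ≤ t⁻¹ := (one_le_inv₀ ht).2 ht1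
          nlinarith [norm_nonneg x]
        linarith
      rw [peW_eq_zero hsupp (hoff σ hσ0 hσ1), peW_eq_zero hsupp (hoff s hs0 hs1)]
      simpa using hη.le
  have hg : gfield h (h (s⁻¹ • x)) = peW h (s⁻¹ • x) := by
    have h7 : h⁻¹ (h (s⁻¹ • x)) = s⁻¹ • x := h.symm_apply_apply _
    rw [gfield, h7, peW]
  rw [hg]
  set F : ℝ → E n := fun t => t • h (t⁻¹ • x) - t • peW h (s⁻¹ • x) with hF
  have hmv := (convex_uIcc s s').norm_image_sub_le_of_norm_hasDerivWithin_le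
    (f := F) (f' := fun t => peW h (t⁻¹ • x) - peW h (s⁻¹ • x)) (C := η) (x := s) (y := s')
    (by
      intro t ht
      have ht0 : s₀ ≤ t := by
        rcases Set.mem_uIcc.1 ht with h8 | h8 <;> linarith [h8.1]
      have hne : t ≠ 0 := (hs₀.trans_le ht0).ne'
      have h9 := (pe_hasDerivAt h1 hne x).sub ((hasDerivAt_id t).smul_const (peW h (s⁻¹ • x)))
      rw [one_smul] at h9
      exact h9.hasDerivWithinAt)
    (by
      intro t ht
      have ht0 : s₀ ≤ t := by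
        rcases Set.mem_uIcc.1 ht with h8 | h8 <;> linarith [h8.1]
      have ht1 : t ≤ 1 := by
        rcases Set.mem_uIcc.1 ht with h8 | h8 <;> linarith [h8.2]
      refine hbound t ht0 ht1 (le_trans ?_ hss)
      rcases Set.mem_uIcc.1 ht with h8 | h8
      · rw [abs_of_nonneg (by linarith [h8.1]), abs_of_nonneg (by linarith [h8.1, h8.2])]
        linarith [h8.2]
      · rw [abs_of_nonpos (by linarith [h8.2]), abs_of_nonpos (by linarith [h8.1, h8.2])]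
        linarith [h8.1])
    Set.left_mem_uIcc Set.right_mem_uIcc
  rw [Real.norm_eq_abs] at hmv
  refine le_trans (le_of_eq ?_) hmv
  congr 1
  simp only [hF, sub_smul]
  abel

theorem exists_lipschitz {n : ℕ} (f : E n → E n) (hf : ContDiff ℝ 1 f) {ρ : ℝ}
    (hsupp : ∀ x, x ∉ Q n ρ → f x = x) :
    ∃ L : ℝ, 1 ≤ L ∧ ∀ x y, dist (f x) (f y) ≤ L * dist x y := by
  have hc : HasCompactSupport (fun x => f x - x) :=
    HasCompactSupport.intro (pe_isCompact_Q n ρ) fun z hz => by rw [hsupp z hz, sub_self]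
  obtain ⟨C, hC⟩ := ContDiff.lipschitzWith_of_hasCompactSupport (𝕂 := ℝ) (n := 1) hc
    (hf.sub contDiff_id) (by norm_num)
  refine ⟨C + 1, by simp, fun x y => ?_⟩
  have h1 := hC.dist_le_mul x y
  have h2 : dist (f x) (f y) ≤ dist (f x - x) (f y - y) + dist x y := by
    rw [dist_eq_norm, dist_eq_norm, dist_eq_norm]
    calc ‖f x - f y‖ = ‖(f x - x - (f y - y)) + (x - y)‖ := by
          congr 1
          abel
      _ ≤ _ := norm_add_le _ _
  linarith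

end Pool.Agent.W_MP_d1cfb0_an
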