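import Pool.Agent.W_MP_d1cfb0_an.Words

/-!
# Task A6: telescoping

Proof by induction on `N`. `N = 0`: `g = 1`. Step: `pr φ (N+1) = φ N * pr φ N = φ N * h N * g * (h 0)⁻¹
= h (N+1) * (g' * g) * (h 0)⁻¹` with `g' = (h (N+1))⁻¹ * φ N * h N`;
`dist (g' y) y = dist ((h (N+1))⁻¹ (φ N (h N y))) ((h (N+1))⁻¹ (h (N+1) y)) ≤ L * e`.
-/

namespace Pool.Agent.W_MP_d1cfb0_an

/-- `φ (N-1) * … * φ 0`. -/
def pr {n : ℕ} (φ : ℕ → (E n ≃ₜ E n)) : ℕ → (E n ≃ₜ E n)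
  | 0 => 1
  | N + 1 => φ N * pr φ N

theorem telescope {n : ℕ} (h φ : ℕ → (E n ≃ₜ E n)) (L e : ℝ) (hL0 : 0 ≤ L) (N : ℕ)
    (hL : ∀ m ≤ N, ∀ x y, dist ((h m)⁻¹ x) ((h m)⁻¹ y) ≤ L * dist x y)
    (he : ∀ m < N, ∀ x, dist (φ m (h m x)) (h (m + 1) x) ≤ e) :
    ∃ g : E n ≃ₜ E n, (∀ x, dist (g x) x ≤ N * (L * e)) ∧ pr φ N = h N * g * (h 0)⁻¹ := by
  induction N with
  | zero =>
    refine ⟨1, fun x => ?_, ?_⟩
    · rw [one_apply', dist_self]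
      simp
    · show (1 : E n ≃ₜ E n) = h 0 * 1 * (h 0)⁻¹
      group
  | succ N ih =>
    obtain ⟨g, hg1, hg2⟩ := ih (fun m hm => hL m (by omega)) (fun m hm => he m (by omega))
    refine ⟨(h (N + 1))⁻¹ * φ N * h N * g, fun x => ?_, ?_⟩
    · have h1 : dist (((h (N + 1))⁻¹ * φ N * h N * g) x) (g x) ≤ L * e := by
        have h2 : ((h (N + 1))⁻¹ * φ N * h N * g) x = (h (N + 1))⁻¹ (φ N (h N (g x))) := rfl
        have h3 : g x = (h (N + 1))⁻¹ (h (N + 1) (g x)) := (inv_apply_self' _ _).symm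
        rw [h2]
        nth_rewrite 2 [h3]
        refine (hL (N + 1) le_rfl _ _).trans ?_
        exact mul_le_mul_of_nonneg_left (he N (Nat.lt_succ_self N) (g x)) hL0
      have h4 := dist_triangle (((h (N + 1))⁻¹ * φ N * h N * g) x) (g x) x
      have h5 := hg1 x
      push_cast
      linarith
    · show φ N * pr φ N = _
      rw [hg2]
      group

end Pool.Agent.W_MP_d1cfb0_an
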