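import Pool.Agent.W_MP_d1cfb0_an.Hull
import Pool.Agent.W_MP_d1cfb0_an.OneStep
import Pool.Agent.W_MP_d1cfb0_an.PathDiv
import Pool.Agent.W_MP_d1cfb0_an.PathEst
import Pool.Agent.W_MP_d1cfb0_an.Telescope

/-!
# Task A7: every measure preserving C^1 diffeomorphism is a limit of products of small twists

Proof. Let `L ≥ 1` be a Lipschitz constant of `h` and `h⁻¹` (`exists_lipschitz`), `U = gfield h`,
`B` a bound of `U` (continuous, compact support), `R ≥ dist (h z) z` for all `z` (and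
`dist (h⁻¹ z) z`). Choose `s₀ ∈ (0, 1)` with `L s₀ R < η/4`, and `η' > 0` with
`L * (L * 4 η') < η/4`. The fields `V_s y = U (s⁻¹ • y)`, `s ∈ [s₀, 1]`, are continuous, zero off
`Q n ρ`, bounded by `B`, weakly divergence free (`wdiv_scale`), and by uniform continuity of `U`
there is `ε₀ ∈ (0, 1]` such that `dist x y ≤ ε₀` implies `‖V_s x - V_s y‖ ≤ η'` for all
`s ∈ [s₀, 1]`. Let `0 < e < ε₀`, `M` from `hull` (for `ρ, B, e`), `M ≥ 0`. Take `δ'` from
`path_estimate` for `s₀, η'`, and `N` so large that `δ = (1 - s₀)/N ≤ δ'` and `3 δ M² ≤ η'`. Let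
`s m = s₀ + m δ`, `h_m = alex h (s m)`, `l m` from `hull` for `V_{s m}`,
`φ m = lmap e (lscale δ (l m))`. For `x : E n`, `y = h_m x`:
`‖φ m y - y - δ • lfield e (l m) y‖ ≤ 3 (δ M)² ≤ δ η'` (`one_step`),
`‖δ • lfield e (l m) y - δ • V_{s m} y‖ ≤ 2 δ η'`, and `V_{s m} (h_m x) = U (h ((s m)⁻¹ • x))`, so
`‖h_{m+1} x - y - δ • V_{s m} y‖ ≤ δ η'`. So `dist (φ m (h_m x)) (h_{m+1} x) ≤ 4 δ η'`.
`(h_m)⁻¹` has Lipschitz constant `L` (`alex_inv_apply`). By `telescope`,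
`G := pr φ N = h_N * g * h_0⁻¹`, `h_N = h`, `dist (g x) x ≤ N L 4 δ η' ≤ 4 L η'`. Hence
`dist (G x) (h x) = dist (h (g (h_0⁻¹ x))) (h x) ≤ L (4 L η' + dist (h_0⁻¹ x) x) ≤
L (4 L η' + s₀ R) < η`, and `G⁻¹ x = h_0 (g⁻¹ (h⁻¹ x))` is at distance `≤ s₀ R + 4 L η' < η` from
`h⁻¹ x`. `G = lmap e l` for the concatenation of the lists (`lmap_append`).
-/

namespace Pool.Agent.W_MP_d1cfb0_an

open MeasureTheory

theorem partA_isCompact_Q (n : ℕ) (ρ : ℝ) : IsCompact (Q n ρ) := by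
  have h1 : IsCompact ((EuclideanSpace.equiv (Fin n) ℝ).symm ''
      (Set.univ.pi fun _ : Fin n => Set.Icc (-ρ) ρ)) :=
    (isCompact_univ_pi fun _ => isCompact_Icc).image (EuclideanSpace.equiv (Fin n) ℝ).symm.continuous
  convert h1 using 1
  ext x
  simp only [Q, Set.mem_ofPred_eq, Set.mem_image, Set.mem_univ_pi, Set.mem_Icc, abs_le]
  constructor
  · intro h
    exact ⟨fun i => x i, h, rfl⟩
  · rintro ⟨y, hy, rfl⟩ i
    exact hy i

/-- A continuous map which is zero off the cube is bounded and uniformly continuous. -/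
theorem partA_bounded {n : ℕ} {ρ : ℝ} (U : E n → E n) (hU : Continuous U)
    (h0 : ∀ x, x ∉ Q n ρ → U x = 0) :
    (∃ B : ℝ, 0 ≤ B ∧ ∀ x, ‖U x‖ ≤ B) ∧ UniformContinuous U := by
  have hs : HasCompactSupport U := HasCompactSupport.intro (partA_isCompact_Q n ρ) h0
  refine ⟨?_, hs.uniformContinuous_of_continuous hU⟩
  obtain ⟨B, hB⟩ := hU.bounded_above_of_compact_support hs
  exact ⟨max B 0, le_max_right _ _, fun x => (hB x).trans (le_max_left _ _)⟩

theorem partA_displacement {n : ℕ} {ρ : ℝ} (h : E n ≃ₜ E n) (hsupp : SuppIn h (Q n ρ)) :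
    ∃ R : ℝ, 0 ≤ R ∧ (∀ x, dist (h x) x ≤ R) ∧ ∀ x, dist (h⁻¹ x) x ≤ R := by
  obtain ⟨⟨R, hR0, hR⟩, -⟩ := partA_bounded (ρ := ρ) (fun x => h x - x)
    (h.continuous.sub continuous_id) (fun x hx => by simp only [hsupp x hx, sub_self])
  refine ⟨R, hR0, fun x => by rw [dist_eq_norm]; exact hR x, fun x => ?_⟩
  have h1 := hR (h⁻¹ x)
  simp only [apply_inv_self'] at h1
  rw [dist_comm, dist_eq_norm]
  exact h1

theorem partA_inv_smul_notMem {n : ℕ} {ρ : ℝ} {s : ℝ} (hs : 0 < s) (hs1 : s ≤ 1)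
    {y : E n} (hy : y ∉ Q n ρ) : s⁻¹ • y ∉ Q n ρ := by
  intro h1
  apply hy
  intro i
  have h2 := h1 i
  rw [PiLp.smul_apply, smul_eq_mul, abs_mul, abs_of_pos (inv_pos.2 hs)] at h2
  have h3 : 1 ≤ s⁻¹ := (one_le_inv₀ hs).2 hs1
  have h4 := abs_nonneg (y i)
  nlinarith

/-- The list of the product. -/
noncomputable def catList {n : ℕ} (l : ℕ → List (TD n)) : ℕ → List (TD n)
  | 0 => []
  | N + 1 => l N ++ catList l N

theorem pr_lmap {n : ℕ} (e : ℝ) (l : ℕ → List (TD n)) (N : ℕ) :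
    pr (fun m => lmap e (l m)) N = lmap e (catList l N) := by
  induction N with
  | zero => rfl
  | succ N ih =>
    rw [pr, ih, catList, lmap_append]

theorem mem_catList {n : ℕ} {K : Set (E n)} (l : ℕ → List (TD n)) (N : ℕ)
    (h : ∀ m < N, ∀ d ∈ l m, d.c ∈ K) : ∀ d ∈ catList l N, d.c ∈ K := by
  induction N with
  | zero =>
    intro d hd
    simp [catList] at hd
  | succ N ih =>
    intro d hd
    rw [catList, List.mem_append] at hd
    rcases hd with hd | hd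
    · exact h N (Nat.lt_succ_self N) d hd
    · exact ih (fun m hm => h m (Nat.lt_succ_of_lt hm)) d hd

theorem partA {n : ℕ} (hn : 2 ≤ n) (h : E n ≃ₜ E n) (h1 : ContDiff ℝ 1 h)
    (h2 : ContDiff ℝ 1 (h⁻¹ : E n ≃ₜ E n)) (hmp : MeasurePreserving h volume volume)
    {ρ : ℝ} (hρ : 0 < ρ) (hsupp : SuppIn h (Q n ρ)) {η : ℝ} (hη : 0 < η) :
    ∃ ε₀ : ℝ, 0 < ε₀ ∧ ∀ e : ℝ, 0 < e → e < ε₀ → ∃ l : List (TD n), (∀ d ∈ l, d.c ∈ Q n ρ) ∧
      ∀ x, dist (lmap e l x) (h x) < η ∧ dist ((lmap e l)⁻¹ x) (h⁻¹ x) < η := by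
  -- Lipschitz constant
  obtain ⟨L, hL1, hLh, hLi⟩ : ∃ L : ℝ, 1 ≤ L ∧ (∀ x y, dist (h x) (h y) ≤ L * dist x y) ∧
      (∀ x y, dist (h⁻¹ x) (h⁻¹ y) ≤ L * dist x y) := by
    obtain ⟨L₁, hL₁, hL₁'⟩ := exists_lipschitz h h1 hsupp
    obtain ⟨L₂, hL₂, hL₂'⟩ := exists_lipschitz _ h2 hsupp.inv
    refine ⟨max L₁ L₂, hL₁.trans (le_max_left _ _), fun x y => (hL₁' x y).trans ?_,
      fun x y => (hL₂' x y).trans ?_⟩
    · exact mul_le_mul_of_nonneg_right (le_max_left _ _) dist_nonneg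
    · exact mul_le_mul_of_nonneg_right (le_max_right _ _) dist_nonneg
  have hL0 : 0 < L := by linarith
  -- the generating field
  set U : E n → E n := gfield h with hUdef
  have hUc : Continuous U := continuous_gfield h h1
  have hU0 : ∀ x, x ∉ Q n ρ → U x = 0 := gfield_eq_zero h hsupp
  have hUd : WDiv U := wdiv_gfield h h1 hmp hsupp
  obtain ⟨⟨B, hB0, hB⟩, hUu⟩ := partA_bounded U hUc hU0
  obtain ⟨R, hR0, hRh, hRi⟩ := partA_displacement h hsupp
  -- the constants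
  obtain ⟨s₀, hs₀, hs₀1, hs₀R⟩ : ∃ s₀ : ℝ, 0 < s₀ ∧ s₀ < 1 ∧ L * (s₀ * R) < η / 4 := by
    refine ⟨min (1 / 2) (η / (8 * (L * (R + 1)))), lt_min (by norm_num) (by positivity),
      (min_le_left _ _).trans_lt (by norm_num), ?_⟩
    have h3 : min (1 / 2) (η / (8 * (L * (R + 1)))) ≤ η / (8 * (L * (R + 1))) := min_le_right _ _
    have h4 : L * (min (1 / 2) (η / (8 * (L * (R + 1)))) * R) ≤
        L * (η / (8 * (L * (R + 1))) * R) := by gcongr
    have h5 : L * (η / (8 * (L * (R + 1))) * R) = η / 8 * (R / (R + 1)) := by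
      field_simp
    have h6 : R / (R + 1) ≤ 1 := by
      rw [div_le_one (by linarith)]
      linarith
    have h7 : η / 8 * (R / (R + 1)) ≤ η / 8 * 1 := by gcongr
    linarith
  obtain ⟨η', hη', hη'L⟩ : ∃ η' : ℝ, 0 < η' ∧ L * (L * (4 * η')) < η / 4 := by
    refine ⟨η / (32 * (L * L)), by positivity, ?_⟩
    have h3 : L * (L * (4 * (η / (32 * (L * L))))) = η / 8 := by
      field_simp
      norm_num
    linarith
  obtain ⟨δU, hδU, hδU'⟩ := Metric.uniformContinuous_iff.1 hUu η' hη'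
  refine ⟨min 1 (s₀ * δU), lt_min one_pos (by positivity), fun e he he' => ?_⟩
  have he1 : e ≤ 1 := he'.le.trans (min_le_left _ _)
  have heδ : e < s₀ * δU := he'.trans_le (min_le_right _ _)
  obtain ⟨M₀, hM₀⟩ := hull hn ρ B e hρ hB0 he
  obtain ⟨δ', hδ', hpath⟩ := path_estimate h h1 hsupp hs₀ hη'
  set M : ℝ := max M₀ 0 with hMdef
  have hM0 : 0 ≤ M := le_max_right _ _
  -- the lists
  have hlist : ∀ s : ℝ, ∃ l : List (TD n), s₀ ≤ s → s ≤ 1 → (∀ d ∈ l, d.c ∈ Q n ρ) ∧ lwt l ≤ M ∧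
      ∀ x, ‖lfield e l x - U (s⁻¹ • x)‖ ≤ 2 * η' := by
    intro s
    by_cases hs : s₀ ≤ s ∧ s ≤ 1
    · obtain ⟨hs1, hs2⟩ := hs
      have hs0 : 0 < s := hs₀.trans_le hs1
      obtain ⟨l, hl1, hl2, hl3⟩ := hM₀ (fun x => U (s⁻¹ • x))
        (hUc.comp (continuous_const_smul _))
        (fun x hx => hU0 _ (partA_inv_smul_notMem hs0 hs2 hx)) (fun x => hB _)
        (wdiv_scale U hUd s hs0) η' hη' (by
          intro x y hxy
          have h3 : dist (s⁻¹ • x) (s⁻¹ • y) < δU := by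
            rw [dist_smul₀, Real.norm_eq_abs, abs_of_pos (inv_pos.2 hs0)]
            have h4 : s⁻¹ * dist x y ≤ s₀⁻¹ * e := by
              gcongr
            have h5 : s₀⁻¹ * e < δU := by
              rw [inv_mul_lt_iff₀ hs₀]
              exact heδ
            exact h4.trans_lt h5
          have h6 := hδU' h3
          rw [dist_eq_norm] at h6
          exact h6.le)
      exact ⟨l, fun _ _ => ⟨hl1, hl2.trans (le_max_left _ _), hl3⟩⟩
    · exact ⟨[], fun h3 h4 => absurd ⟨h3, h4⟩ hs⟩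
  choose lst hlst using hlist
  -- the subdivision
  obtain ⟨N, hN0, hN1, hN2⟩ : ∃ N : ℕ, 0 < N ∧ (1 - s₀) / N ≤ δ' ∧
      3 * ((1 - s₀) / N) * M ^ 2 ≤ η' := by
    obtain ⟨N, hN⟩ := exists_nat_gt (max ((1 - s₀) / δ') (3 * (1 - s₀) * M ^ 2 / η'))
    have h3 : (1 - s₀) / δ' < N := (le_max_left _ _).trans_lt hN
    have h4 : 3 * (1 - s₀) * M ^ 2 / η' < N := (le_max_right _ _).trans_lt hN
    have h5 : 0 < (N : ℝ) := lt_of_le_of_lt (by
      have : 0 < 1 - s₀ := by linarith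
      positivity) h3
    refine ⟨N, by exact_mod_cast h5, ?_, ?_⟩
    · rw [div_lt_iff₀ hδ'] at h3
      rw [div_le_iff₀ h5]
      linarith
    · rw [div_lt_iff₀ hη'] at h4
      have h6 : 3 * ((1 - s₀) / N) * M ^ 2 = 3 * (1 - s₀) * M ^ 2 / N := by ring
      rw [h6, div_le_iff₀ h5]
      linarith
  have hNr : 0 < (N : ℝ) := by exact_mod_cast hN0
  set δ : ℝ := (1 - s₀) / N with hδdef
  have hδ0 : 0 < δ := div_pos (by linarith) hNr
  have hNδ : (N : ℝ) * δ = 1 - s₀ := by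
    rw [hδdef]
    field_simp
  set s : ℕ → ℝ := fun m => s₀ + m * δ with hsdef
  have hs_pos : ∀ m, 0 < s m := fun m => by
    have : 0 ≤ (m : ℝ) * δ := by positivity
    simp only [hsdef]
    linarith
  have hs_ge : ∀ m, s₀ ≤ s m := fun m => by
    have : 0 ≤ (m : ℝ) * δ := by positivity
    simp only [hsdef]
    linarith
  have hs_le : ∀ m ≤ N, s m ≤ 1 := fun m hm => by
    have h3 : (m : ℝ) ≤ N := by exact_mod_cast hm
    have h4 : (m : ℝ) * δ ≤ N * δ := by gcongr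
    simp only [hsdef]
    linarith
  have hs_succ : ∀ m, s (m + 1) - s m = δ := fun m => by
    simp only [hsdef]
    push_cast
    ring
  have hsN : s N = 1 := by
    simp only [hsdef]
    linarith
  have hs0' : s 0 = s₀ := by
    simp [hsdef]
  set hh : ℕ → (E n ≃ₜ E n) := fun m => alex h (s m) (hs_pos m).ne' with hhdef
  set φ : ℕ → (E n ≃ₜ E n) := fun m => lmap e (lscale δ (lst (s m))) with hφdef
  -- one step
  have hstep : ∀ m < N, ∀ x, dist (φ m (hh m x)) (hh (m + 1) x) ≤ 4 * (δ * η') := by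
    intro m hm x
    obtain ⟨hl1, hl2, hl3⟩ := hlst (s m) (hs_ge m) (hs_le m hm.le)
    set y : E n := hh m x with hy
    have hy' : y = s m • h ((s m)⁻¹ • x) := rfl
    have e1 : ‖φ m y - y - δ • lfield e (lst (s m)) y‖ ≤ δ * η' := by
      have h3 := (one_step he he1 (lscale δ (lst (s m))) y).2
      rw [lfield_lscale, lwt_lscale, abs_of_pos hδ0] at h3
      refine h3.trans ?_
      have h4 : (δ * lwt (lst (s m))) ^ 2 ≤ (δ * M) ^ 2 := by
        have h5 := lwt_nonneg (lst (s m))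
        gcongr
      have h5 : 3 * (δ * M) ^ 2 = δ * (3 * δ * M ^ 2) := by ring
      have h6 : δ * (3 * δ * M ^ 2) ≤ δ * η' := by gcongr
      linarith
    have e2 : ‖δ • lfield e (lst (s m)) y - δ • U ((s m)⁻¹ • y)‖ ≤ 2 * (δ * η') := by
      rw [← smul_sub, norm_smul, Real.norm_eq_abs, abs_of_pos hδ0]
      have h3 := hl3 y
      have h4 : δ * ‖lfield e (lst (s m)) y - U ((s m)⁻¹ • y)‖ ≤ δ * (2 * η') := by gcongr
      linarith
    have e3 : ‖hh (m + 1) x - y - δ • U ((s m)⁻¹ • y)‖ ≤ δ * η' := by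
      have h3 := hpath (s m) (s (m + 1)) (hs_ge m) (hs_le m hm.le) (hs_ge (m + 1))
        (hs_le (m + 1) hm) (by rw [hs_succ, abs_of_pos hδ0]; exact hN1) x
      rw [hs_succ, abs_of_pos hδ0] at h3
      have h4 : (s m)⁻¹ • y = h ((s m)⁻¹ • x) := by
        rw [hy', inv_smul_smul₀ (hs_pos m).ne']
      rw [h4, hy']
      rw [mul_comm] at h3
      exact h3
    have e4 : φ m y - hh (m + 1) x = (φ m y - y - δ • lfield e (lst (s m)) y) +
        (δ • lfield e (lst (s m)) y - δ • U ((s m)⁻¹ • y)) -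
        (hh (m + 1) x - y - δ • U ((s m)⁻¹ • y)) := by abel
    rw [dist_eq_norm, e4]
    refine (norm_sub_le _ _).trans ?_
    have e5 := norm_add_le (φ m y - y - δ • lfield e (lst (s m)) y)
      (δ • lfield e (lst (s m)) y - δ • U ((s m)⁻¹ • y))
    linarith
  have hLm : ∀ m ≤ N, ∀ x y, dist ((hh m)⁻¹ x) ((hh m)⁻¹ y) ≤ L * dist x y := by
    intro m _ x y
    simp only [hhdef]
    rw [alex_inv_apply, alex_inv_apply, dist_smul₀, Real.norm_eq_abs, abs_of_pos (hs_pos m)]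
    have h3 := hLi ((s m)⁻¹ • x) ((s m)⁻¹ • y)
    rw [dist_smul₀ ((s m)⁻¹), Real.norm_eq_abs, abs_of_pos (inv_pos.2 (hs_pos m))] at h3
    calc s m * dist (h⁻¹ ((s m)⁻¹ • x)) (h⁻¹ ((s m)⁻¹ • y))
        ≤ s m * (L * ((s m)⁻¹ * dist x y)) := by
          have := (hs_pos m).le
          gcongr
      _ = L * dist x y := by
          have := (hs_pos m).ne'
          field_simp
  obtain ⟨g, hg, hpr⟩ := telescope hh φ L (4 * (δ * η')) hL0.le N hLm hstep
  have hg' : ∀ x, dist (g x) x ≤ L * (4 * η') := by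
    intro x
    refine (hg x).trans ?_
    have h3 : (N : ℝ) * (L * (4 * (δ * η'))) = (N * δ) * (L * (4 * η')) := by ring
    rw [h3, hNδ]
    have h4 : 0 < L * (4 * η') := by positivity
    nlinarith
  have hginv : ∀ x, dist (g⁻¹ x) x ≤ L * (4 * η') := by
    intro x
    have h3 := hg' (g⁻¹ x)
    rw [apply_inv_self', dist_comm] at h3
    exact h3
  have hhN : hh N = h := by
    ext1 x
    simp only [hhdef]
    rw [alex_apply, hsN]
    simp
  have h0i : ∀ x, dist ((hh 0)⁻¹ x) x ≤ s₀ * R := by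
    intro x
    simp only [hhdef]
    rw [alex_inv_apply, hs0']
    have h3 : x = s₀ • (s₀⁻¹ • x) := by rw [smul_inv_smul₀ hs₀.ne']
    nth_rewrite 2 [h3]
    rw [dist_smul₀, Real.norm_eq_abs, abs_of_pos hs₀]
    exact mul_le_mul_of_nonneg_left (hRi _) hs₀.le
  have h0 : ∀ x, dist ((hh 0) x) x ≤ s₀ * R := by
    intro x
    simp only [hhdef]
    rw [alex_apply, hs0']
    have h3 : x = s₀ • (s₀⁻¹ • x) := by rw [smul_inv_smul₀ hs₀.ne']
    nth_rewrite 2 [h3]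
    rw [dist_smul₀, Real.norm_eq_abs, abs_of_pos hs₀]
    exact mul_le_mul_of_nonneg_left (hRh _) hs₀.le
  refine ⟨catList (fun m => lscale δ (lst (s m))) N, mem_catList _ N fun m hm =>
    mem_lscale (hlst (s m) (hs_ge m) (hs_le m hm.le)).1, fun x => ?_⟩
  rw [← pr_lmap]
  have hpr' : pr (fun m => lmap e (lscale δ (lst (s m)))) N = h * g * (hh 0)⁻¹ := by
    rw [← hhN]
    exact hpr
  rw [hpr']
  constructor
  · rw [mul_apply', mul_apply']
    refine (hLh _ _).trans_lt ?_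
    have h3 : dist (g ((hh 0)⁻¹ x)) x ≤ L * (4 * η') + s₀ * R :=
      (dist_triangle _ ((hh 0)⁻¹ x) _).trans (add_le_add (hg' _) (h0i x))
    have h4 : L * dist (g ((hh 0)⁻¹ x)) x ≤ L * (L * (4 * η') + s₀ * R) := by gcongr
    linarith
  · have h3 : (h * g * (hh 0)⁻¹)⁻¹ x = hh 0 (g⁻¹ (h⁻¹ x)) := by
      rw [mul_inv_rev, mul_inv_rev, inv_inv]
      rfl
    rw [h3]
    have h4 : dist (hh 0 (g⁻¹ (h⁻¹ x))) (h⁻¹ x) ≤ s₀ * R + L * (4 * η') :=
      (dist_triangle _ (g⁻¹ (h⁻¹ x)) _).trans (add_le_add (h0 _) (hginv _))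
    have h5 : s₀ * R ≤ L * (s₀ * R) := by
      have : 0 ≤ s₀ * R := by positivity
      nlinarith
    have h6 : L * (4 * η') ≤ L * (L * (4 * η')) := by
      have : 0 ≤ L * (4 * η') := by positivity
      nlinarith
    linarith

end Pool.Agent.W_MP_d1cfb0_an
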