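import Pool.Agent.W_MP_d1cfb0_an.Final

/-!
# Finitely many measure preserving homeomorphisms of the cube whose closed group contains all
compactly supported measure preserving `C^1` diffeomorphisms of the open cube

For every `n ≥ 2` there are finitely many measure preserving homeomorphisms of `[0,1]^n` such that
every measure preserving `C^1` diffeomorphism of `ℝ^n` which is the identity off a compact subset of
the open cube restricts to a limit (uniformly, together with the inverses) of elements of the group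
they generate.
-/

namespace Pool.Agent.Results.MP_d1cfb0_an.SmoothClosure

open MeasureTheory

/-- The closed cube `I^n = [0,1]^n` in Euclidean space. -/
def Cube (n : ℕ) : Set (EuclideanSpace ℝ (Fin n)) := {x | ∀ i, x i ∈ Set.Icc (0:ℝ) 1}

/-- The homeomorphism `T` of the cube preserves Lebesgue measure, i.e. `T ∈ Σ_n`. -/
def PreservesVolume {n : ℕ} (T : Cube n ≃ₜ Cube n) : Prop :=
  ∀ A : Set (EuclideanSpace ℝ (Fin n)), MeasurableSet A → A ⊆ Cube n →
    volume (Subtype.val '' (T '' (Subtype.val ⁻¹' A))) = volume A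

/-- The homeomorphism `f` of Euclidean space is a `C^1` diffeomorphism preserving Lebesgue measure
and is the identity off some compact subset of the open cube `(0,1)^n`. -/
structure InnerSmooth {n : ℕ} (f : EuclideanSpace ℝ (Fin n) ≃ₜ EuclideanSpace ℝ (Fin n)) :
    Prop where
  smooth : ContDiff ℝ 1 f
  smooth_symm : ContDiff ℝ 1 f.symm
  measurePreserving : MeasurePreserving f volume volume
  support : ∃ K : Set (EuclideanSpace ℝ (Fin n)), IsCompact K ∧
    K ⊆ {x | ∀ i, x i ∈ Set.Ioo (0:ℝ) 1} ∧ ∀ x, x ∉ K → f x = x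

theorem result (n : ℕ) (hn : 2 ≤ n) :
    ∃ (k : ℕ) (T : Fin k → (Cube n ≃ₜ Cube n)), (∀ i, PreservesVolume (T i)) ∧
      ∀ f : EuclideanSpace ℝ (Fin n) ≃ₜ EuclideanSpace ℝ (Fin n), InnerSmooth f →
        ∀ h : Cube n ≃ₜ Cube n, (∀ p : Cube n, (h p : EuclideanSpace ℝ (Fin n)) = f p) →
        ∀ ε : ℝ, 0 < ε → ∃ g ∈ Subgroup.closure (Set.range T),
          ∀ p : Cube n, dist (g p) (h p) < ε ∧ dist (g⁻¹ p) (h⁻¹ p) < ε := by
  obtain ⟨k, T, h1, h2⟩ := Pool.Agent.W_MP_d1cfb0_an.final n hn (Cube n) rfl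
  refine ⟨k, T, h1, fun f hf h hh ε hε => ?_⟩
  obtain ⟨g, hg, hd⟩ := h2 f hf.smooth hf.smooth_symm hf.measurePreserving hf.support h hh ε hε
  refine ⟨g, ?_, hd⟩
  exact hg {u | u ∈ Subgroup.closure (Set.range T)}
    (show (1 : Cube n ≃ₜ Cube n) ∈ Subgroup.closure (Set.range T) from Subgroup.one_mem _)
    (fun i => Subgroup.subset_closure ⟨i, rfl⟩)
    (fun u hu v hv => show v * u ∈ Subgroup.closure (Set.range T) from
      Subgroup.mul_mem _ hv hu)
    (fun u hu => show u⁻¹ ∈ Subgroup.closure (Set.range T) from Subgroup.inv_mem _ hu)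

end Pool.Agent.Results.MP_d1cfb0_an.SmoothClosure
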