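import Pool.Agent.W_MP_d1cfb0_an.Defs

/-!
# Supports and twists
-/

namespace Pool.Agent.W_MP_d1cfb0_an

open MeasureTheory

section Supp

variable {X : Type*} [TopologicalSpace X] {g g' f : X ≃ₜ X} {B B' : Set X}

theorem mul_apply' (g g' : X ≃ₜ X) (x : X) : (g * g') x = g (g' x) := rfl

theorem one_apply' (x : X) : (1 : X ≃ₜ X) x = x := rfl

theorem inv_apply_self' (g : X ≃ₜ X) (x : X) : g⁻¹ (g x) = x := g.symm_apply_apply x

theorem apply_inv_self' (g : X ≃ₜ X) (x : X) : g (g⁻¹ x) = x := g.apply_symm_apply x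

theorem suppIn_one (B : Set X) : SuppIn (1 : X ≃ₜ X) B := fun _ _ => rfl

theorem SuppIn.mono (h : SuppIn g B) (hB : B ⊆ B') : SuppIn g B' :=
  fun x hx => h x (fun hx' => hx (hB hx'))

theorem SuppIn.inv (h : SuppIn g B) : SuppIn g⁻¹ B := by
  intro x hx
  have h1 := h x hx
  calc g⁻¹ x = g⁻¹ (g x) := by rw [h1]
    _ = x := inv_apply_self' g x

theorem SuppIn.mul (h : SuppIn g B) (h' : SuppIn g' B) : SuppIn (g * g') B := by
  intro x hx
  rw [mul_apply', h' x hx, h x hx]

theorem SuppIn.mem_of_mem (h : SuppIn g B) {x : X} (hx : x ∈ B) : g x ∈ B := by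
  by_contra hc
  have h1 := h (g x) hc
  have h2 : g x = x := g.injective h1
  rw [h2] at hc
  exact hc hx

theorem SuppIn.mem_iff (h : SuppIn g B) {x : X} : g x ∈ B ↔ x ∈ B := by
  constructor
  · intro hx
    have h1 := h.inv.mem_of_mem hx
    rwa [inv_apply_self'] at h1
  · exact h.mem_of_mem

theorem SuppIn.conj (h : SuppIn g B) (f : X ≃ₜ X) : SuppIn (f * g * f⁻¹) (f '' B) := by
  intro x hx
  rw [mul_apply', mul_apply']
  have h1 : f⁻¹ x ∉ B := fun h2 => hx ⟨f⁻¹ x, h2, apply_inv_self' f x⟩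
  rw [h _ h1, apply_inv_self']

/-- Homeomorphisms with disjoint supports commute. -/
theorem SuppIn.comm (h : SuppIn g B) (h' : SuppIn g' B') (hd : Disjoint B B') :
    g * g' = g' * g := by
  ext x
  rw [mul_apply', mul_apply']
  by_cases hx : x ∈ B
  · have hx' : x ∉ B' := fun h1 => Set.disjoint_left.1 hd hx h1
    have hgx : g x ∉ B' := fun h1 => Set.disjoint_left.1 hd (h.mem_of_mem hx) h1
    rw [h' x hx', h' _ hgx]
  · by_cases hx' : x ∈ B'
    · have hgx : g' x ∉ B := fun h1 => Set.disjoint_left.1 hd h1 (h'.mem_of_mem hx')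
      rw [h _ hgx, h x hx]
    · rw [h' x hx', h x hx, h' x hx']

end Supp

variable {n : ℕ} {i j : Fin n}

theorem continuous_twistFun (i j : Fin n) (c : E n) (a : ℝ → ℝ) (ha : Continuous a) :
    Continuous fun x : E n => c + rot i j (a ‖x - c‖) (x - c) := by
  have h1 : Continuous fun x : E n => (a ‖x - c‖, x - c) := by fun_prop
  have h2 : Continuous ((fun p : ℝ × E n => rot i j p.1 p.2) ∘
      fun x : E n => (a ‖x - c‖, x - c)) := (continuous_rot i j).comp h1
  exact continuous_const.add h2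

/-- The twist `x ↦ c + R_{a(‖x - c‖)} (x - c)` with profile `a`. -/
noncomputable def twist (hij : i ≠ j) (c : E n) (a : C(ℝ, ℝ)) : E n ≃ₜ E n where
  toFun x := c + rot i j (a ‖x - c‖) (x - c)
  invFun x := c + rot i j (-(a ‖x - c‖)) (x - c)
  left_inv x := by
    simp only [add_sub_cancel_left]
    rw [norm_rot hij, rot_rot hij, neg_add_cancel, rot_zero, add_sub_cancel]
  right_inv x := by
    simp only [add_sub_cancel_left]
    rw [norm_rot hij, rot_rot hij, add_neg_cancel, rot_zero, add_sub_cancel]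
  continuous_toFun := continuous_twistFun i j c a a.continuous
  continuous_invFun := continuous_twistFun i j c (fun u => -(a u)) a.continuous.neg

theorem twist_apply (hij : i ≠ j) (c : E n) (a : C(ℝ, ℝ)) (x : E n) :
    twist hij c a x = c + rot i j (a ‖x - c‖) (x - c) := rfl

theorem twist_inv (hij : i ≠ j) (c : E n) (a : C(ℝ, ℝ)) :
    (twist hij c a)⁻¹ = twist hij c (-a) := by
  ext1 x
  rfl

theorem norm_twist_sub (hij : i ≠ j) (c : E n) (a : C(ℝ, ℝ)) (x : E n) :
    ‖twist hij c a x - c‖ = ‖x - c‖ := by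
  rw [twist_apply, add_sub_cancel_left, norm_rot hij]

theorem twist_mul (hij : i ≠ j) (c : E n) (a a' : C(ℝ, ℝ)) :
    twist hij c a * twist hij c a' = twist hij c (a + a') := by
  ext1 x
  rw [mul_apply', twist_apply hij c a, norm_twist_sub, twist_apply hij c a', twist_apply,
    add_sub_cancel_left, rot_rot hij, ContinuousMap.add_apply]

theorem twist_zero (hij : i ≠ j) (c : E n) : twist hij c 0 = 1 := by
  ext1 x
  rw [twist_apply, ContinuousMap.zero_apply, rot_zero, add_sub_cancel, one_apply']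

theorem dist_twist_le (hij : i ≠ j) (c : E n) (a : C(ℝ, ℝ)) (x : E n) :
    dist (twist hij c a x) x ≤ |a ‖x - c‖| * ‖x - c‖ := by
  have h1 : twist hij c a x - x = rot i j (a ‖x - c‖) (x - c) - (x - c) := by
    rw [twist_apply]
    abel
  rw [dist_eq_norm, h1]
  exact norm_rot_sub_le hij _ _

theorem suppIn_twist (hij : i ≠ j) (c : E n) (a : C(ℝ, ℝ)) {r : ℝ}
    (ha : ∀ u, r ≤ u → a u = 0) : SuppIn (twist hij c a) (Metric.closedBall c r) := by
  intro x hx
  rw [Metric.mem_closedBall, not_le, dist_eq_norm] at hx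
  rw [twist_apply, ha _ hx.le, rot_zero, add_sub_cancel]

/-- Conjugation of a twist by a map which is a translation near the support. -/
theorem conj_twist (hij : i ≠ j) (c : E n) (a : C(ℝ, ℝ)) {r : ℝ} (ha : ∀ u, r ≤ u → a u = 0)
    (g : E n ≃ₜ E n) (w : E n) (hg : ∀ x ∈ Metric.closedBall c r, g x = x + w) :
    g * twist hij c a * g⁻¹ = twist hij (c + w) a := by
  ext1 y
  rw [mul_apply', mul_apply']
  by_cases hx : g⁻¹ y ∈ Metric.closedBall c r
  · have h1 : twist hij c a (g⁻¹ y) ∈ Metric.closedBall c r := (suppIn_twist hij c a ha).mem_of_mem hx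
    have h2 : y = g⁻¹ y + w := by
      rw [← hg _ hx, apply_inv_self']
    have h3 : y - (c + w) = g⁻¹ y - c := by
      nth_rewrite 1 [h2]
      abel
    rw [hg _ h1, twist_apply, twist_apply, h3]
    abel
  · rw [suppIn_twist hij c a ha _ hx, apply_inv_self']
    symm
    refine suppIn_twist hij (c + w) a ha y ?_
    intro h1
    apply hx
    rw [Metric.mem_closedBall, dist_eq_norm] at h1
    have h2 : y - w ∈ Metric.closedBall c r := by
      rw [Metric.mem_closedBall, dist_eq_norm]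
      have h3 : y - w - c = y - (c + w) := by abel
      rw [h3]
      exact h1
    have h3 : g (y - w) = y := by
      rw [hg _ h2, sub_add_cancel]
    have h4 : g⁻¹ y = y - w := by
      rw [← h3, inv_apply_self', h3]
    rw [h4]
    exact h2

/-- The profile `u ↦ τ β(u / r)`. -/
noncomputable def prof (β : C(ℝ, ℝ)) (r τ : ℝ) : C(ℝ, ℝ) :=
  ⟨fun u => τ * β (u / r), by fun_prop⟩

theorem prof_apply (β : C(ℝ, ℝ)) (r τ u : ℝ) : prof β r τ u = τ * β (u / r) := rfl

/-- The shape `u ↦ max (1 - u²) 0`. -/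
noncomputable def bump : C(ℝ, ℝ) := ⟨fun u => max (1 - u ^ 2) 0, by fun_prop⟩

/-- The shape which is `1` for `u ≤ 1/2`, `0` for `u ≥ 1` and linear in between. -/
noncomputable def ramp : C(ℝ, ℝ) := ⟨fun u => max (min (2 - 2 * u) 1) 0, by fun_prop⟩

/-- A shape function: it vanishes from `1` on and is bounded by `1`. -/
structure IsShape (β : C(ℝ, ℝ)) : Prop where
  zero : ∀ u, 1 ≤ u → β u = 0
  le_one : ∀ u, |β u| ≤ 1

theorem isShape_bump : IsShape bump where
  zero u hu := by
    show max (1 - u ^ 2) 0 = 0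
    exact max_eq_right (by nlinarith)
  le_one u := by
    show |max (1 - u ^ 2) 0| ≤ 1
    rw [abs_of_nonneg (le_max_right _ _)]
    exact max_le (by nlinarith [sq_nonneg u]) zero_le_one

theorem isShape_ramp : IsShape ramp where
  zero u hu := by
    show max (min (2 - 2 * u) 1) 0 = 0
    exact max_eq_right ((min_le_left _ _).trans (by linarith))
  le_one u := by
    show |max (min (2 - 2 * u) 1) 0| ≤ 1
    rw [abs_of_nonneg (le_max_right _ _)]
    exact max_le (min_le_right _ _) zero_le_one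

theorem ramp_eq_one {u : ℝ} (hu : u ≤ 1 / 2) : ramp u = 1 := by
  show max (min (2 - 2 * u) 1) 0 = 1
  rw [min_eq_right (by linarith), max_eq_left zero_le_one]

theorem prof_eq_zero {β : C(ℝ, ℝ)} (hβ : IsShape β) {r : ℝ} (hr : 0 < r) (τ : ℝ) (u : ℝ)
    (hu : r ≤ u) : prof β r τ u = 0 := by
  rw [prof_apply, hβ.zero _ ((one_le_div hr).2 hu), mul_zero]

theorem prof_add (β : C(ℝ, ℝ)) (r τ τ' : ℝ) : prof β r τ + prof β r τ' = prof β r (τ + τ') := by
  ext u
  rw [ContinuousMap.add_apply, prof_apply, prof_apply, prof_apply]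
  ring

theorem prof_neg (β : C(ℝ, ℝ)) (r τ : ℝ) : -prof β r τ = prof β r (-τ) := by
  ext u
  rw [ContinuousMap.neg_apply, prof_apply, prof_apply]
  ring

/-- The displacement of a twist with profile `prof β r τ` is at most `|τ| r`. -/
theorem dist_twist_prof_le (hij : i ≠ j) (c : E n) {β : C(ℝ, ℝ)} (hβ : IsShape β) {r : ℝ}
    (hr : 0 < r) (τ : ℝ) (x : E n) : dist (twist hij c (prof β r τ) x) x ≤ |τ| * r := by
  rcases le_or_gt r ‖x - c‖ with h | h
  · refine (dist_twist_le hij c _ x).trans ?_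
    rw [prof_eq_zero hβ hr τ _ h, abs_zero, zero_mul]
    positivity
  · refine (dist_twist_le hij c _ x).trans ?_
    rw [prof_apply, abs_mul]
    have h1 := hβ.le_one (‖x - c‖ / r)
    calc |τ| * |β (‖x - c‖ / r)| * ‖x - c‖ ≤ |τ| * 1 * r := by gcongr
      _ = |τ| * r := by ring

theorem suppIn_twist_prof (hij : i ≠ j) (c : E n) {β : C(ℝ, ℝ)} (hβ : IsShape β) {r : ℝ}
    (hr : 0 < r) (τ : ℝ) : SuppIn (twist hij c (prof β r τ)) (Metric.closedBall c r) :=
  suppIn_twist hij c _ (prof_eq_zero hβ hr τ)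

/-- A twist with the ramp profile is a rotation on the ball of radius `r / 2`. -/
theorem twist_ramp_apply (hij : i ≠ j) (c : E n) {r : ℝ} (hr : 0 < r) (τ : ℝ) {x : E n}
    (hx : ‖x - c‖ ≤ r / 2) : twist hij c (prof ramp r τ) x = c + rot i j τ (x - c) := by
  rw [twist_apply, prof_apply, ramp_eq_one, mul_one]
  rw [div_le_iff₀ hr]
  linarith

/-- A family of pairwise disjoint closed balls in the open cube with radii tending to zero. -/
structure IsFam {ι : Type} (c : ι → E n) (r : ι → ℝ) : Prop where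
  pos : ∀ q, 0 < r q
  disj : ∀ q q', q ≠ q' → Disjoint (Metric.closedBall (c q) (r q)) (Metric.closedBall (c q') (r q'))
  sub : ∀ q, Metric.closedBall (c q) (r q) ⊆ O n
  small : ∀ ε : ℝ, 0 < ε → {q | ε ≤ r q}.Finite

/-- The one-parameter group of simultaneous twists in the balls of a family. -/
structure TwistFlow {ι : Type} (hij : i ≠ j) (β : C(ℝ, ℝ)) (c : ι → E n) (r : ι → ℝ)
    (Φ : ℝ → (E n ≃ₜ E n)) : Prop where
  add : ∀ τ τ', Φ (τ + τ') = Φ τ * Φ τ'
  mp : ∀ τ, MeasurePreserving (Φ τ) volume volume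
  supp : ∀ τ, SuppIn (Φ τ) (O n)
  dist_le : ∀ τ x, dist (Φ τ x) x ≤ |τ|
  inside : ∀ τ q, ∀ x ∈ Metric.closedBall (c q) (r q), Φ τ x = twist hij (c q) (prof β (r q) τ) x
  outside : ∀ τ x, (∀ q, x ∉ Metric.closedBall (c q) (r q)) → Φ τ x = x

/-- The boundary point `(1/2, 0, …, 0)`. -/
noncomputable def zst (n : ℕ) : E n :=
  WithLp.toLp 2 (fun k => if (k : ℕ) = 0 then 1 / 2 else 0)

end Pool.Agent.W_MP_d1cfb0_an
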