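import Pool.Agent.W_MP_d1cfb0_an.Twist

/-!
# Task G1: twists preserve Lebesgue measure

The twist is a pointwise limit of maps whose angle is constant on thin shells; these preserve the
measure because every shell is invariant under the rotation about its centre. For an open set `U`
this gives `volume (T⁻¹ U) ≤ volume U`, and the same for the inverse twist.
-/

namespace Pool.Agent.W_MP_d1cfb0_an

open MeasureTheory

variable {n : ℕ} {i j : Fin n}

/-- The rotation as a linear isometric equivalence. -/
noncomputable def rotEquiv (hij : i ≠ j) (θ : ℝ) : E n ≃ₗᵢ[ℝ] E n where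
  toFun := rot i j θ
  invFun := rot i j (-θ)
  map_add' := rot_add i j θ
  map_smul' t x := rot_smul i j θ t x
  left_inv x := by rw [rot_rot hij, neg_add_cancel, rot_zero]
  right_inv x := by rw [rot_rot hij, add_neg_cancel, rot_zero]
  norm_map' x := norm_rot hij θ x

theorem mp_rotc (hij : i ≠ j) (c : E n) (θ : ℝ) :
    MeasurePreserving (fun x : E n => c + rot i j θ (x - c)) volume volume :=
  (measurePreserving_add_left volume c).comp
    ((rotEquiv hij θ).measurePreserving.comp (measurePreserving_sub_right volume c))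

/-- A measure is the sum of its restrictions to the fibres of a map to `ℕ`. -/
theorem measure_eq_tsum_fibre {α : Type*} [MeasurableSpace α] (μ : Measure α) {g : α → ℕ}
    (hg : Measurable g) {S : Set α} (hS : MeasurableSet S) :
    μ S = ∑' k : ℕ, μ (S ∩ g ⁻¹' {k}) := by
  rw [← measure_iUnion]
  · congr 1
    ext x
    simp
  · intro k l hkl
    rw [Function.onFun, Set.disjoint_left]
    rintro x ⟨_, h1⟩ ⟨_, h2⟩
    exact hkl (h1.symm.trans h2)
  · intro k
    exact hS.inter (hg (measurableSet_singleton k))

/-- The number of the shell of thickness `1 / m` which contains `x`. -/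
noncomputable def shell (c : E n) (m : ℕ) (x : E n) : ℕ := ⌊(m : ℝ) * ‖x - c‖⌋₊

theorem measurable_shell (c : E n) (m : ℕ) : Measurable (shell c m) := by
  unfold shell
  have h : Measurable fun x : E n => (m : ℝ) * ‖x - c‖ :=
    (by fun_prop : Continuous fun x : E n => (m : ℝ) * ‖x - c‖).measurable
  exact Nat.measurable_floor.comp h

/-- The step approximation of the twist. -/
noncomputable def stepMap (i j : Fin n) (c : E n) (a : C(ℝ, ℝ)) (m : ℕ) (x : E n) : E n :=
  c + rot i j (a ((shell c m x : ℝ) / m)) (x - c)

theorem measurable_rot_comp {α : Type*} [MeasurableSpace α] (i j : Fin n) {f : α → ℝ}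
    {g : α → E n} (hf : Measurable f) (hg : Measurable g) :
    Measurable fun x => rot i j (f x) (g x) := by
  have h1 : Measurable ((fun p : ℝ × E n => rot i j p.1 p.2) ∘ fun x => (f x, g x)) :=
    (continuous_rot i j).measurable.comp (hf.prodMk hg)
  exact h1

theorem continuous_rot_comp {α : Type*} [TopologicalSpace α] (i j : Fin n) {f : α → ℝ}
    {g : α → E n} (hf : Continuous f) (hg : Continuous g) :
    Continuous fun x => rot i j (f x) (g x) := by
  have h1 : Continuous ((fun p : ℝ × E n => rot i j p.1 p.2) ∘ fun x => (f x, g x)) :=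
    (continuous_rot i j).comp (hf.prodMk hg)
  exact h1

theorem measurable_angle (c : E n) (a : C(ℝ, ℝ)) (m : ℕ) :
    Measurable fun x : E n => a ((shell c m x : ℝ) / m) := by
  have h0 : Measurable fun x : E n => (shell c m x : ℝ) :=
    measurable_from_top.comp (measurable_shell c m)
  have h1 : Measurable fun x : E n => ((shell c m x : ℝ) / m) := h0.div_const _
  exact a.continuous.measurable.comp h1

theorem measurable_stepMap (i j : Fin n) (c : E n) (a : C(ℝ, ℝ)) (m : ℕ) :
    Measurable (stepMap i j c a m) := by
  have h1 : Measurable fun x : E n => x - c := measurable_id.sub_const c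
  have h3 : Measurable fun x : E n => rot i j (a ((shell c m x : ℝ) / m)) (x - c) :=
    measurable_rot_comp i j (measurable_angle c a m) h1
  exact h3.const_add c

theorem volume_stepMap (hij : i ≠ j) (c : E n) (a : C(ℝ, ℝ)) (m : ℕ) {S : Set (E n)}
    (hS : MeasurableSet S) : volume (stepMap i j c a m ⁻¹' S) = volume S := by
  rw [measure_eq_tsum_fibre volume (measurable_shell c m) (measurable_stepMap i j c a m hS),
    measure_eq_tsum_fibre volume (measurable_shell c m) hS]
  refine tsum_congr fun k => ?_
  rw [← (mp_rotc hij c (a ((k : ℝ) / m))).measure_preimage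
    (hS.inter (measurable_shell c m (measurableSet_singleton k))).nullMeasurableSet]
  congr 1
  ext x
  have h1 : shell c m (c + rot i j (a ((k : ℝ) / m)) (x - c)) = shell c m x := by
    unfold shell
    rw [add_sub_cancel_left, norm_rot hij]
  simp only [Set.mem_inter_iff, Set.mem_preimage, Set.mem_singleton_iff, h1]
  constructor
  · rintro ⟨h2, h3⟩
    rw [stepMap, h3] at h2
    exact ⟨h2, h3⟩
  · rintro ⟨h2, h3⟩
    rw [stepMap, h3]
    exact ⟨h2, rfl⟩

theorem tendsto_stepMap (i j : Fin n) (c : E n) (a : C(ℝ, ℝ)) (x : E n) :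
    Filter.Tendsto (fun m : ℕ => stepMap i j c a m x) Filter.atTop
      (nhds (c + rot i j (a ‖x - c‖) (x - c))) := by
  have h1 : Filter.Tendsto (fun m : ℕ => ((shell c m x : ℝ) / m)) Filter.atTop
      (nhds ‖x - c‖) := by
    have h2 := (tendsto_nat_floor_mul_div_atTop (norm_nonneg (x - c))).comp
      (tendsto_natCast_atTop_atTop (R := ℝ))
    refine h2.congr fun m => ?_
    simp only [Function.comp_apply, shell]
    rw [mul_comm]
  have h3 : Continuous fun t : ℝ => rot i j (a t) (x - c) :=
    continuous_rot_comp i j a.continuous continuous_const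
  have h4 : Filter.Tendsto (fun m : ℕ => rot i j (a ((shell c m x : ℝ) / m)) (x - c))
      Filter.atTop (nhds (rot i j (a ‖x - c‖) (x - c))) :=
    (h3.tendsto ‖x - c‖).comp h1
  exact h4.const_add c

theorem volume_twist_preimage_le (hij : i ≠ j) (c : E n) (a : C(ℝ, ℝ)) {U : Set (E n)}
    (hU : IsOpen U) : volume (twist hij c a ⁻¹' U) ≤ volume U := by
  have h1 : (twist hij c a ⁻¹' U : Set (E n)) ⊆
      ⋃ N : ℕ, ⋂ m : ℕ, ⋂ (_ : N ≤ m), stepMap i j c a m ⁻¹' U := by
    intro x hx
    have h2 := (tendsto_stepMap i j c a x).eventually (hU.mem_nhds hx)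
    obtain ⟨N, hN⟩ := Filter.eventually_atTop.1 h2
    exact Set.mem_iUnion.2 ⟨N, Set.mem_iInter₂.2 fun m hm => hN m hm⟩
  refine (measure_mono h1).trans ?_
  have hmono : Monotone fun N : ℕ => ⋂ m : ℕ, ⋂ (_ : N ≤ m), stepMap i j c a m ⁻¹' U := by
    intro N N' hN x hx
    rw [Set.mem_iInter₂] at hx ⊢
    exact fun m hm => hx m (hN.trans hm)
  rw [hmono.measure_iUnion]
  refine iSup_le fun N => ?_
  calc volume (⋂ m : ℕ, ⋂ (_ : N ≤ m), stepMap i j c a m ⁻¹' U)
      ≤ volume (stepMap i j c a N ⁻¹' U) :=
        measure_mono (Set.iInter₂_subset N le_rfl)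
    _ = volume U := volume_stepMap hij c a N hU.measurableSet

theorem measurePreserving_twist (hij : i ≠ j) (c : E n) (a : C(ℝ, ℝ)) :
    MeasurePreserving (twist hij c a) volume volume := by
  refine ⟨(twist hij c a).continuous.measurable, ?_⟩
  have hreg : (Measure.map (twist hij c a) (volume : Measure (E n))).OuterRegular :=
    Measure.OuterRegular.map (twist hij c a) volume
  refine Measure.OuterRegular.ext_isOpen fun U hU => ?_
  rw [Measure.map_apply (twist hij c a).continuous.measurable hU.measurableSet]
  refine le_antisymm (volume_twist_preimage_le hij c a hU) ?_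
  have h1 := volume_twist_preimage_le hij c (-a) (hU.preimage (twist hij c a).continuous)
  have h2 : (twist hij c (-a) ⁻¹' (twist hij c a ⁻¹' U) : Set (E n)) = U := by
    rw [← Set.preimage_comp]
    have h3 : (twist hij c a : E n → E n) ∘ (twist hij c (-a)) = id := by
      funext x
      rw [← twist_inv]
      exact apply_inv_self' _ x
    rw [h3, Set.preimage_id]
  rwa [h2] at h1

end Pool.Agent.W_MP_d1cfb0_an
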