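import Pool.Agent.W_MP_d1cfb0_an.Twist

/-!
# Products of small twists and the corresponding vector fields
-/

namespace Pool.Agent.W_MP_d1cfb0_an

/-- The data of a small twist. -/
structure TD (n : ℕ) where
  i : Fin n
  j : Fin n
  hij : i ≠ j
  c : E n
  τ : ℝ

/-- The twist of radius `e`. -/
noncomputable def TD.map {n : ℕ} (e : ℝ) (d : TD n) : E n ≃ₜ E n :=
  twist d.hij d.c (prof bump e d.τ)

/-- The vector field of the twist. -/
noncomputable def TD.field {n : ℕ} (e : ℝ) (d : TD n) (x : E n) : E n :=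
  (d.τ * bump (‖x - d.c‖ / e)) • jrot d.i d.j (x - d.c)

/-- The product of the twists of a list. -/
noncomputable def lmap {n : ℕ} (e : ℝ) : List (TD n) → (E n ≃ₜ E n)
  | [] => 1
  | d :: l => d.map e * lmap e l

/-- The sum of the vector fields of a list. -/
noncomputable def lfield {n : ℕ} (e : ℝ) : List (TD n) → E n → E n
  | [], _ => 0
  | d :: l, x => d.field e x + lfield e l x

/-- The total weight of a list. -/
noncomputable def lwt {n : ℕ} : List (TD n) → ℝ
  | [] => 0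
  | d :: l => |d.τ| + lwt l

/-- Weak divergence freeness. -/
def WDiv {n : ℕ} (U : E n → E n) : Prop :=
  ∀ φ : E n → ℝ, ContDiff ℝ 1 φ → ∫ x, fderiv ℝ φ x (U x) = 0

/-- Multiply all angles of a list by `t`. -/
noncomputable def lscale {n : ℕ} (t : ℝ) (l : List (TD n)) : List (TD n) :=
  l.map fun d => { d with τ := t * d.τ }

/-- `s`-th map of the Alexander path of `h`: `x ↦ s h(x/s)`. -/
noncomputable def alex {n : ℕ} (h : E n ≃ₜ E n) (s : ℝ) (hs : s ≠ 0) : E n ≃ₜ E n :=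
  (Homeomorph.smulOfNeZero s⁻¹ (inv_ne_zero hs)).trans
    (h.trans (Homeomorph.smulOfNeZero s hs))

theorem alex_apply {n : ℕ} (h : E n ≃ₜ E n) (s : ℝ) (hs : s ≠ 0) (x : E n) :
    alex h s hs x = s • h (s⁻¹ • x) := rfl

theorem alex_inv_apply {n : ℕ} (h : E n ≃ₜ E n) (s : ℝ) (hs : s ≠ 0) (x : E n) :
    (alex h s hs)⁻¹ x = s • h⁻¹ (s⁻¹ • x) := by
  apply (alex h s hs).injective
  rw [apply_inv_self', alex_apply, inv_smul_smul₀ hs, apply_inv_self', smul_inv_smul₀ hs]

/-- The generating field at `s = 1`: `U = W ∘ h⁻¹`, `W z = h z - Dh(z) z`. -/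
noncomputable def gfield {n : ℕ} (h : E n ≃ₜ E n) (y : E n) : E n :=
  h (h⁻¹ y) - fderiv ℝ h (h⁻¹ y) (h⁻¹ y)

end Pool.Agent.W_MP_d1cfb0_an
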